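import Pool.Agent.W2helper87.RP.Est8
import Pool.Agent.W2helper87.LD.Lo
import Pool.Agent.W2helper87.LD.Low
import Pool.Agent.W2helper87.FR.Ew

/-!
# Random graphs with small edge probabilities: the maximum degree, with very small failure probability
-/

set_option autoImplicit false

namespace Pool.Agent.W2helper87.RP

open Finset Pool.Agent.H162R2.Sparse Pool.Agent.H162R2.AG Pool.Agent.W2helper87.SR
open Pool.Agent.W2helper87.FR Pool.Agent.W2helper87.LD

section

variable {n : ℕ} (q : Sym2 (Fin n) → ℝ)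

/-- some vertex has a degree at least `k`, if the expected number of vertices of degree at
least `k + s` is large -/
theorem low_max (hq : ∀ e, 0 ≤ q e ∧ q e ≤ 1) (qm : ℝ) (hqm : ∀ e, q e ≤ qm) (hqm0 : 0 ≤ qm)
    (k s u : ℕ) (lam : ℝ) (hlam : 0 ≤ lam) (hu : u ≤ n) (hn : 1 ≤ n)
    (h1 : u * qm * Real.exp lam ≤ 1) :
    pb q (fun G => ∀ v, dg G v < k) ≤
      Real.exp (-(u / n * FF q (k + s) - u * Real.exp (1 - lam * (s + 1)))) := by
  classical
  have hn0 : (0 : ℝ) < n := by exact_mod_cast hn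
  obtain ⟨U, -, hUc, hUs⟩ := choose_sub (fun v : Fin n => TS q (sU v univ) (k + s)) univ u
    (by rw [card_univ, Fintype.card_fin]; exact hu)
  rw [card_univ, Fintype.card_fin] at hUs
  have hUs' : (u : ℝ) / n * FF q (k + s) ≤ ∑ v ∈ U, TS q (sU v univ) (k + s) := by
    rw [div_mul_eq_mul_div, div_le_iff₀ hn0]
    unfold FF
    linarith
  set δ : ℝ := Real.exp (1 - lam * (s + 1)) with hδ
  -- the event
  have h2 : pb q (fun G => ∀ v, dg G v < k) ≤ pb q (fun G => ∀ v ∈ U, cS (sU v Uᶜ) G < k) := by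
    apply pb_mono q hq
    intro G hG v _
    have h3 := hG v
    rw [cS_split v U G] at h3
    omega
  have h3 := pb_none q hq (fun v => sU v Uᶜ) (fun _ => k) U (sU_disj U)
  have h4 : ∀ v ∈ U, TS q (sU v univ) (k + s) - δ ≤ TS q (sU v Uᶜ) k := by
    intro v _
    have e1 : TS q (sU v univ) (k + s) ≤ pb q (fun G => k ≤ cS (sU v Uᶜ) G ∨
        s + 1 ≤ cS (sU v U) G) := by
      apply pb_mono q hq
      intro G hG
      rw [cS_univ, cS_split v U G] at hG
      by_contra hcon
      push Not at hcon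
      omega
    have e2 := pb_or_le q hq (fun G => k ≤ cS (sU v Uᶜ) G) (fun G => s + 1 ≤ cS (sU v U) G)
    have e3 : pb q (fun G => s + 1 ≤ cS (sU v U) G) ≤ δ := by
      refine (TS_chern q hq (sU v U) (s + 1) lam hlam).trans ?_
      rw [hδ]
      apply Real.exp_le_exp.2
      have e4 : qs q (sU v U) ≤ u * qm := by
        have e5 : qs q (sU v U) ≤ (sU v U).card * qm := by
          unfold qs
          refine (sum_le_sum fun e _ => hqm e.1).trans ?_
          rw [sum_const, nsmul_eq_mul]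
        have e6 : ((sU v U).card : ℝ) ≤ u := by
          rw [← hUc]
          exact_mod_cast card_sU v U
        refine e5.trans ?_
        gcongr
      have e5 : qs q (sU v U) * Real.exp lam ≤ u * qm * Real.exp lam := by
        have := (Real.exp_pos lam).le
        gcongr
      push_cast
      linarith
    unfold TS at e1 ⊢
    linarith
  have h5 : (u : ℝ) / n * FF q (k + s) - u * δ ≤ ∑ v ∈ U, TS q (sU v Uᶜ) k := by
    have e1 := sum_le_sum h4
    rw [sum_sub_distrib, sum_const, hUc, nsmul_eq_mul] at e1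
    linarith
  calc pb q (fun G => ∀ v, dg G v < k) ≤ _ := h2
    _ ≤ Real.exp (-∑ v ∈ U, TS q (sU v Uᶜ) k) := h3
    _ ≤ _ := by
        apply Real.exp_le_exp.2
        linarith

/-- the expected number of vertices of degree at least `K` -/
theorem FF_lower (hq : ∀ e, 0 ≤ q e ∧ q e ≤ 1) (qm : ℝ) (hqm : ∀ e, q e ≤ qm)
    (hqm2 : qm ≤ 1 / 2) (K : ℕ) (hK : 1 ≤ K) (b : ℝ) (hb0 : 0 < b) (hb1 : b ≤ 1)
    (hbK : 2 * qm * K ≤ b) (a : ℝ)
    (ha : a ≤ ((univ.filter (fun v => b ≤ mu q v)).card : ℝ)) :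
    a * ((b / (2 * K)) ^ K * Real.exp (-(16 * K)) / 2) ≤ FF q K := by
  classical
  have hKr : (1 : ℝ) ≤ K := by exact_mod_cast hK
  obtain ⟨t, ht⟩ : ∃ t : ℝ, t = (b / (2 * K)) ^ K * Real.exp (-(16 * K)) / 2 := ⟨_, rfl⟩
  have ht0 : 0 ≤ t := by rw [ht]; positivity
  rw [← ht]
  calc a * t ≤ ((univ.filter (fun v => b ≤ mu q v)).card : ℝ) * t := by gcongr
    _ = ∑ _v ∈ univ.filter (fun v => b ≤ mu q v), t := by rw [sum_const, nsmul_eq_mul]
    _ ≤ ∑ v ∈ univ.filter (fun v => b ≤ mu q v), TS q (sU v univ) K := by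
        apply sum_le_sum
        intro v hv
        rw [mem_filter] at hv
        rw [ht]
        exact TS_lower q hq qm hqm hqm2 (sU v univ) K hK b hb0 hb1 (by rw [qs_mu]; exact hv.2) hbK
    _ ≤ FF q K := by
        unfold FF
        exact sum_le_sum_of_subset_of_nonneg (filter_subset _ _) (fun v _ _ => TS_nonneg q hq _ _)

end

end Pool.Agent.W2helper87.RP
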