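import Pool.Agent.W2helper87.RP.Proc
import Pool.Agent.W2helper87.RP.LowMx
import Pool.Agent.W2helper87.TC.LowAll

/-!
# The first stages of the random graph process
-/

set_option autoImplicit false

namespace Pool.Agent.W2helper87.RP

open Finset Pool.Agent.H162R2.Sparse Pool.Agent.H162R2.AG Pool.Agent.W2helper87.SR
open Pool.Agent.W2helper87.FR Pool.Agent.W2helper87.LD Pool.Agent.W2helper87.TC
open Pool.Agent.Results.MP_db9399_co.SparseLargeDegrees

section

variable {n : ℕ} (B : SimpleGraph (Fin n)) (p : ℝ)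

open Classical in
theorem fixed_pb (m : ℕ) (Q : SimpleGraph (Fin n) → Prop) :
    pb (qB B p) (fun G => cS univ G = m ∧ Q G) = (p ^ m * (1 - p) ^ (cS univ B - m)) *
      ((univ.filter (fun G : SimpleGraph (Fin n) => G ≤ B ∧ cS univ G = m ∧ Q G)).card : ℝ) := by
  rw [pb_eq]
  unfold ex
  rw [← sum_boole, mul_sum]
  apply sum_congr rfl
  intro G _
  rw [wt_qB]
  dsimp only
  by_cases h1 : G ≤ B
  · by_cases h2 : cS univ G = m ∧ Q G
    · rw [if_pos h2, if_pos h1, if_pos ⟨h1, h2⟩, h2.1]
      ring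
    · rw [if_neg h2, if_neg (show ¬ (G ≤ B ∧ cS univ G = m ∧ Q G) from fun h => h2 h.2)]
      ring
  · rw [if_neg h1, if_neg (show ¬ (G ≤ B ∧ cS univ G = m ∧ Q G) from fun h => h1 h.1)]
    ring

open Classical in
theorem grS_univ : grS B univ = B := by
  ext a b
  have h3 := mem_grS B univ s(a, b)
  constructor
  · intro hab
    exact (h3.1 hab).1
  · intro hab
    exact h3.2 ⟨hab, mem_univ _⟩

open Classical in
theorem cS_card (N : ℕ) (hN : Fintype.card B.edgeSet = N) : cS univ B = N := by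
  have h1 := cS_grS B univ
  rw [grS_univ, card_univ, hN] at h1
  exact h1

theorem stage_mono {N : ℕ} (σ : B.edgeSet ≃ Fin N) {m k : ℕ} (h : m ≤ k) :
    stage B σ m ≤ stage B σ k := by
  unfold stage
  apply SimpleGraph.fromEdgeSet_mono
  rintro e ⟨he, hlt⟩
  exact ⟨he, by omega⟩

open Classical in
theorem stage_eq {N : ℕ} (σ : B.edgeSet ≃ Fin N) (m : ℕ) :
    stage B σ m = grS B (univ.filter (fun x => (σ x : ℕ) < m)) := by
  unfold stage grS
  congr 1
  ext e
  simp

open Classical in
/-- a monotone property in the process and in the random graph -/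
theorem mono_stage (N m : ℕ) (hN : Fintype.card B.edgeSet = N) (hp0 : 0 ≤ p) (hp1 : p < 1)
    (hpm : p * N = 2 * m) (hm : 8 ≤ m) (A : SimpleGraph (Fin n) → Prop)
    (hA : ∀ G G' : SimpleGraph (Fin n), G ≤ G' → A G → A G') :
    ((univ.filter (fun σ : B.edgeSet ≃ Fin N => A (stage B σ m))).card : ℝ) ≤
      N.factorial * (2 * pb (qB B p) A) := by
  have hcN : cS univ B = N := cS_card B N hN
  have hq := qB_01 B p hp0 hp1.le
  obtain ⟨o, ho⟩ : ∃ o : ℝ, o = ((univ.filter (fun σ : B.edgeSet ≃ Fin N =>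
    A (stage B σ m))).card : ℝ) / N.factorial := ⟨_, rfl⟩
  have hf0 : (0 : ℝ) < N.factorial := by exact_mod_cast N.factorial_pos
  have ho0 : 0 ≤ o := by rw [ho]; positivity
  obtain ⟨M, hM⟩ : ∃ M : ℕ, M = (univ : Finset (Pr n)).card := ⟨_, rfl⟩
  -- every `k`
  have key : ∀ k ∈ Ico m (M + 1), o * PS (qB B p) univ k ≤
      pb (qB B p) (fun G => cS univ G = k ∧ A G) := by
    intro k hk
    rw [mem_Ico] at hk
    rcases Nat.lt_or_ge N k with hNk | hkN
    · have h1 := PS_zero_of_gt B p hp1 k (by rw [hcN]; exact hNk)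
      rw [h1, mul_zero]
      exact pb_nonneg _ hq _
    · obtain ⟨W, hW⟩ : ∃ W : ℝ, W = p ^ k * (1 - p) ^ (cS univ B - k) := ⟨_, rfl⟩
      have hW0 : 0 ≤ W := by
        rw [hW]
        have : 0 ≤ 1 - p := by linarith
        positivity
      have h1 : PS (qB B p) univ k = W * ((univ.filter (fun G : SimpleGraph (Fin n) =>
          G ≤ B ∧ cS univ G = k)).card : ℝ) := by
        have e1 := fixed_pb B p k (fun _ => True)
        simp only [and_true] at e1
        rw [hW]
        exact e1
      have h2 := fixed_pb B p k A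
      rw [← hW] at h2
      have h4 : (univ.filter (fun G : SimpleGraph (Fin n) => G ≤ B ∧ cS univ G = k)).card ≤
          N.choose k := by
        have h5 : ((univ : Finset B.edgeSet).powersetCard k).card = N.choose k := by
          rw [card_powersetCard, card_univ, hN]
        rw [← h5]
        have h6 : ∀ G : SimpleGraph (Fin n), G ≤ B →
            grS B (univ.filter (fun x : B.edgeSet => x.1 ∈ G.edgeSet)) = G := by
          intro G hG
          ext a b
          have h3 := mem_grS B (univ.filter (fun x : B.edgeSet => x.1 ∈ G.edgeSet)) s(a, b)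
          constructor
          · intro hab
            obtain ⟨_, h4⟩ := h3.1 hab
            exact (mem_filter.1 h4).2
          · intro hab
            exact h3.2 ⟨hG hab, mem_filter.2 ⟨mem_univ _, hab⟩⟩
        refine card_le_card_of_injOn
          (fun G => univ.filter (fun x : B.edgeSet => x.1 ∈ G.edgeSet)) ?_ ?_
        · intro G hG
          rw [mem_coe, mem_filter] at hG
          rw [mem_coe, mem_powersetCard]
          refine ⟨subset_univ _, ?_⟩
          rw [← cS_grS, h6 G hG.2.1]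
          exact hG.2.2
        · intro G hG G' hG' h
          rw [mem_coe, mem_filter] at hG hG'
          have h' : univ.filter (fun x : B.edgeSet => x.1 ∈ G.edgeSet) =
            univ.filter (fun x : B.edgeSet => x.1 ∈ G'.edgeSet) := h
          rw [← h6 G hG.2.1, ← h6 G' hG'.2.1, h']
      let P : Finset B.edgeSet → Prop := fun S => A (grS B S)
      have h3 : (((univ : Finset B.edgeSet).powersetCard k).filter P).card ≤
          (univ.filter (fun G : SimpleGraph (Fin n) => G ≤ B ∧ cS univ G = k ∧ A G)).card := by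
        refine card_le_card_of_injOn (fun S => grS B S) ?_ ?_
        · intro S hS
          rw [mem_coe, mem_filter, mem_powersetCard] at hS
          rw [mem_coe, mem_filter]
          exact ⟨mem_univ _, grS_le B S, by rw [cS_grS, hS.1.2], hS.2⟩
        · intro S _ S' _ h
          exact grS_inj B S S' h
      have h5 := count_orders (α := B.edgeSet) N k hN hkN P
      have h6 : (univ.filter (fun σ : B.edgeSet ≃ Fin N => A (stage B σ m))).card ≤
          (univ.filter (fun σ : B.edgeSet ≃ Fin N =>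
            P (univ.filter (fun x => (σ x : ℕ) < k)))).card := by
        apply card_le_card
        intro σ hσ
        rw [mem_filter] at hσ ⊢
        refine ⟨hσ.1, ?_⟩
        have e1 := hA _ _ (stage_mono B σ hk.1) hσ.2
        rw [stage_eq B σ k] at e1
        exact e1
      have h7 : ((univ.filter (fun σ : B.edgeSet ≃ Fin N => A (stage B σ m))).card : ℝ) *
          N.choose k ≤ N.factorial *
            ((((univ : Finset B.edgeSet).powersetCard k).filter P).card : ℝ) := by
        have e1 : (univ.filter (fun σ : B.edgeSet ≃ Fin N => A (stage B σ m))).card *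
            N.choose k ≤ N.factorial *
              (((univ : Finset B.edgeSet).powersetCard k).filter P).card := by
          rw [← h5]
          exact Nat.mul_le_mul_right _ h6
        exact_mod_cast e1
      have h8 : o * (N.choose k : ℝ) ≤
          ((((univ : Finset B.edgeSet).powersetCard k).filter P).card : ℝ) := by
        rw [ho, div_mul_eq_mul_div, div_le_iff₀ hf0]
        linarith
      rw [h1, h2]
      calc o * (W * ((univ.filter (fun G : SimpleGraph (Fin n) =>
            G ≤ B ∧ cS univ G = k)).card : ℝ)) ≤ o * (W * (N.choose k : ℝ)) := by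
            gcongr
        _ = W * (o * (N.choose k : ℝ)) := by ring
        _ ≤ W * ((((univ : Finset B.edgeSet).powersetCard k).filter P).card : ℝ) := by gcongr
        _ ≤ W * ((univ.filter (fun G : SimpleGraph (Fin n) =>
            G ≤ B ∧ cS univ G = k ∧ A G)).card : ℝ) := by
            gcongr
  have hsum := sum_le_sum key
  rw [← mul_sum] at hsum
  -- the sum on the right
  have hR : ∑ k ∈ Ico m (M + 1), pb (qB B p) (fun G => cS univ G = k ∧ A G) ≤ pb (qB B p) A := by
    have e1 : ∑ k ∈ Ico m (M + 1), pb (qB B p) (fun G => cS univ G = k ∧ A G) =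
        ex (qB B p) (fun G => ∑ k ∈ Ico m (M + 1),
          (if cS univ G = k ∧ A G then (1 : ℝ) else 0)) := by
      rw [ex_sum]
      apply sum_congr rfl
      intro k _
      rw [pb_ex]
    rw [e1, pb_ex]
    apply ex_mono _ hq
    intro G
    by_cases h : A G
    · simp only [h, and_true, if_true]
      rw [sum_ite_eq]
      split_ifs <;> norm_num
    · simp [h]
  -- the sum on the left
  have hL : pb (qB B p) (fun G => m ≤ cS univ G) ≤ ∑ k ∈ Ico m (M + 1), PS (qB B p) univ k := by
    have e1 : ∑ k ∈ Ico m (M + 1), PS (qB B p) univ k =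
        ex (qB B p) (fun G => ∑ k ∈ Ico m (M + 1),
          (if cS univ G = k then (1 : ℝ) else 0)) := by
      rw [ex_sum]
      apply sum_congr rfl
      intro k _
      unfold PS
      rw [pb_ex]
    rw [e1, pb_ex]
    apply ex_mono _ hq
    intro G
    rw [sum_ite_eq]
    by_cases h : m ≤ cS univ G
    · have h1 : cS univ G ∈ Ico m (M + 1) := by
        rw [mem_Ico]
        have := cS_le univ G
        rw [← hM] at this
        exact ⟨h, by omega⟩
      rw [if_pos h, if_pos h1]
    · rw [if_neg h]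
      split_ifs <;> norm_num
  have hlow : 1 / 2 ≤ pb (qB B p) (fun G => m ≤ cS univ G) := by
    have hmr : (8 : ℝ) ≤ m := by exact_mod_cast hm
    have e0 : qs (qB B p) univ = 2 * m := by
      rw [qs_qB, hcN, hpm]
    have e1 := cS_lower (qB B p) hq univ (2 * m) m (by positivity) (by rw [e0]) (by positivity)
      (by linarith)
    rw [e0] at e1
    have e2 : Real.exp (-((m : ℝ) ^ 2) / (4 * (2 * m))) ≤ 1 / 2 := by
      have e3 : -((m : ℝ) ^ 2) / (4 * (2 * m)) = -(m / 8) := by
        field_simp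
        norm_num
      rw [e3, Real.exp_neg, one_div]
      apply inv_anti₀ (by norm_num)
      have := Real.add_one_le_exp ((m : ℝ) / 8)
      linarith
    have e3 : pb (qB B p) (fun G => m ≤ cS univ G) =
        1 - pb (qB B p) (fun G => ¬ m ≤ cS univ G) := by
      rw [pb_not]
    have e4 : pb (qB B p) (fun G => ¬ m ≤ cS univ G) ≤
        pb (qB B p) (fun G => (cS univ G : ℝ) ≤ 2 * m - m) := by
      apply pb_mono _ hq
      intro G hG
      push Not at hG
      have : (cS univ G : ℝ) < m := by exact_mod_cast hG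
      linarith
    linarith
  have h1 : o * (1 / 2) ≤ pb (qB B p) A := by
    calc o * (1 / 2) ≤ o * ∑ k ∈ Ico m (M + 1), PS (qB B p) univ k := by
          gcongr
          linarith
      _ ≤ pb (qB B p) A := hsum.trans hR
  have h2 : o ≤ 2 * pb (qB B p) A := by linarith
  rw [ho, div_le_iff₀ hf0] at h2
  linarith

end

set_option maxHeartbeats 1000000 in
/-- the first stages are forests of bounded degrees -/
theorem forest_stage (β γ : ℝ) (hβ0 : 0 < β) (hβ1 : β ≤ 1 / 4) (hγ0 : 0 < γ) :
    ∃ K : ℕ, ∃ N₀ : ℕ, ∀ n : ℕ, N₀ ≤ n → ∀ (B : SimpleGraph (Fin n)) (N : ℕ),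
      γ * (n : ℝ) ^ 2 ≤ N →
      ({σ : B.edgeSet ≃ Fin N | ∃ m : ℕ, (m : ℝ) ≤ (n : ℝ) ^ (1 - β) ∧
        ¬ ((stage B σ m).IsAcyclic ∧ ∀ v, dg (stage B σ m) v < K)}.ncard : ℝ) ≤
        N.factorial * (n : ℝ) ^ (-β) := by
  classical
  obtain ⟨K, hK⟩ : ∃ K : ℕ, K = ⌈6 / β⌉₊ := ⟨_, rfl⟩
  have hKβ : 6 ≤ β * K := by
    have e1 : 6 / β ≤ K := by rw [hK]; exact Nat.le_ceil _
    rw [div_le_iff₀ hβ0] at e1
    linarith
  obtain ⟨N₀, hN₀⟩ := Filter.eventually_atTop.1
    ((ev_const (10 + 4 / γ + 64 / γ ^ 2) (β / 2) (by positivity)).and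
      (Filter.eventually_ge_atTop 16))
  refine ⟨K, N₀, fun n hn B N hγN => ?_⟩
  obtain ⟨v1, hn16⟩ := hN₀ n hn
  have hnr : (16 : ℝ) ≤ n := by exact_mod_cast hn16
  have hn0 : (0 : ℝ) < n := by linarith
  have hn1 : (1 : ℝ) ≤ n := by linarith
  by_cases hN : Fintype.card B.edgeSet = N
  swap
  · have h1 : {σ : B.edgeSet ≃ Fin N | ∃ m : ℕ, (m : ℝ) ≤ (n : ℝ) ^ (1 - β) ∧
        ¬ ((stage B σ m).IsAcyclic ∧ ∀ v, dg (stage B σ m) v < K)} = ∅ := by
      ext σ
      simp only [Set.mem_empty_iff_false, iff_false]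
      intro _
      apply hN
      rw [Fintype.card_congr σ, Fintype.card_fin]
    rw [h1, Set.ncard_empty, Nat.cast_zero]
    positivity
  have hN0 : (0 : ℝ) < N := lt_of_lt_of_le (by positivity) hγN
  have hp1γ : 0 < 4 / γ := by positivity
  have hp2γ : 0 < 64 / γ ^ 2 := by positivity
  obtain ⟨x, hx⟩ : ∃ x : ℝ, x = (n : ℝ) ^ (β / 2) := ⟨_, rfl⟩
  rw [← hx] at v1
  have hx0 : 0 < x := by rw [hx]; positivity
  have hxx : x * x = (n : ℝ) ^ β := by
    rw [hx]
    exact rp_mul n hn0 _ _ _ (by ring)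
  have hxinv : (n : ℝ) ^ (-β) = 1 / (x * x) := by
    rw [hxx, Real.rpow_neg hn0.le, one_div]
  -- the last of these stages
  obtain ⟨m, hm⟩ : ∃ m : ℕ, m = ⌊(n : ℝ) ^ (1 - β)⌋₊ := ⟨_, rfl⟩
  have hm1 : (m : ℝ) ≤ (n : ℝ) ^ (1 - β) := by
    rw [hm]
    exact Nat.floor_le (by positivity)
  have hm8 : 8 ≤ m := by
    rw [hm]
    apply Nat.le_floor
    push_cast
    calc (8 : ℝ) ≤ (16 : ℝ) ^ ((3 : ℝ) / 4) := by
          rw [show (16 : ℝ) = 2 ^ (4 : ℝ) by norm_num, ← Real.rpow_mul (by norm_num)]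
          norm_num
      _ ≤ (n : ℝ) ^ ((3 : ℝ) / 4) := by
          apply Real.rpow_le_rpow (by norm_num) hnr (by norm_num)
      _ ≤ (n : ℝ) ^ (1 - β) := by
          apply Real.rpow_le_rpow_of_exponent_le hn1
          linarith
  have hmr : (8 : ℝ) ≤ m := by exact_mod_cast hm8
  obtain ⟨p, hp⟩ : ∃ p : ℝ, p = 2 * m / N := ⟨_, rfl⟩
  have hp0 : 0 < p := by rw [hp]; positivity
  have hpN : p * N = 2 * m := by
    rw [hp]
    field_simp
  have hpn : p * n ≤ 2 / γ * (1 / (x * x)) := by
    have e1 : p ≤ 2 * (n : ℝ) ^ (1 - β) / (γ * (n : ℝ) ^ 2) := by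
      rw [hp]
      gcongr
    have e2 : (n : ℝ) ^ (1 - β) = n * (n : ℝ) ^ (-β) := by
      nth_rewrite 2 [← Real.rpow_one (n : ℝ)]
      rw [rp_mul n hn0 _ _ _ rfl]
      congr 1
    calc p * n ≤ 2 * (n : ℝ) ^ (1 - β) / (γ * (n : ℝ) ^ 2) * n := by gcongr
      _ = 2 / γ * (n : ℝ) ^ (-β) := by
          rw [e2]
          field_simp
      _ = _ := by rw [hxinv]
  obtain ⟨e, he⟩ : ∃ e : ℝ, e = 2 / γ * (1 / (x * x)) := ⟨_, rfl⟩
  rw [← he] at hpn
  have he0 : 0 < e := by rw [he]; positivity
  have hxe : x * e ≤ 1 := by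
    have e1 : x * e = (2 / γ) / x := by
      rw [he]
      field_simp
    rw [e1, div_le_one hx0]
    have e2 : 2 / γ ≤ 4 / γ := by
      gcongr
      norm_num
    linarith
  have he4 : e ≤ 1 / 4 := by
    have e1 : 10 * e ≤ x * e := by
      gcongr
      linarith
    linarith
  have hp1 : p < 1 := by
    have e1 : p * 1 ≤ p * n := by gcongr
    linarith
  have hq := qB_01 B p hp0.le hp1.le
  obtain ⟨A, hA⟩ : ∃ A : SimpleGraph (Fin n) → Prop,
    A = fun G => ¬ (G.IsAcyclic ∧ ∀ v, dg G v < K) := ⟨_, rfl⟩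
  have hAm : ∀ G G' : SimpleGraph (Fin n), G ≤ G' → A G → A G' := by
    intro G G' hGG' hG
    rw [hA] at hG ⊢
    intro h
    apply hG
    refine ⟨h.1.anti hGG', fun v => lt_of_le_of_lt ?_ (h.2 v)⟩
    exact dg_mono (fun a b hab => hGG' hab) v
  have h1 := mono_stage B p N m hN hp0.le hp1 hpN hm8 A hAm
  -- the probability
  have hmu : ∀ v, mu (qB B p) v ≤ e := by
    intro v
    rw [← qs_mu, qs_qB, cS_univ]
    refine le_trans ?_ hpn
    have e1 : dg B v ≤ n := (dg_lt B v).trans (Nat.sub_le _ _)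
    have e2 : (dg B v : ℝ) ≤ n := by exact_mod_cast e1
    gcongr
  have h2 : pb (qB B p) (fun G => ¬ G.IsAcyclic) ≤ 8 * e ^ 2 := by
    have e1 := pb_cycle (qB B p) hq p 1 e (qB_le B p hp0.le) hp0.le le_rfl he0.le
      (fun v => (hmu v).trans (by linarith)) ∅ (fun v _ => hmu v) (by simp; exact he0.le)
      (by linarith)
    refine e1.trans ?_
    calc 8 * (n : ℝ) * p * 1 ^ 2 * e = 8 * (p * n) * e := by ring
      _ ≤ 8 * e * e := by gcongr
      _ = 8 * e ^ 2 := by ring
  have h3 : pb (qB B p) (fun G => ∃ v ∈ (univ : Finset (Fin n)), K ≤ dg G v) ≤ 3 / (n : ℝ) ^ 2 := by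
    refine (pb_exists_le (qB B p) hq univ (fun v G => K ≤ dg G v)).trans ?_
    have e1 : ∀ v ∈ (univ : Finset (Fin n)), pb (qB B p) (fun G => K ≤ dg G v) ≤
        3 / (n : ℝ) ^ 3 := by
      intro v _
      have e2 := TS_chern (qB B p) hq (sU v univ) K (β / 2 * Real.log n)
        (by
          have := Real.log_nonneg hn1
          positivity)
      have e3 : Real.exp (β / 2 * Real.log n) = x := by
        rw [hx, Real.rpow_def_of_pos hn0]
        congr 1
        ring
      rw [e3] at e2
      have e4 : pb (qB B p) (fun G => K ≤ dg G v) ≤ TS (qB B p) (sU v univ) K := by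
        apply pb_mono _ hq
        intro G hG
        rw [cS_univ]
        exact hG
      refine e4.trans (e2.trans ?_)
      have e5 : qs (qB B p) (sU v univ) * x ≤ 1 := by
        rw [qs_mu]
        calc mu (qB B p) v * x ≤ e * x := by
              have := hmu v
              gcongr
          _ = x * e := mul_comm _ _
          _ ≤ 1 := hxe
      have e6 : 3 * Real.log n ≤ β / 2 * Real.log n * K := by
        have := Real.log_nonneg hn1
        calc 3 * Real.log n = 6 / 2 * Real.log n := by ring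
          _ ≤ (β * K) / 2 * Real.log n := by gcongr
          _ = β / 2 * Real.log n * K := by ring
      calc Real.exp (qs (qB B p) (sU v univ) * x - β / 2 * Real.log n * K) ≤
          Real.exp (1 + -(3 * Real.log n)) := by
            apply Real.exp_le_exp.2
            linarith
        _ = Real.exp 1 * (1 / (n : ℝ) ^ 3) := by
            have := exp_npow (n := n) (by omega) 3
            push_cast at this
            rw [Real.exp_add, this]
        _ ≤ 3 * (1 / (n : ℝ) ^ 3) := by
            have := Real.exp_one_lt_d9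
            gcongr
            linarith
        _ = 3 / (n : ℝ) ^ 3 := by ring
    refine (sum_le_sum e1).trans ?_
    rw [sum_const, card_univ, Fintype.card_fin, nsmul_eq_mul]
    apply le_of_eq
    field_simp
  have h4 : pb (qB B p) A ≤ 8 * e ^ 2 + 3 / (n : ℝ) ^ 2 := by
    have e1 : pb (qB B p) A ≤ pb (qB B p) (fun G => ¬ G.IsAcyclic ∨
        ∃ v ∈ (univ : Finset (Fin n)), K ≤ dg G v) := by
      apply pb_mono _ hq
      intro G hG
      rw [hA] at hG
      by_contra hcon
      push Not at hcon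
      exact hG ⟨hcon.1, fun v => hcon.2 v (mem_univ v)⟩
    have e2 := pb_or_le (qB B p) hq (fun G => ¬ G.IsAcyclic)
      (fun G => ∃ v ∈ (univ : Finset (Fin n)), K ≤ dg G v)
    linarith
  have h5 : 2 * pb (qB B p) A ≤ (n : ℝ) ^ (-β) := by
    rw [hxinv]
    have e1 : 8 * e ^ 2 = 32 / γ ^ 2 / x / x * (1 / (x * x)) := by
      rw [he]
      field_simp
      norm_num
    have e2 : 32 / γ ^ 2 / x ≤ 1 / 2 := by
      rw [div_le_iff₀ hx0]
      have : 64 / γ ^ 2 = 2 * (32 / γ ^ 2) := by ring
      linarith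
    have e3 : 32 / γ ^ 2 / x / x ≤ 1 / 20 := by
      rw [div_le_iff₀ hx0]
      linarith
    have e4 : 3 / (n : ℝ) ^ 2 ≤ 1 / 4 * (1 / (x * x)) := by
      have e5 : x * x ≤ n := by
        rw [hxx]
        calc (n : ℝ) ^ β ≤ (n : ℝ) ^ (1 : ℝ) :=
              Real.rpow_le_rpow_of_exponent_le hn1 (by linarith)
          _ = n := Real.rpow_one _
      rw [div_le_iff₀ (by positivity)]
      have e6 : 12 * (x * x) ≤ (n : ℝ) ^ 2 := by nlinarith
      have e7 : 1 / 4 * (1 / (x * x)) * (n : ℝ) ^ 2 = (n : ℝ) ^ 2 / (4 * (x * x)) := by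
        field_simp
      rw [e7, le_div_iff₀ (by positivity)]
      linarith
    have e8 : 8 * e ^ 2 ≤ 1 / 20 * (1 / (x * x)) := by
      rw [e1]
      gcongr
    have e9 : 0 < 1 / (x * x) := by positivity
    linarith
  have h6 : ({σ : B.edgeSet ≃ Fin N | ∃ m : ℕ, (m : ℝ) ≤ (n : ℝ) ^ (1 - β) ∧
        ¬ ((stage B σ m).IsAcyclic ∧ ∀ v, dg (stage B σ m) v < K)}.ncard : ℝ) ≤
      ((univ.filter (fun σ : B.edgeSet ≃ Fin N => A (stage B σ m))).card : ℝ) := by
    rw [← Set.ncard_coe_finset]
    have e1 : {σ : B.edgeSet ≃ Fin N | ∃ m : ℕ, (m : ℝ) ≤ (n : ℝ) ^ (1 - β) ∧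
        ¬ ((stage B σ m).IsAcyclic ∧ ∀ v, dg (stage B σ m) v < K)} ⊆
        ((univ.filter (fun σ : B.edgeSet ≃ Fin N => A (stage B σ m)) :
          Finset (B.edgeSet ≃ Fin N)) : Set (B.edgeSet ≃ Fin N)) := by
      rintro σ ⟨m', hm', h'⟩
      rw [mem_coe, mem_filter]
      refine ⟨mem_univ _, hAm (stage B σ m') (stage B σ m) (stage_mono B σ ?_) ?_⟩
      · rw [hm]
        exact Nat.le_floor hm'
      · rw [hA]
        exact h'
    exact_mod_cast Set.ncard_le_ncard e1 (Set.toFinite _)
  refine h6.trans (h1.trans ?_)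
  gcongr

end Pool.Agent.W2helper87.RP
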