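import Pool.Agent.W2helper87.FR.Mx
import Pool.Agent.W2helper87.LD.Cyc

/-!
# Random graphs: high moments of the number of vertices of large degree
-/

set_option autoImplicit false

namespace Pool.Agent.W2helper87.RP

open Finset Pool.Agent.H162R2.Sparse Pool.Agent.H162R2.AG Pool.Agent.W2helper87.SR
open Pool.Agent.W2helper87.FR Pool.Agent.W2helper87.LD

/-- elementary symmetric functions and powers of the sum -/
theorem esymm_le {ι : Type} [DecidableEq ι] (x : ι → ℝ) (s : Finset ι)
    (hx : ∀ i ∈ s, 0 ≤ x i) (r : ℕ) :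
    ∑ M ∈ s.powersetCard r, ∏ i ∈ M, x i ≤ (∑ i ∈ s, x i) ^ r := by
  induction s using Finset.induction_on generalizing r with
  | empty =>
    cases r with
    | zero => simp
    | succ r =>
      rw [powersetCard_eq_empty.2 (by simp)]
      simp
  | insert a s ha ih =>
    have hx' : ∀ i ∈ s, 0 ≤ x i := fun i hi => hx i (mem_insert_of_mem hi)
    have hxa : 0 ≤ x a := hx a (mem_insert_self a s)
    have hσ : 0 ≤ ∑ i ∈ s, x i := sum_nonneg hx'
    cases r with
    | zero => simp
    | succ r =>
      rw [powersetCard_succ_insert ha, sum_union, sum_insert ha]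
      · rw [sum_image]
        · have h1 : ∑ M ∈ s.powersetCard r, ∏ i ∈ insert a M, x i =
              x a * ∑ M ∈ s.powersetCard r, ∏ i ∈ M, x i := by
            rw [mul_sum]
            apply sum_congr rfl
            intro M hM
            rw [mem_powersetCard] at hM
            rw [prod_insert]
            intro h
            exact ha (hM.1 h)
          rw [h1]
          have h2 := ih hx' (r + 1)
          have h3 := ih hx' r
          have h4 : (∑ i ∈ s, x i) ^ r ≤ (x a + ∑ i ∈ s, x i) ^ r := by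
            apply pow_le_pow_left₀ hσ
            linarith
          have h5 : 0 ≤ (x a + ∑ i ∈ s, x i) ^ r := by positivity
          calc ∑ M ∈ s.powersetCard (r + 1), ∏ i ∈ M, x i +
                x a * ∑ M ∈ s.powersetCard r, ∏ i ∈ M, x i ≤
              (∑ i ∈ s, x i) ^ (r + 1) + x a * (∑ i ∈ s, x i) ^ r := by gcongr
            _ = (x a + ∑ i ∈ s, x i) * (∑ i ∈ s, x i) ^ r := by ring
            _ ≤ (x a + ∑ i ∈ s, x i) * (x a + ∑ i ∈ s, x i) ^ r := by gcongr
            _ = (x a + ∑ i ∈ s, x i) ^ (r + 1) := by ring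
        · intro M hM M' hM' h
          rw [mem_coe, mem_powersetCard] at hM hM'
          have e1 : a ∉ M := fun h' => ha (hM.1 h')
          have e2 : a ∉ M' := fun h' => ha (hM'.1 h')
          rw [← erase_insert e1, ← erase_insert e2, h]
      · rw [disjoint_left]
        intro M hM hM'
        rw [mem_powersetCard] at hM
        rw [mem_image] at hM'
        obtain ⟨M', _, rfl⟩ := hM'
        exact ha (hM.1 (mem_insert_self a M'))

section

variable {n : ℕ} (q : Sym2 (Fin n) → ℝ)

theorem ex_prod' (S : Fin n → Finset (Pr n)) (F : Fin n → SimpleGraph (Fin n) → ℝ)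
    (hF : ∀ v, ∀ G G' : SimpleGraph (Fin n),
      (∀ e ∈ S v, (e.1 ∈ G.edgeSet ↔ e.1 ∈ G'.edgeSet)) → F v G = F v G') (U : Finset (Fin n))
    (hS : ∀ v ∈ U, ∀ w ∈ U, v ≠ w → Disjoint (S v) (S w)) :
    ex q (fun G => ∏ v ∈ U, F v G) = ∏ v ∈ U, ex q (F v) := by
  classical
  induction U using Finset.induction_on with
  | empty =>
    simp only [prod_empty]
    exact ex_one q
  | insert a U ha ih =>
    rw [prod_insert ha, ← ih (fun v hv w hw => hS v (mem_insert_of_mem hv) w
      (mem_insert_of_mem hw))]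
    have h1 : (fun G : SimpleGraph (Fin n) => ∏ v ∈ insert a U, F v G) =
        fun G => F a G * ∏ v ∈ U, F v G := by
      funext G
      rw [prod_insert ha]
    rw [h1]
    refine ex_indep q (S a) (F a) (fun G => ∏ v ∈ U, F v G) ?_ ?_
    · intro G G' h
      exact hF a G G' h
    · intro G G' h
      apply prod_congr rfl
      intro v hv
      apply hF v G G'
      intro e he
      apply h e
      intro hea
      have hne : v ≠ a := fun h' => ha (h' ▸ hv)
      exact disjoint_left.1 (hS v (mem_insert_of_mem hv) a (mem_insert_self _ _) hne) he hea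

theorem sU_mono (v : Fin n) {U U' : Finset (Fin n)} (h : U ⊆ U') : sU v U ⊆ sU v U' := by
  intro e he
  rw [mem_sU] at he ⊢
  obtain ⟨w, hw, h'⟩ := he
  exact ⟨w, h hw, h'⟩

theorem cS_mono {S S' : Finset (Pr n)} (h : S ⊆ S') (G : SimpleGraph (Fin n)) :
    cS S G ≤ cS S' G := by
  classical
  unfold cS
  exact card_le_card (filter_subset_filter _ h)

theorem TS_mono (hq : ∀ e, 0 ≤ q e ∧ q e ≤ 1) {S S' : Finset (Pr n)} (h : S ⊆ S') (k : ℕ) :
    TS q S k ≤ TS q S' k := pb_mono q hq fun G hG => hG.trans (cS_mono h G)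

theorem cS_sU_le (v : Fin n) (U : Finset (Fin n)) (G : SimpleGraph (Fin n)) :
    cS (sU v U) G ≤ U.card := by
  classical
  rw [cS_sU]
  apply card_le_card
  intro w hw
  exact (mem_filter.1 hw).2

/-- the probability that all vertices of a small set have large degrees -/
theorem all_large (hq : ∀ e, 0 ≤ q e ∧ q e ≤ 1) (M : Finset (Fin n)) (r k : ℕ)
    (hM : M.card ≤ r) :
    pb q (fun G => ∀ v ∈ M, k ≤ dg G v) ≤ ∏ v ∈ M, TS q (sU v univ) (k - r) := by
  classical
  have h1 : pb q (fun G => ∀ v ∈ M, k ≤ dg G v) ≤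
      pb q (fun G => ∀ v ∈ M, k - r ≤ cS (sU v Mᶜ) G) := by
    apply pb_mono q hq
    intro G hG v hv
    have h2 := hG v hv
    rw [cS_split v M G] at h2
    have h3 := cS_sU_le v M G
    omega
  refine h1.trans ?_
  have h2 : pb q (fun G => ∀ v ∈ M, k - r ≤ cS (sU v Mᶜ) G) =
      ex q (fun G => ∏ v ∈ M, (if k - r ≤ cS (sU v Mᶜ) G then (1 : ℝ) else 0)) := by
    rw [pb_ex]
    congr 1
    funext G
    by_cases h : ∀ v ∈ M, k - r ≤ cS (sU v Mᶜ) G
    · rw [if_pos h]
      symm
      apply prod_eq_one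
      intro v hv
      rw [if_pos (h v hv)]
    · rw [if_neg h]
      push Not at h
      obtain ⟨v, hv, hlt⟩ := h
      symm
      apply prod_eq_zero hv
      rw [if_neg (by omega)]
  rw [h2, ex_prod' q (fun v => sU v Mᶜ)
    (fun v G => if k - r ≤ cS (sU v Mᶜ) G then (1 : ℝ) else 0) ?_ M (sU_disj M)]
  · apply prod_le_prod
    · intro v _
      rw [← pb_ex]
      exact pb_nonneg q hq _
    · intro v _
      rw [← pb_ex]
      exact TS_mono q hq (sU_mono v (subset_univ _)) (k - r)
  · intro v G G' h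
    rw [cS_congr (sU v Mᶜ) G G' h]

/-- the probability that all vertices of a small set have large degrees and a common neighbour -/
theorem all_large_adj (hq : ∀ e, 0 ≤ q e ∧ q e ≤ 1) (qm : ℝ) (hqm : ∀ e, q e ≤ qm) (x : Fin n)
    (M : Finset (Fin n)) (hx : x ∉ M) (r k : ℕ) (hM : M.card + 1 ≤ r) :
    pb q (fun G => ∀ v ∈ M, G.Adj v x ∧ k ≤ dg G v) ≤
      ∏ v ∈ M, (qm * TS q (sU v univ) (k - r)) := by
  classical
  have h1 : pb q (fun G => ∀ v ∈ M, G.Adj v x ∧ k ≤ dg G v) ≤
      pb q (fun G => ∀ v ∈ M, G.Adj v x ∧ k - r ≤ cS (sU v (insert x M)ᶜ) G) := by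
    apply pb_mono q hq
    intro G hG v hv
    refine ⟨(hG v hv).1, ?_⟩
    have h2 := (hG v hv).2
    rw [cS_split v (insert x M) G] at h2
    have h3 := cS_sU_le v (insert x M) G
    rw [card_insert_of_notMem hx] at h3
    omega
  refine h1.trans ?_
  have h2 : pb q (fun G => ∀ v ∈ M, G.Adj v x ∧ k - r ≤ cS (sU v (insert x M)ᶜ) G) =
      ex q (fun G => ∏ v ∈ M,
        (if G.Adj v x ∧ k - r ≤ cS (sU v (insert x M)ᶜ) G then (1 : ℝ) else 0)) := by
    rw [pb_ex]
    congr 1
    funext G
    by_cases h : ∀ v ∈ M, G.Adj v x ∧ k - r ≤ cS (sU v (insert x M)ᶜ) G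
    · rw [if_pos h]
      symm
      apply prod_eq_one
      intro v hv
      rw [if_pos (h v hv)]
    · rw [if_neg h]
      push Not at h
      obtain ⟨v, hv, hlt⟩ := h
      symm
      apply prod_eq_zero hv
      rw [if_neg]
      rintro ⟨h3, h4⟩
      have := hlt h3
      omega
  rw [h2, ex_prod' q (fun v => if v ∈ M then sU v Mᶜ else univ)
    (fun v G => if G.Adj v x ∧ k - r ≤ cS (sU v (insert x M)ᶜ) G then (1 : ℝ) else 0) ?_ M ?_]
  · apply prod_le_prod
    · intro v _
      rw [← pb_ex]
      exact pb_nonneg q hq _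
    · intro v hv
      have hvx : x ≠ v := fun h => hx (h ▸ hv)
      rw [← pb_ex, indep_edge q v x hvx (fun G => k - r ≤ cS (sU v (insert x M)ᶜ) G)]
      · have h3 := TS_mono q hq (sU_mono v (subset_univ (insert x M)ᶜ)) (k - r)
        have h4 := TS_nonneg q hq (sU v (insert x M)ᶜ) (k - r)
        have h5 := hqm s(v, x)
        have h6 := (hq s(v, x)).1
        have h7 : 0 ≤ qm := h6.trans h5
        exact mul_le_mul h5 h3 h4 h7
      · intro G G' h
        rw [cS_congr (sU v (insert x M)ᶜ) G G']
        intro e he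
        rw [mem_sU] at he
        obtain ⟨w, hw, hew⟩ := he
        rw [hew]
        apply h v w
        intro h'
        have h8 := Sym2.congr_right.1 h'
        rw [h8, mem_compl] at hw
        exact hw (mem_insert_self x M)
  · intro v G G' h
    by_cases hv : v ∈ M
    · simp only [hv, if_true] at h
      have e1 : G.Adj v x ↔ G'.Adj v x := by
        have hvx : v ≠ x := fun h => hx (h ▸ hv)
        exact h ⟨s(v, x), by simpa using hvx⟩ (by
          rw [mem_sU]
          exact ⟨x, by rw [mem_compl]; exact hx, rfl⟩)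
      have e2 : cS (sU v (insert x M)ᶜ) G = cS (sU v (insert x M)ᶜ) G' := by
        apply cS_congr
        intro e he
        apply h e
        refine sU_mono v ?_ he
        exact compl_subset_compl.2 (subset_insert x M)
      simp only [e1, e2]
    · simp only [hv, if_false] at h
      have e1 : G = G' := by
        ext a b
        by_cases hab : a = b
        · subst hab
          simp
        · exact h ⟨s(a, b), by simpa using hab⟩ (mem_univ _)
      rw [e1]
  · intro v hv w hw hvw
    simp only [hv, hw, if_true]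
    exact sU_disj M v hv w hw hvw

/-- the moment method for the number of vertices of large degree -/
theorem count_moment (hq : ∀ e, 0 ≤ q e ∧ q e ≤ 1) (r k : ℕ) (a : ℝ) (ha : 2 * (r : ℝ) ≤ a)
    (ha0 : 0 < a) :
    pb q (fun G => a ≤ ((univ.filter (fun v => k ≤ dg G v)).card : ℝ)) ≤
      r.factorial * (2 * FF q (k - r) / a) ^ r := by
  classical
  let Z : SimpleGraph (Fin n) → ℕ := fun G => (univ.filter (fun v => k ≤ dg G v)).card
  have hZ : ∀ G, ((Z G).choose r : ℝ) =
      ∑ M ∈ (univ : Finset (Fin n)).powersetCard r, (if ∀ v ∈ M, k ≤ dg G v then (1 : ℝ) else 0) := by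
    intro G
    rw [sum_boole, ← card_powersetCard]
    congr 2
    ext M
    rw [mem_powersetCard, mem_filter, mem_powersetCard]
    constructor
    · rintro ⟨h1, h2⟩
      exact ⟨⟨subset_univ _, h2⟩, fun v hv => (mem_filter.1 (h1 hv)).2⟩
    · rintro ⟨⟨_, h2⟩, h3⟩
      exact ⟨fun v hv => mem_filter.2 ⟨mem_univ _, h3 v hv⟩, h2⟩
  have hr0 : (0 : ℝ) < r.factorial := by exact_mod_cast r.factorial_pos
  have hpos : 0 < (a / 2) ^ r / r.factorial := by positivity
  have h1 : pb q (fun G => a ≤ ((univ.filter (fun v => k ≤ dg G v)).card : ℝ)) ≤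
      pb q (fun G => (a / 2) ^ r / r.factorial ≤ ((Z G).choose r : ℝ)) := by
    apply pb_mono q hq
    intro G hG
    have hG' : a ≤ (Z G : ℝ) := hG
    rw [div_le_iff₀ hr0]
    have hrZ : r ≤ Z G + 1 := by
      have : (r : ℝ) ≤ Z G + 1 := by
        have : (0 : ℝ) ≤ r := Nat.cast_nonneg _
        linarith
      exact_mod_cast this
    have h2 := Nat.pow_sub_le_descFactorial (Z G) r
    have h3 : ((Z G + 1 - r : ℕ) : ℝ) ^ r ≤ (Z G).descFactorial r := by exact_mod_cast h2
    rw [Nat.descFactorial_eq_factorial_mul_choose] at h3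
    push_cast at h3
    rw [Nat.cast_sub hrZ] at h3
    push_cast at h3
    have h4 : (a / 2) ^ r ≤ ((Z G : ℝ) + 1 - r) ^ r := by
      apply pow_le_pow_left₀ (by positivity)
      linarith
    linarith
  have h2 := markov q hq (fun G => ((Z G).choose r : ℝ)) (fun G => Nat.cast_nonneg _)
    ((a / 2) ^ r / r.factorial) hpos
  have h3 : ex q (fun G => ((Z G).choose r : ℝ)) ≤ FF q (k - r) ^ r := by
    have e1 : (fun G => ((Z G).choose r : ℝ)) = fun G =>
        ∑ M ∈ (univ : Finset (Fin n)).powersetCard r,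
          (if ∀ v ∈ M, k ≤ dg G v then (1 : ℝ) else 0) := funext hZ
    rw [e1, ex_sum]
    calc ∑ M ∈ (univ : Finset (Fin n)).powersetCard r,
          ex q (fun G => if ∀ v ∈ M, k ≤ dg G v then (1 : ℝ) else 0) ≤
        ∑ M ∈ (univ : Finset (Fin n)).powersetCard r, ∏ v ∈ M, TS q (sU v univ) (k - r) := by
          apply sum_le_sum
          intro M hM
          rw [← pb_ex]
          exact all_large q hq M r k (mem_powersetCard.1 hM).2.le
      _ ≤ _ := esymm_le (fun v => TS q (sU v univ) (k - r)) univ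
          (fun v _ => TS_nonneg q hq _ _) r
  have hFF : 0 ≤ FF q (k - r) := sum_nonneg fun v _ => TS_nonneg q hq _ _
  calc pb q (fun G => a ≤ ((univ.filter (fun v => k ≤ dg G v)).card : ℝ)) ≤ _ := h1.trans h2
    _ ≤ FF q (k - r) ^ r / ((a / 2) ^ r / r.factorial) := by gcongr
    _ = r.factorial * (2 * FF q (k - r) / a) ^ r := by
        rw [div_pow, div_pow, mul_pow]
        field_simp

/-- no vertex has many neighbours of large degree -/
theorem adj_moment (hq : ∀ e, 0 ≤ q e ∧ q e ≤ 1) (qm : ℝ) (hqm : ∀ e, q e ≤ qm) (r k : ℕ) :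
    pb q (fun G => ∃ x ∈ (univ : Finset (Fin n)),
      r ≤ ((nb G x).filter (fun v => k ≤ dg G v)).card) ≤
      n * (qm * FF q (k - (r + 1))) ^ r := by
  classical
  refine (pb_exists_le q hq univ (fun x G =>
    r ≤ ((nb G x).filter (fun v => k ≤ dg G v)).card)).trans ?_
  have h1 : ∀ x ∈ (univ : Finset (Fin n)),
      pb q (fun G => r ≤ ((nb G x).filter (fun v => k ≤ dg G v)).card) ≤
        (qm * FF q (k - (r + 1))) ^ r := by
    intro x _
    have hqm0 : 0 ≤ qm := (hq s(x, x)).1.trans (hqm _)
    have h2 : pb q (fun G => r ≤ ((nb G x).filter (fun v => k ≤ dg G v)).card) ≤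
        pb q (fun G => ∃ M ∈ (univ.erase x).powersetCard r, ∀ v ∈ M, G.Adj v x ∧ k ≤ dg G v) := by
      apply pb_mono q hq
      intro G hG
      obtain ⟨M, hM, hMc⟩ := exists_subset_card_eq hG
      refine ⟨M, ?_, ?_⟩
      · rw [mem_powersetCard]
        refine ⟨fun v hv => ?_, hMc⟩
        have h3 := hM hv
        rw [mem_filter, mem_nb] at h3
        rw [mem_erase]
        exact ⟨h3.1.ne', mem_univ _⟩
      · intro v hv
        have h3 := hM hv
        rw [mem_filter, mem_nb] at h3
        exact ⟨h3.1.symm, h3.2⟩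
    refine h2.trans ((pb_exists_le q hq _ (fun M G => ∀ v ∈ M, G.Adj v x ∧ k ≤ dg G v)).trans ?_)
    calc ∑ M ∈ (univ.erase x).powersetCard r, pb q (fun G => ∀ v ∈ M, G.Adj v x ∧ k ≤ dg G v) ≤
        ∑ M ∈ (univ.erase x).powersetCard r,
          ∏ v ∈ M, (qm * TS q (sU v univ) (k - (r + 1))) := by
          apply sum_le_sum
          intro M hM
          rw [mem_powersetCard] at hM
          refine all_large_adj q hq qm hqm x M (fun h => ?_) (r + 1) k (by rw [hM.2])
          exact notMem_erase x univ (hM.1 h)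
      _ ≤ (∑ v ∈ univ.erase x, qm * TS q (sU v univ) (k - (r + 1))) ^ r :=
          esymm_le _ _ (fun v _ => mul_nonneg hqm0 (TS_nonneg q hq _ _)) r
      _ ≤ (qm * FF q (k - (r + 1))) ^ r := by
          apply pow_le_pow_left₀
          · exact sum_nonneg fun v _ => mul_nonneg hqm0 (TS_nonneg q hq _ _)
          · unfold FF
            rw [mul_sum]
            exact sum_le_sum_of_subset_of_nonneg (erase_subset _ _)
              (fun v _ _ => mul_nonneg hqm0 (TS_nonneg q hq _ _))
  refine (sum_le_sum h1).trans ?_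
  rw [sum_const, card_univ, Fintype.card_fin, nsmul_eq_mul]

end

end Pool.Agent.W2helper87.RP
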