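import Pool.Agent.W2helper87.FR.Mx2
import Pool.Agent.W2helper87.RP.Mom

/-!
# Random graphs: a threshold below the maximum degree, with very small failure probability
-/

set_option autoImplicit false

namespace Pool.Agent.W2helper87.RP

open Finset Pool.Agent.H162R2.Sparse Pool.Agent.H162R2.AG Pool.Agent.W2helper87.SR
open Pool.Agent.W2helper87.FR Pool.Agent.W2helper87.LD

section

variable {n : ℕ} (B : SimpleGraph (Fin n)) (p η μ S : ℝ) (hp0 : 0 < p) (hη0 : 0 < η)
  (hη : p ≤ 1 - η) (hμ0 : 0 < μ) (hμ : ∀ v, p * (cS (sU v univ) B : ℝ) ≤ μ)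
  (hS0 : 0 < S) (hSS : S ^ 2 = μ * Real.log n)

include hp0 hη0 hη hμ0 hμ hS0 hSS in
/-- a vertex has a small probability to exceed the largest expected degree by `6 S` -/
theorem TS_far6 (v : Fin n) (k : ℕ) (h : p * (cS (sU v univ) B : ℝ) + 6 * S ≤ k)
    (h2 : 3 * S ≤ μ) : TS (qB B p) (sU v univ) k ≤ Real.exp (-(9 * Real.log n)) := by
  have hq := qB_01 B p hp0.le (by linarith)
  have h3 := cS_upper (qB B p) hq (sU v univ) μ (6 * S) hμ0 (by rw [qs_qB]; exact hμ v)
    (by linarith) (by linarith)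
  have h4 : TS (qB B p) (sU v univ) k ≤
      pb (qB B p) (fun G => qs (qB B p) (sU v univ) + 6 * S ≤ cS (sU v univ) G) := by
    apply pb_mono _ hq
    intro G hG
    rw [qs_qB]
    have : (k : ℝ) ≤ cS (sU v univ) G := by exact_mod_cast hG
    linarith
  refine (h4.trans h3).trans (le_of_eq ?_)
  congr 1
  have h5 : -((6 * S) ^ 2) = -(36 * (S ^ 2)) := by ring
  rw [h5, hSS]
  field_simp
  ring

include hp0 hη0 hη hμ0 hμ hS0 hSS in
theorem FF_cmp6 (k s m : ℕ) (hn : 1 ≤ n) (hηS : 100 * S ≤ μ * η) (hl1 : 1 ≤ Real.log n)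
    (hk : μ - 10 * S ≤ k) (hks : ((k + s : ℕ) : ℝ) ≤ μ + 6 * S + 2) (hS2 : 2 ≤ S)
    (hm : m = ⌊μ * η / (100 * S)⌋₊) :
    1 ≤ m ∧ μ * η / (200 * S) ≤ m ∧
    FF (qB B p) k ≤ Real.exp (2 / m * s) * FF (qB B p) (k + s) + 1 := by
  have hq := qB_01 B p hp0.le (by linarith)
  have hp1 : p < 1 := by linarith
  have hη1 : η < 1 := by linarith
  have hn0 : (0 : ℝ) < n := by exact_mod_cast hn
  have hr1 : 1 ≤ μ * η / (100 * S) := by
    rw [le_div_iff₀ (by positivity)]
    linarith
  have hm1 : 1 ≤ m := by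
    rw [hm]
    exact Nat.le_floor (by simpa using hr1)
  have hmr1 : (1 : ℝ) ≤ m := by exact_mod_cast hm1
  have hmle : (m : ℝ) ≤ μ * η / (100 * S) := by
    rw [hm]
    exact Nat.floor_le (by linarith)
  have hmge : μ * η / (200 * S) ≤ m := by
    have h1 : μ * η / (100 * S) < m + 1 := by
      rw [hm]
      exact Nat.lt_floor_add_one _
    have h2 : μ * η / (200 * S) = μ * η / (100 * S) / 2 := by
      field_simp
      norm_num
    rw [h2]
    linarith
  have hmS : (m : ℝ) ≤ S := by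
    refine hmle.trans ?_
    rw [div_le_iff₀ (by positivity)]
    have h1 : μ * η ≤ μ * 1 := by gcongr
    have h2 : μ * 1 ≤ μ * Real.log n := by gcongr
    have h3 : S * (100 * S) = 100 * S ^ 2 := by ring
    rw [h3, hSS]
    have h4 : 0 ≤ μ * Real.log n := by positivity
    linarith
  have h34 : 50 * S ≤ μ / 2 := by
    have : μ * η ≤ μ * 1 := by gcongr
    linarith
  refine ⟨hm1, hmge, ?_⟩
  -- every vertex
  have key : ∀ v : Fin n, TS (qB B p) (sU v univ) k ≤
      Real.exp (2 / m * s) * TS (qB B p) (sU v univ) (k + s) + Real.exp (-(9 * Real.log n)) := by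
    intro v
    have hT0 := TS_nonneg (qB B p) hq (sU v univ) (k + s)
    by_cases hv : μ - 16 * S ≤ p * (cS (sU v univ) B : ℝ)
    · have h1 := TS_cmp B p hp0 hp1 (sU v univ) (24 * S) (50 * S / (μ * η)) (by positivity)
        (by positivity) m hm1 (by
          calc (m : ℝ) * (50 * S / (μ * η)) ≤ μ * η / (100 * S) * (50 * S / (μ * η)) := by gcongr
            _ = 1 / 2 := by
                field_simp
                norm_num) (by
          have h2 : μ / 2 * η ≤ (cS (sU v univ) B : ℝ) * p * (1 - p) := by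
            have h3 : μ / 2 ≤ (cS (sU v univ) B : ℝ) * p := by linarith
            have h4 : η ≤ 1 - p := by linarith
            calc μ / 2 * η ≤ ((cS (sU v univ) B : ℝ) * p) * η := by gcongr
              _ ≤ (cS (sU v univ) B : ℝ) * p * (1 - p) := by gcongr
          calc 24 * S + 1 ≤ 25 * S := by linarith
            _ = 50 * S / (μ * η) * (μ / 2 * η) := by
                field_simp
                norm_num
            _ ≤ 50 * S / (μ * η) * ((cS (sU v univ) B : ℝ) * p * (1 - p)) := by gcongr)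
        k s (by
          push_cast at hks ⊢
          linarith)
      have := Real.exp_pos (-(9 * Real.log n))
      linarith
    · push Not at hv
      have h1 := TS_far6 B p η μ S hp0 hη0 hη hμ0 hμ hS0 hSS v k (by linarith) (by linarith)
      have h2 : 0 ≤ Real.exp (2 / m * s) * TS (qB B p) (sU v univ) (k + s) := by positivity
      linarith
  have h1 := sum_le_sum (s := (univ : Finset (Fin n))) fun v _ => key v
  rw [sum_add_distrib, ← mul_sum, sum_const, card_univ, Fintype.card_fin, nsmul_eq_mul] at h1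
  have h2 : (n : ℝ) * Real.exp (-(9 * Real.log n)) ≤ 1 := by
    have h3 : (n : ℝ) = Real.exp (Real.log n) := (Real.exp_log hn0).symm
    calc (n : ℝ) * Real.exp (-(9 * Real.log n)) =
        Real.exp (Real.log n) * Real.exp (-(9 * Real.log n)) := by rw [← h3]
      _ = Real.exp (Real.log n + -(9 * Real.log n)) := by rw [Real.exp_add]
      _ ≤ 1 := by
          rw [Real.exp_le_one_iff]
          linarith
  unfold FF
  linarith

theorem exp_npow (hn : 1 ≤ n) (k : ℕ) :
    Real.exp (-((k : ℝ) * Real.log n)) = 1 / (n : ℝ) ^ k := by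
  have hn0 : (0 : ℝ) < n := by exact_mod_cast hn
  rw [Real.exp_neg, mul_comm, Real.exp_mul, Real.exp_log hn0, Real.rpow_natCast, one_div]

set_option maxHeartbeats 4000000 in
include hp0 hη0 hη hμ0 hμ hS0 hSS in
/-- a threshold: few vertices are above it, and the maximum degree is well above it -/
theorem threshold (ε : ℝ) (hε : 0 < ε) (hε4 : 8 * ε ≤ 1) (R : ℕ) (hR : (R : ℝ) + 1 ≤ ε * S)
    (v₀ : Fin n) (hv₀ : p * (cS (sU v₀ univ) B : ℝ) = μ) (b b2 : ℝ) (hb : 1 ≤ b) (hbn : b ≤ n)
    (hb2 : b2 = Real.exp (3000 * ε / η * Real.log n) * b + 1)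
    (hηS : 100 * S ≤ μ * η) (hεS2 : 16 * S ≤ ε * μ) (hl1 : 1 ≤ Real.log n)
    (u : ℕ) (hu : u ≤ n) (huμ : p * u ≤ ε ^ 2 * μ / 32) (hub : 9 * Real.log n ≤ u / n * b) :
    ∃ k₁ : ℕ, FF (qB B p) (k₁ - R) ≤ b2 ∧
      pb (qB B p) (fun G => ∀ v, (dg G v : ℝ) < k₁ + 2 * ε * S) ≤ 3 / (n : ℝ) ^ 7 := by
  classical
  have hq := qB_01 B p hp0.le (by linarith)
  have hn : 1 ≤ n := by
    have := v₀.2
    omega
  have hn0 : (0 : ℝ) < n := by exact_mod_cast hn
  have hn1 : (1 : ℝ) ≤ n := by exact_mod_cast hn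
  have hη1 : η < 1 := by linarith
  have hR0 : (0 : ℝ) ≤ R := Nat.cast_nonneg _
  have hεS1 : 1 ≤ ε * S := by linarith
  have hS2 : 2 ≤ S := by nlinarith
  have h34 : 50 * S ≤ μ / 2 := by
    have : μ * η ≤ μ * 1 := by gcongr
    linarith
  have hb2b : b + 1 ≤ b2 := by
    rw [hb2]
    have h1 : 1 ≤ Real.exp (3000 * ε / η * Real.log n) := Real.one_le_exp (by positivity)
    nlinarith
  have h97 : 1 / (n : ℝ) ^ 9 ≤ 1 / (n : ℝ) ^ 7 := by
    apply div_le_div_of_nonneg_left zero_le_one (by positivity)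
    exact pow_le_pow_right₀ hn1 (by norm_num)
  -- the threshold
  have h9 : (n : ℝ) * Real.exp (-(9 * Real.log n)) < 1 := by
    calc (n : ℝ) * Real.exp (-(9 * Real.log n)) =
        Real.exp (Real.log n) * Real.exp (-(9 * Real.log n)) := by rw [Real.exp_log hn0]
      _ = Real.exp (Real.log n + -(9 * Real.log n)) := by rw [Real.exp_add]
      _ < 1 := by
          rw [Real.exp_lt_one_iff]
          linarith
  have hsmall : ∀ k : ℕ, μ + 6 * S ≤ k → FF (qB B p) k < b := by
    intro k hk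
    have h2 : FF (qB B p) k ≤ n * Real.exp (-(9 * Real.log n)) := by
      unfold FF
      refine (sum_le_sum (g := fun _ => Real.exp (-(9 * Real.log n))) fun v _ =>
        TS_far6 B p η μ S hp0 hη0 hη hμ0 hμ hS0 hSS v _ (by
          have := hμ v
          linarith) (by linarith)).trans ?_
      rw [sum_const, card_univ, Fintype.card_fin, nsmul_eq_mul]
    linarith
  have hex : ∃ k₀ : ℕ, b ≤ FF (qB B p) k₀ ∧ FF (qB B p) (k₀ + 1) < b := by
    have h0 : b ≤ FF (qB B p) 0 := by
      have : FF (qB B p) 0 = n := by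
        unfold FF
        have h1 : ∀ v : Fin n, TS (qB B p) (sU v univ) 0 = 1 := by
          intro v
          unfold TS
          simp only [Nat.zero_le]
          rw [pb_eq]
          simpa using ex_one (qB B p)
        simp [h1]
      rw [this]
      exact hbn
    have h1 : FF (qB B p) (⌈μ + 6 * S⌉₊) < b := hsmall _ (Nat.le_ceil _)
    by_contra hcon
    push Not at hcon
    have h4 : ∀ k, b ≤ FF (qB B p) k := by
      intro k
      induction k with
      | zero => exact h0
      | succ k ih => exact hcon k ih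
    linarith [h4 (⌈μ + 6 * S⌉₊)]
  obtain ⟨k₀, hk0, hk1⟩ := hex
  have hk₀u : (k₀ : ℝ) ≤ μ + 6 * S := by
    by_contra hcon
    push Not at hcon
    linarith [hsmall k₀ hcon.le]
  have hεS8 : 8 * (ε * S) ≤ S := by nlinarith
  rcases le_or_gt ((k₀ : ℝ) + 1) (μ - 8 * S) with hB | hA
  · -- the maximum degree is larger than `k₀`
    refine ⟨k₀ + 1 + R, by rw [Nat.add_sub_cancel]; linarith, ?_⟩
    have h1 : pb (qB B p) (fun G => ∀ v, (dg G v : ℝ) < (k₀ + 1 + R : ℕ) + 2 * ε * S) ≤
        pb (qB B p) (fun G => (cS (sU v₀ univ) G : ℝ) ≤ qs (qB B p) (sU v₀ univ) - 6 * S) := by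
      apply pb_mono _ hq
      intro G hG
      have h2 := hG v₀
      rw [qs_qB, hv₀, cS_univ]
      push_cast at h2
      linarith
    have h2 := cS_lower (qB B p) hq (sU v₀ univ) μ (6 * S) hμ0 (by rw [qs_qB, hv₀]) (by linarith)
      (by linarith)
    have h4 : Real.exp (-((6 * S) ^ 2) / (4 * μ)) = 1 / (n : ℝ) ^ 9 := by
      have e1 : -((6 * S) ^ 2) / (4 * μ) = -((9 : ℕ) * Real.log n) := by
        have e2 : -((6 * S) ^ 2) = -(36 * (S ^ 2)) := by ring
        rw [e2, hSS]
        push_cast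
        field_simp
        norm_num
      rw [e1, exp_npow hn]
    rw [h4] at h2
    have h6 : 1 / (n : ℝ) ^ 7 ≤ 3 / (n : ℝ) ^ 7 := by
      gcongr
      norm_num
    linarith
  · -- the independent events
    set kk : ℕ := ⌈(k₀ : ℝ) - 6 * ε * S⌉₊ with hkk
    have hpos : 0 ≤ (k₀ : ℝ) - 6 * ε * S := by nlinarith
    have hkkle : kk ≤ k₀ := by
      rw [hkk, Nat.ceil_le]
      have : 0 ≤ 6 * ε * S := by positivity
      linarith
    obtain ⟨s, hs⟩ : ∃ s, kk + s = k₀ + 1 := ⟨k₀ + 1 - kk, by omega⟩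
    have hkklo : (k₀ : ℝ) - 6 * ε * S ≤ kk := Nat.le_ceil _
    have hkkhi : (kk : ℝ) < (k₀ : ℝ) - 6 * ε * S + 1 := Nat.ceil_lt_add_one hpos
    have hsr : (kk : ℝ) + s = k₀ + 1 := by exact_mod_cast hs
    obtain ⟨hm1, hmge, hcmp⟩ := FF_cmp6 B p η μ S hp0 hη0 hη hμ0 hμ hS0 hSS kk s
      (⌊μ * η / (100 * S)⌋₊) hn hηS hl1 (by linarith) (by push_cast; linarith) hS2 rfl
    set m := ⌊μ * η / (100 * S)⌋₊ with hm
    have hmr1 : (1 : ℝ) ≤ m := by exact_mod_cast hm1
    rw [hs] at hcmp
    have hsle : (s : ℝ) ≤ 7 * ε * S := by nlinarith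
    have hfac : 2 / (m : ℝ) * s ≤ 3000 * ε / η * Real.log n := by
      have e1 : 2 / (m : ℝ) ≤ 2 / (μ * η / (200 * S)) := by
        apply div_le_div_of_nonneg_left (by norm_num) (by positivity) hmge
      calc 2 / (m : ℝ) * s ≤ 2 / (μ * η / (200 * S)) * (7 * ε * S) := by gcongr
        _ = 2800 * ε / η * (S ^ 2 / μ) := by
            field_simp
            ring
        _ = 2800 * ε / η * Real.log n := by
            rw [hSS]
            field_simp
        _ ≤ _ := by
            have : 0 ≤ ε / η * Real.log n := by positivity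
            have e2 : 2800 * ε / η * Real.log n = 2800 * (ε / η * Real.log n) := by ring
            have e3 : 3000 * ε / η * Real.log n = 3000 * (ε / η * Real.log n) := by ring
            rw [e2, e3]
            linarith
    have hFF : FF (qB B p) kk ≤ b2 := by
      rw [hb2]
      refine hcmp.trans ?_
      have e1 : Real.exp (2 / m * s) ≤ Real.exp (3000 * ε / η * Real.log n) :=
        Real.exp_le_exp.2 hfac
      have e2 : 0 ≤ FF (qB B p) (k₀ + 1) := sum_nonneg fun v _ => TS_nonneg _ hq _ _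
      have e3 : Real.exp (2 / m * s) * FF (qB B p) (k₀ + 1) ≤
          Real.exp (3000 * ε / η * Real.log n) * b := by gcongr
      linarith
    refine ⟨kk + R, by rw [Nat.add_sub_cancel]; exact hFF, ?_⟩
    have h1 : pb (qB B p) (fun G => ∀ v, (dg G v : ℝ) < (kk + R : ℕ) + 2 * ε * S) ≤
        pb (qB B p) (fun G => ∀ v, (dg G v : ℝ) < k₀ - 2 * (ε * S)) := by
      apply pb_mono _ hq
      intro G hG v
      have h2 := hG v
      push_cast at h2
      nlinarith
    have hτ : ε * S ≤ 2 * (ε ^ 2 * μ / 32) := by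
      calc ε * S = ε * (16 * S) / 16 := by ring
        _ ≤ ε * (ε * μ) / 16 := by gcongr
        _ = 2 * (ε ^ 2 * μ / 32) := by ring
    have h2 := indep_max (qB B p) hq k₀ (ε ^ 2 * μ / 32) (ε * S) (by positivity) (by positivity)
      hτ u hu hn (by
        intro U hU v
        rw [qs_qB]
        refine le_trans ?_ huμ
        apply mul_le_mul_of_nonneg_left _ hp0.le
        rw [← hU]
        exact_mod_cast cS_sU_le v U B)
    have e1 : -((ε * S) ^ 2) / (4 * (ε ^ 2 * μ / 32)) = -((8 : ℕ) * Real.log n) := by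
      have e2 : -((ε * S) ^ 2) = -(ε ^ 2 * (S ^ 2)) := by ring
      rw [e2, hSS]
      push_cast
      field_simp
      norm_num
    rw [e1, exp_npow hn] at h2
    have hur : (u : ℝ) ≤ n := by exact_mod_cast hu
    have e3 : (u : ℝ) * (1 / (n : ℝ) ^ 8) ≤ 1 / (n : ℝ) ^ 7 := by
      calc (u : ℝ) * (1 / (n : ℝ) ^ 8) ≤ n * (1 / (n : ℝ) ^ 8) := by gcongr
        _ = 1 / (n : ℝ) ^ 7 := by field_simp
    have e6 : Real.exp (-(u / n * FF (qB B p) k₀ - u * (1 / (n : ℝ) ^ 8))) ≤ 1 / (n : ℝ) ^ 7 := by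
      have e7 : (u : ℝ) / n * b ≤ u / n * FF (qB B p) k₀ := by gcongr
      have e8 : 1 / (n : ℝ) ^ 7 ≤ 1 := by
        rw [div_le_one (by positivity)]
        exact one_le_pow₀ hn1
      rw [← exp_npow hn 7]
      apply Real.exp_le_exp.2
      push_cast
      linarith
    have h6 : 1 / (n : ℝ) ^ 7 + 1 / (n : ℝ) ^ 7 ≤ 3 / (n : ℝ) ^ 7 := by
      rw [← add_div]
      gcongr
      norm_num
    linarith

end

end Pool.Agent.W2helper87.RP
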