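import Pool.Agent.W2helper87.RP.Jmb
import Pool.Agent.W2helper87.RP.Mx3
import Pool.Agent.W2helper87.TC.JumT
import Pool.Agent.W2helper87.SR.TotFin

/-!
# Random subgraphs of dense graphs: very small failure probability
-/

set_option autoImplicit false

namespace Pool.Agent.W2helper87.RP

open Finset Pool.Agent.H162R2.Sparse Pool.Agent.H162R2.AG Pool.Agent.W2helper87.SR
open Pool.Agent.W2helper87.FR Pool.Agent.W2helper87.LD Pool.Agent.W2helper87.TC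

theorem rp_mul (n : ℝ) (hn : 0 < n) (a b c : ℝ) (h : a + b = c) : n ^ a * n ^ b = n ^ c := by
  rw [← Real.rpow_add hn, h]

set_option maxHeartbeats 4000000 in
open Classical in
/-- the deterministic part: a threshold `k₁` with all the properties -/
theorem det_good (ε γ : ℝ) (hε0 : 0 < ε) (hε1 : ε ≤ 1) (hγ0 : 0 < γ) (hγ1 : γ ≤ 1) :
    ∃ c : ℝ, 0 < c ∧ ∃ N : ℕ, ∀ n : ℕ, N ≤ n → ∀ (G : SimpleGraph (Fin n)) (p μ : ℝ) (k₁ : ℕ),
      0 < p → 0 < μ → Real.log n ^ 4 ≤ μ → γ * p * n ≤ μ →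
      (∃ v, (k₁ : ℝ) + 2 * ε * Real.sqrt (μ * Real.log n) ≤ dg G v) →
      (∀ v, (dg G v : ℝ) ≤ 2 * μ) → (∃ v, μ / 2 ≤ dg G v) →
      (∀ X Y : Finset (Fin n), eXY G X Y ≤ 4 * p * (X.card * Y.card) +
        c * Real.sqrt (μ * Real.log n) * Real.sqrt (X.card * Y.card)) →
      ((univ.filter (fun v => k₁ ≤ dg G v)).card : ℝ) < (n : ℝ) ^ ((3 : ℝ) / 10) →
      (μ ≤ (n : ℝ) ^ ((7 : ℝ) / 10) → ∀ x, ((nb G x).filter (fun v => k₁ ≤ dg G v)).card < 45) →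
      Gd G ∧ GdTot G := by
  obtain ⟨K, hK⟩ : ∃ K : ℝ, K = 8 / γ := ⟨_, rfl⟩
  have hK1 : 1 ≤ K := by
    rw [hK, le_div_iff₀ hγ0]
    linarith
  obtain ⟨c₁, hc₁0, -, N₁, h₁⟩ := jumb ε K hε0 hε1 hK1
  obtain ⟨c₂, hc₂0, N₂, h₂⟩ := jumb_total ε K hε0 hε1 hK1
  obtain ⟨c, hc⟩ : ∃ c : ℝ, c = min c₁ c₂ := ⟨_, rfl⟩
  have hc0 : 0 < c := by rw [hc]; exact lt_min hc₁0 hc₂0
  have hcc₁ : c ≤ c₁ := by rw [hc]; exact min_le_left _ _
  have hcc₂ : c ≤ c₂ := by rw [hc]; exact min_le_right _ _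
  obtain ⟨N, hN⟩ := Filter.eventually_atTop.1
    ((ev_log (4 + 90 / ε + 90 / c)).and ((ev_const (1 / c) (1 / 5) (by norm_num)).and
      ((ev_const (2 / ε) (1 / 20) (by norm_num)).and ((ev_const (2 / c) (1 / 20) (by norm_num)).and
        (Filter.eventually_ge_atTop (max (max N₁ N₂) 1))))))
  refine ⟨c / 2, by positivity, N, fun n hn G p μ k₁ hp0 hμ0 hμl hμ hbig hup hlow hj hfew hadj => ?_⟩
  obtain ⟨v1, v2, v3, v4, v5⟩ := hN n hn
  have hnN₁ : N₁ ≤ n := le_trans (le_max_left _ _) (le_trans (le_max_left _ _) v5)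
  have hnN₂ : N₂ ≤ n := le_trans (le_max_right _ _) (le_trans (le_max_left _ _) v5)
  have hn1 : 1 ≤ n := le_trans (le_max_right _ _) v5
  have hn0 : (0 : ℝ) < n := by exact_mod_cast hn1
  have hnr : (1 : ℝ) ≤ n := by exact_mod_cast hn1
  obtain ⟨l, hl⟩ : ∃ l : ℝ, l = Real.log n := ⟨_, rfl⟩
  rw [← hl] at v1 hμl hbig hj
  have hεp : 0 < 90 / ε := by positivity
  have hcp : 0 < 90 / c := by positivity
  have hl4 : 4 ≤ l := by linarith
  have hl0 : 0 < l := by linarith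
  have hlε : 90 ≤ ε * l := by
    have : 90 / ε ≤ l := by linarith
    rw [div_le_iff₀ hε0] at this
    linarith
  have hlc : 90 ≤ c * l := by
    have : 90 / c ≤ l := by linarith
    rw [div_le_iff₀ hc0] at this
    linarith
  obtain ⟨S, hS⟩ : ∃ S : ℝ, S = Real.sqrt (μ * l) := ⟨_, rfl⟩
  rw [← hS] at hbig hj
  have hS0 : 0 < S := by rw [hS]; positivity
  have hSS : S ^ 2 = μ * l := by rw [hS]; exact Real.sq_sqrt (by positivity)
  have hSl : l ≤ S := by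
    rw [hS]
    apply Real.le_sqrt_of_sq_le
    have e1 : l * 1 ≤ l ^ 4 := by
      have : (1 : ℝ) ≤ l ^ 3 := one_le_pow₀ (by linarith)
      calc l * 1 ≤ l * l ^ 3 := by gcongr
        _ = l ^ 4 := by ring
    calc l ^ 2 = (l * 1) * l := by ring
      _ ≤ l ^ 4 * l := by gcongr
      _ ≤ μ * l := by gcongr
  -- for every `D`
  have key : ∀ D : ℕ, (∀ v, dg G v ≤ D) → (∃ v, dg G v = D) →
      D ≤ n ∧ 2 * l ^ 3 ≤ D ∧ (k₁ : ℝ) + 2 * ε * S ≤ D ∧ S / 2 ≤ Real.sqrt (D * l) ∧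
      (∀ c' : ℝ, c ≤ c' → (∀ X Y : Finset (Fin n), eXY G X Y ≤ K * D / n * X.card * Y.card +
        c' * Real.sqrt (D * l) * Real.sqrt (X.card * Y.card)) ∧
      ((univ.filter (fun v => (D : ℝ) - ε * Real.sqrt (D * l) < dg G v)).card : ℝ) ≤
        c' * n * Real.sqrt (l / D)) := by
    intro D hD1 hD2
    obtain ⟨w, hw⟩ := hD2
    have a1 : D ≤ n := by
      rw [← hw]
      unfold dg
      exact (card_le_univ _).trans (by rw [Fintype.card_fin])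
    have a1r : (D : ℝ) ≤ n := by exact_mod_cast a1
    have a2 : μ / 2 ≤ D := by
      obtain ⟨v, hv⟩ := hlow
      have : (dg G v : ℝ) ≤ D := by exact_mod_cast hD1 v
      linarith
    have a3 : (D : ℝ) ≤ 2 * μ := by
      have := hup w
      rw [hw] at this
      exact this
    have a4 : (k₁ : ℝ) + 2 * ε * S ≤ D := by
      obtain ⟨v, hv⟩ := hbig
      have : (dg G v : ℝ) ≤ D := by exact_mod_cast hD1 v
      linarith
    have hD0 : (0 : ℝ) < D := by linarith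
    have a5 : 2 * l ^ 3 ≤ D := by
      have e1 : 4 * l ^ 3 ≤ l ^ 4 := by
        calc 4 * l ^ 3 ≤ l * l ^ 3 := by gcongr
          _ = l ^ 4 := by ring
      linarith
    have a6 : S / 2 ≤ Real.sqrt (D * l) := by
      apply Real.le_sqrt_of_sq_le
      have e1 : (S / 2) ^ 2 = μ * l / 4 := by rw [div_pow, hSS]; norm_num
      rw [e1]
      have e2 : μ / 2 * l ≤ D * l := by gcongr
      nlinarith
    have a7 : Real.sqrt (D * l) ≤ 2 * S := by
      apply Real.sqrt_le_iff.2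
      refine ⟨by linarith, ?_⟩
      have e1 : (2 * S) ^ 2 = 4 * (μ * l) := by rw [mul_pow, hSS]; norm_num
      rw [e1]
      have e2 : (D : ℝ) * l ≤ 2 * μ * l := by gcongr
      have e3 : 0 ≤ μ * l := by positivity
      linarith
    refine ⟨a1, a5, a4, a6, fun c' hc' => ⟨?_, ?_⟩⟩
    · intro X Y
      have hc'0 : 0 ≤ c' := hc0.le.trans hc'
      refine (hj X Y).trans ?_
      have e1 : 4 * p ≤ K * D / n := by
        rw [le_div_iff₀ hn0, hK]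
        calc 4 * p * n = 4 / γ * (γ * p * n) := by field_simp
          _ ≤ 4 / γ * μ := by gcongr
          _ = 8 / γ * (μ / 2) := by ring
          _ ≤ 8 / γ * D := by gcongr
      have e2 : 4 * p * ((X.card : ℝ) * Y.card) ≤ K * D / n * X.card * Y.card := by
        calc 4 * p * ((X.card : ℝ) * Y.card) ≤ K * D / n * ((X.card : ℝ) * Y.card) := by gcongr
          _ = _ := by ring
      have e3 : c / 2 * S ≤ c' * Real.sqrt (D * l) := by
        calc c / 2 * S = c * (S / 2) := by ring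
          _ ≤ c' * Real.sqrt (D * l) := by gcongr
      have e4 : c / 2 * S * Real.sqrt (X.card * Y.card) ≤
          c' * Real.sqrt (D * l) * Real.sqrt (X.card * Y.card) := by gcongr
      linarith
    · have e1 : (univ.filter (fun v => (D : ℝ) - ε * Real.sqrt (D * l) < dg G v)).card ≤
          (univ.filter (fun v => k₁ ≤ dg G v)).card := by
        apply card_le_card
        intro v hv
        rw [mem_filter] at hv ⊢
        refine ⟨hv.1, ?_⟩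
        have e2 : ε * Real.sqrt (D * l) ≤ ε * (2 * S) := by gcongr
        have e3 : (k₁ : ℝ) ≤ dg G v := by linarith [hv.2]
        exact_mod_cast e3
      have e2 : ((univ.filter (fun v => (D : ℝ) - ε * Real.sqrt (D * l) < dg G v)).card : ℝ) ≤
          (univ.filter (fun v => k₁ ≤ dg G v)).card := by exact_mod_cast e1
      have e3 : (n : ℝ) ^ ((3 : ℝ) / 10) ≤ c * (n : ℝ) ^ ((1 : ℝ) / 2) := by
        have e4 : (1 : ℝ) ≤ c * (n : ℝ) ^ ((1 : ℝ) / 5) := by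
          rw [div_le_iff₀ hc0] at v2
          linarith
        calc (n : ℝ) ^ ((3 : ℝ) / 10) = 1 * (n : ℝ) ^ ((3 : ℝ) / 10) := (one_mul _).symm
          _ ≤ (c * (n : ℝ) ^ ((1 : ℝ) / 5)) * (n : ℝ) ^ ((3 : ℝ) / 10) := by gcongr
          _ = c * ((n : ℝ) ^ ((1 : ℝ) / 5) * (n : ℝ) ^ ((3 : ℝ) / 10)) := by ring
          _ = c * (n : ℝ) ^ ((1 : ℝ) / 2) := by
              rw [rp_mul n hn0 _ _ (1 / 2) (by norm_num)]
      have e5 : (n : ℝ) ^ ((1 : ℝ) / 2) ≤ n * Real.sqrt (l / D) := by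
        have e6 : Real.sqrt (1 / n) ≤ Real.sqrt (l / D) := by
          apply Real.sqrt_le_sqrt
          rw [div_le_div_iff₀ hn0 hD0]
          have : (1 : ℝ) * D ≤ l * n := by
            have : (1 : ℝ) * n ≤ l * n := by
              gcongr
              linarith
            linarith
          exact this
        calc (n : ℝ) ^ ((1 : ℝ) / 2) = n * Real.sqrt (1 / n) := by
              rw [Real.sqrt_eq_rpow, one_div (n : ℝ), ← Real.rpow_neg_one, ← Real.rpow_mul hn0.le]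
              nth_rewrite 2 [← Real.rpow_one (n : ℝ)]
              rw [rp_mul n hn0 1 (-1 * (1 / 2)) (1 / 2) (by norm_num)]
          _ ≤ n * Real.sqrt (l / D) := by gcongr
      have e7 : 0 ≤ (n : ℝ) * Real.sqrt (l / D) := by positivity
      calc ((univ.filter (fun v => (D : ℝ) - ε * Real.sqrt (D * l) < dg G v)).card : ℝ) ≤
          (n : ℝ) ^ ((3 : ℝ) / 10) := e2.trans hfew.le
        _ ≤ c * (n : ℝ) ^ ((1 : ℝ) / 2) := e3
        _ ≤ c * (n * Real.sqrt (l / D)) := by gcongr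
        _ ≤ c' * (n * Real.sqrt (l / D)) := by gcongr
        _ = _ := by ring
  constructor
  · intro D hD1 hD2 L hsym hL
    obtain ⟨a1, a2, a3, a4, a5⟩ := key D hD1 hD2
    obtain ⟨b1, b2⟩ := a5 c₁ hcc₁
    rw [hl] at a2 b1 b2
    refine h₁ n hnN₁ G D a1 a2 b1 b2 D le_rfl ?_ G (fun _ _ h => h) hD1 L hsym hL
    have : 0 ≤ c₁ * Real.sqrt (D * Real.log n) := by positivity
    linarith
  · intro D hD1 hD2 H hH k hk
    obtain ⟨a1, a2, a3, a4, a5⟩ := key D hD1 hD2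
    obtain ⟨b1, b2⟩ := a5 c₂ hcc₂
    -- the bound `b`
    obtain ⟨b, hb1, hb2, hb3⟩ : ∃ b : ℕ, 2 * (b : ℝ) + 2 ≤ 2 * ε * S ∧
        (b : ℝ) ≤ c₂ * Real.sqrt (D * l) ∧
        ∀ x, ((nb G x).filter (fun v => k₁ ≤ dg G v)).card ≤ b := by
      rcases le_or_gt μ ((n : ℝ) ^ ((7 : ℝ) / 10)) with hμs | hμb
      · refine ⟨44, ?_, ?_, fun x => by have := hadj hμs x; omega⟩
        · have : ε * l ≤ ε * S := by gcongr
          norm_num
          linarith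
        · have e1 : c * (S / 2) ≤ c₂ * Real.sqrt (D * l) := by gcongr
          have e2 : c * l ≤ c * S := by gcongr
          have e3 : ((44 : ℕ) : ℝ) = 44 := by norm_num
          rw [e3]
          linarith
      · have hS35 : (n : ℝ) ^ ((7 : ℝ) / 20) ≤ S := by
          rw [hS]
          apply Real.le_sqrt_of_sq_le
          rw [← Real.rpow_natCast, ← Real.rpow_mul hn0.le]
          norm_num
          calc (n : ℝ) ^ ((7 : ℝ) / 10) = (n : ℝ) ^ ((7 : ℝ) / 10) * 1 := (mul_one _).symm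
            _ ≤ μ * l := by
                apply mul_le_mul hμb.le (by linarith) zero_le_one hμ0.le
        have h3 : (n : ℝ) ^ ((1 : ℝ) / 20) * (n : ℝ) ^ ((3 : ℝ) / 10) = (n : ℝ) ^ ((7 : ℝ) / 20) :=
          rp_mul n hn0 _ _ _ (by norm_num)
        have hx1 : 1 ≤ (n : ℝ) ^ ((3 : ℝ) / 10) := Real.one_le_rpow hnr (by norm_num)
        obtain ⟨x, hx⟩ : ∃ x : ℝ, x = (n : ℝ) ^ ((3 : ℝ) / 10) := ⟨_, rfl⟩
        rw [← hx] at h3 hx1 hfew
        refine ⟨⌊x⌋₊, ?_, ?_, fun y => ?_⟩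
        · have e1 : ((⌊x⌋₊ : ℕ) : ℝ) ≤ x := Nat.floor_le (by linarith)
          have e2 : 2 / ε * x ≤ S := by
            calc 2 / ε * x ≤ (n : ℝ) ^ ((1 : ℝ) / 20) * x := by gcongr
              _ = (n : ℝ) ^ ((7 : ℝ) / 20) := h3
              _ ≤ S := hS35
          rw [div_mul_eq_mul_div, div_le_iff₀ hε0] at e2
          linarith
        · have e1 : ((⌊x⌋₊ : ℕ) : ℝ) ≤ x := Nat.floor_le (by linarith)
          have e2 : 2 / c * x ≤ S := by
            calc 2 / c * x ≤ (n : ℝ) ^ ((1 : ℝ) / 20) * x := by gcongr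
              _ = (n : ℝ) ^ ((7 : ℝ) / 20) := h3
              _ ≤ S := hS35
          rw [div_mul_eq_mul_div, div_le_iff₀ hc0] at e2
          have e3 : c * (S / 2) ≤ c₂ * Real.sqrt (D * l) := by gcongr
          linarith
        · rw [Nat.le_floor_iff (by linarith)]
          refine le_trans ?_ hfew.le
          have : ((nb G y).filter (fun v => k₁ ≤ dg G v)).card ≤
              (univ.filter (fun v => k₁ ≤ dg G v)).card :=
            card_le_card (filter_subset_filter _ (subset_univ _))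
          exact_mod_cast this
    rw [hl] at a2 b1 b2 hb2
    refine h₂ n hnN₂ G D b hD1 a1 a2 b1 b2 hb2 ?_ H hH k hk
    intro v
    refine le_trans ?_ (hb3 v)
    apply card_le_card
    intro w hw
    rw [mem_filter] at hw ⊢
    refine ⟨hw.1, ?_⟩
    have e1 : (D : ℝ) < dg G w + (2 * b + 2) := by exact_mod_cast hw.2
    have e2 : (k₁ : ℝ) ≤ dg G w := by linarith
    exact_mod_cast e2

set_option maxHeartbeats 4000000 in
/-- random subgraphs of dense graphs, with very small failure probability -/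
theorem good_random (η γ : ℝ) (hη0 : 0 < η) (hη1 : η ≤ 1) (hγ0 : 0 < γ) (hγ1 : γ ≤ 1) :
    ∃ N : ℕ, ∀ n : ℕ, N ≤ n → ∀ (B : SimpleGraph (Fin n)) (p : ℝ) (v₀ : Fin n),
      (∀ v, dg B v ≤ dg B v₀) → γ * n ≤ dg B v₀ → p ≤ 1 - η → Real.log n ^ 4 ≤ p * dg B v₀ →
      pb (qB B p) (fun G => ¬ (Gd G ∧ GdTot G)) ≤ 1 / (n : ℝ) ^ 6 := by
  classical
  obtain ⟨ε, hε⟩ : ∃ ε : ℝ, ε = η / 100000 := ⟨_, rfl⟩
  have hε0 : 0 < ε := by rw [hε]; positivity
  have hε1 : 8 * ε ≤ 1 := by rw [hε]; linarith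
  obtain ⟨c, hc0, N₁, h₁⟩ := det_good ε γ hε0 (by linarith) hγ0 hγ1
  obtain ⟨N₂, h₂⟩ := jmb_random γ c hγ0 hc0
  obtain ⟨N, hN⟩ := Filter.eventually_atTop.1
    ((ev_log (4 + 100 / η + 90 / ε)).and ((ev_log3 18 (1 / 50) (by norm_num) (by norm_num)).and
      ((ev_const (64 / (ε ^ 2 * γ) + 2) (3 / 100) (by norm_num)).and
      ((ev_const (100 + (46).factorial * 2 ^ 46) (1 / 50) (by norm_num)).and
      ((ev_const ((1 / γ) ^ 45) 1 (by norm_num)).and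
        (Filter.eventually_ge_atTop (max (max N₁ N₂) 8)))))))
  refine ⟨N, fun n hn B p v₀ hmax hγn hpη hμl => ?_⟩
  obtain ⟨v1, v2, v3, v4, v5, v6⟩ := hN n hn
  have hnN₁ : N₁ ≤ n := le_trans (le_max_left _ _) (le_trans (le_max_left _ _) v6)
  have hnN₂ : N₂ ≤ n := le_trans (le_max_right _ _) (le_trans (le_max_left _ _) v6)
  have hn8 : 8 ≤ n := le_trans (le_max_right _ _) v6
  have hn8r : (8 : ℝ) ≤ n := by exact_mod_cast hn8
  have hn1 : 1 ≤ n := by omega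
  have hn0 : (0 : ℝ) < n := by linarith
  have hnr : (1 : ℝ) ≤ n := by linarith
  obtain ⟨l, hl⟩ : ∃ l : ℝ, l = Real.log n := ⟨_, rfl⟩
  rw [← hl] at v1 v2 hμl
  have hηp : 0 < 100 / η := by positivity
  have hεp : 0 < 90 / ε := by positivity
  have hl4 : 4 ≤ l := by linarith
  have hl0 : 0 < l := by linarith
  have hl1 : 1 ≤ l := by linarith
  have hlε : 90 ≤ ε * l := by
    have : 90 / ε ≤ l := by linarith
    rw [div_le_iff₀ hε0] at this
    linarith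
  have hlη : 100 ≤ η * l := by
    have : 100 / η ≤ l := by linarith
    rw [div_le_iff₀ hη0] at this
    linarith
  obtain ⟨μ, hμ⟩ : ∃ μ : ℝ, μ = p * dg B v₀ := ⟨_, rfl⟩
  rw [← hμ] at hμl
  have hμ0 : 0 < μ := lt_of_lt_of_le (by positivity) hμl
  have hp0 : 0 < p := by
    by_contra hcon
    push Not at hcon
    have : p * dg B v₀ ≤ 0 := mul_nonpos_of_nonpos_of_nonneg hcon (Nat.cast_nonneg _)
    linarith
  have hp1 : p ≤ 1 := by linarith
  have hq := qB_01 B p hp0.le hp1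
  have hμv : ∀ v, p * (cS (sU v univ) B : ℝ) ≤ μ := by
    intro v
    rw [cS_univ, hμ]
    have : (dg B v : ℝ) ≤ dg B v₀ := by exact_mod_cast hmax v
    gcongr
  have hμ₀ : p * (cS (sU v₀ univ) B : ℝ) = μ := by rw [cS_univ, hμ]
  have hγμ : γ * p * n ≤ μ := by
    calc γ * p * n = p * (γ * n) := by ring
      _ ≤ p * dg B v₀ := by gcongr
      _ = μ := hμ.symm
  obtain ⟨S, hS⟩ : ∃ S : ℝ, S = Real.sqrt (μ * l) := ⟨_, rfl⟩
  have hS0 : 0 < S := by rw [hS]; positivity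
  have hSS : S ^ 2 = μ * l := by rw [hS]; exact Real.sq_sqrt (by positivity)
  have hl3 : (1 : ℝ) ≤ l ^ 3 := one_le_pow₀ hl1
  have hll4 : l ≤ l ^ 4 := by
    calc l = l * 1 := (mul_one l).symm
      _ ≤ l * l ^ 3 := by gcongr
      _ = l ^ 4 := by ring
  have hSl : l ≤ S := by
    rw [hS]
    apply Real.le_sqrt_of_sq_le
    calc l ^ 2 = l * l := by ring
      _ ≤ l ^ 4 * l := by gcongr
      _ ≤ μ * l := by gcongr
  have hSμ : l * S ≤ μ := by
    have e1 : (l * S) ^ 2 ≤ μ ^ 2 := by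
      rw [mul_pow, hSS]
      calc l ^ 2 * (μ * l) = l ^ 3 * μ := by ring
        _ ≤ l ^ 4 * μ := by
            gcongr
            linarith
        _ ≤ μ * μ := by gcongr
        _ = μ ^ 2 := by ring
    exact (sq_le_sq₀ (by positivity) hμ0.le).1 e1
  have hηS : 100 * S ≤ μ * η := by
    calc 100 * S ≤ (η * l) * S := by gcongr
      _ = (l * S) * η := by ring
      _ ≤ μ * η := by gcongr
  have hεS2 : 16 * S ≤ ε * μ := by
    calc 16 * S ≤ 90 * S := by linarith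
      _ ≤ (ε * l) * S := by gcongr
      _ = ε * (l * S) := by ring
      _ ≤ ε * μ := by gcongr
  have hεS : 90 ≤ ε * S := by
    calc (90 : ℝ) ≤ ε * l := hlε
      _ ≤ ε * S := by gcongr
  -- the parameters
  obtain ⟨u, hu⟩ : ∃ u : ℕ, u = ⌊(n : ℝ) ^ ((97 : ℝ) / 100)⌋₊ := ⟨_, rfl⟩
  have hx97 : (1 : ℝ) ≤ (n : ℝ) ^ ((97 : ℝ) / 100) := Real.one_le_rpow hnr (by norm_num)
  have hu1 : (u : ℝ) ≤ (n : ℝ) ^ ((97 : ℝ) / 100) := by
    rw [hu]
    exact Nat.floor_le (by linarith)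
  have hu2 : (n : ℝ) ^ ((97 : ℝ) / 100) / 2 ≤ u := by
    have e1 : (n : ℝ) ^ ((97 : ℝ) / 100) < u + 1 := by
      rw [hu]
      exact Nat.lt_floor_add_one _
    have e2 : (1 : ℝ) ≤ u := by
      rw [hu]
      exact_mod_cast Nat.le_floor (by exact_mod_cast hx97)
    linarith
  have hun : u ≤ n := by
    have : (u : ℝ) ≤ n := by
      refine hu1.trans ?_
      calc (n : ℝ) ^ ((97 : ℝ) / 100) ≤ (n : ℝ) ^ (1 : ℝ) :=
            Real.rpow_le_rpow_of_exponent_le hnr (by norm_num)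
        _ = n := Real.rpow_one _
    exact_mod_cast this
  have huμ : p * u ≤ ε ^ 2 * μ / 32 := by
    have e1 : (n : ℝ) ^ ((97 : ℝ) / 100) * (n : ℝ) ^ ((3 : ℝ) / 100) = n := by
      rw [rp_mul n hn0 _ _ 1 (by norm_num), Real.rpow_one]
    have e2 : 32 / (ε ^ 2 * γ) ≤ (n : ℝ) ^ ((3 : ℝ) / 100) := by
      refine le_trans ?_ v3
      have : 32 / (ε ^ 2 * γ) ≤ 64 / (ε ^ 2 * γ) := by
        gcongr
        norm_num
      linarith
    have e3 : 32 * (n : ℝ) ^ ((97 : ℝ) / 100) ≤ ε ^ 2 * γ * n := by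
      rw [div_le_iff₀ (by positivity)] at e2
      calc 32 * (n : ℝ) ^ ((97 : ℝ) / 100) ≤
          ((n : ℝ) ^ ((3 : ℝ) / 100) * (ε ^ 2 * γ)) * (n : ℝ) ^ ((97 : ℝ) / 100) := by gcongr
        _ = ε ^ 2 * γ * ((n : ℝ) ^ ((97 : ℝ) / 100) * (n : ℝ) ^ ((3 : ℝ) / 100)) := by ring
        _ = ε ^ 2 * γ * n := by rw [e1]
    calc p * u ≤ p * (n : ℝ) ^ ((97 : ℝ) / 100) := by gcongr
      _ = p * (32 * (n : ℝ) ^ ((97 : ℝ) / 100)) / 32 := by ring
      _ ≤ p * (ε ^ 2 * γ * n) / 32 := by gcongr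
      _ = ε ^ 2 * (γ * p * n) / 32 := by ring
      _ ≤ ε ^ 2 * μ / 32 := by gcongr
  obtain ⟨b, hb⟩ : ∃ b : ℝ, b = (n : ℝ) ^ ((1 : ℝ) / 20) := ⟨_, rfl⟩
  have hb1 : 1 ≤ b := by rw [hb]; exact Real.one_le_rpow hnr (by norm_num)
  have hbn : b ≤ n := by
    rw [hb]
    calc (n : ℝ) ^ ((1 : ℝ) / 20) ≤ (n : ℝ) ^ (1 : ℝ) :=
          Real.rpow_le_rpow_of_exponent_le hnr (by norm_num)
      _ = n := Real.rpow_one _
  have hub : 9 * l ≤ u / n * b := by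
    have e1 : 18 * l ≤ (n : ℝ) ^ ((1 : ℝ) / 50) := by
      refine le_trans ?_ v2
      have : l ≤ l ^ 3 := by
        calc l = l * 1 := (mul_one l).symm
          _ ≤ l * l ^ 2 := by
              gcongr
              exact one_le_pow₀ hl1
          _ = l ^ 3 := by ring
      linarith
    have e2 : (n : ℝ) ^ ((97 : ℝ) / 100) / 2 / n * b = (n : ℝ) ^ ((1 : ℝ) / 50) / 2 := by
      have e3 : (n : ℝ) ^ ((97 : ℝ) / 100) * (n : ℝ) ^ ((1 : ℝ) / 20) =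
          (n : ℝ) ^ ((1 : ℝ) / 50) * n := by
        have e4 : (n : ℝ) ^ ((1 : ℝ) / 50) * n = (n : ℝ) ^ ((1 : ℝ) / 50) * (n : ℝ) ^ (1 : ℝ) := by
          rw [Real.rpow_one]
        rw [e4, rp_mul n hn0 _ _ _ rfl, rp_mul n hn0 _ _ _ rfl]
        congr 1
        norm_num
      rw [hb, div_div, div_mul_eq_mul_div, e3]
      field_simp
    calc 9 * l = 18 * l / 2 := by ring
      _ ≤ (n : ℝ) ^ ((1 : ℝ) / 50) / 2 := by gcongr
      _ = (n : ℝ) ^ ((97 : ℝ) / 100) / 2 / n * b := e2.symm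
      _ ≤ u / n * b := by gcongr
  obtain ⟨b2, hb2⟩ : ∃ b2 : ℝ, b2 = Real.exp (3000 * ε / η * l) * b + 1 := ⟨_, rfl⟩
  have hb2n : b2 ≤ (n : ℝ) ^ ((1 : ℝ) / 10) := by
    have e1 : Real.exp (3000 * ε / η * l) = (n : ℝ) ^ ((3 : ℝ) / 100) := by
      rw [Real.rpow_def_of_pos hn0, ← hl, hε]
      congr 1
      field_simp
      norm_num
    have e2 : (2 : ℝ) ≤ (n : ℝ) ^ ((1 : ℝ) / 50) := by
      refine le_trans ?_ v4
      have : (0 : ℝ) ≤ (46).factorial * 2 ^ 46 := by positivity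
      linarith
    have e3 : (n : ℝ) ^ ((3 : ℝ) / 100) * (n : ℝ) ^ ((1 : ℝ) / 20) = (n : ℝ) ^ ((2 : ℝ) / 25) :=
      rp_mul n hn0 _ _ _ (by norm_num)
    have e4 : (1 : ℝ) ≤ (n : ℝ) ^ ((2 : ℝ) / 25) := Real.one_le_rpow hnr (by norm_num)
    rw [hb2, e1, hb, e3]
    calc (n : ℝ) ^ ((2 : ℝ) / 25) + 1 ≤ 2 * (n : ℝ) ^ ((2 : ℝ) / 25) := by linarith
      _ ≤ (n : ℝ) ^ ((1 : ℝ) / 50) * (n : ℝ) ^ ((2 : ℝ) / 25) := by gcongr
      _ = (n : ℝ) ^ ((1 : ℝ) / 10) := rp_mul n hn0 _ _ _ (by norm_num)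
  obtain ⟨k₁, hk₁, hk₂⟩ := threshold B p η μ S hp0 hη0 hpη hμ0 hμv hS0 (by rw [← hl]; exact hSS)
    ε hε0 hε1 46 (by norm_num; linarith) v₀ hμ₀ b b2 hb1 hbn (by rw [← hl]; exact hb2) hηS hεS2
    (by rw [← hl]; exact hl1) u hun huμ (by rw [← hl]; exact hub)
  -- the events
  have hE2 : pb (qB B p) (fun G => ∃ v ∈ (univ : Finset (Fin n)), 2 * μ < dg G v) ≤
      1 / (n : ℝ) ^ 8 := by
    refine (pb_exists_le (qB B p) hq univ (fun v G => 2 * μ < dg G v)).trans ?_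
    have e1 : ∀ v ∈ (univ : Finset (Fin n)), pb (qB B p) (fun G => 2 * μ < dg G v) ≤
        1 / (n : ℝ) ^ 9 := by
      intro v _
      have e2 := TS_far6 B p η μ S hp0 hη0 hpη hμ0 hμv hS0 (by rw [← hl]; exact hSS) v
        ⌈μ + 6 * S⌉₊ (by
          have := Nat.le_ceil (μ + 6 * S)
          have := hμv v
          linarith) (by nlinarith)
      have e3 : Real.exp (-(9 * Real.log n)) = 1 / (n : ℝ) ^ 9 := by
        have := exp_npow (n := n) hn1 9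
        push_cast at this
        exact this
      rw [e3] at e2
      refine le_trans ?_ e2
      apply pb_mono _ hq
      intro G hG
      rw [cS_univ]
      apply Nat.ceil_le.2
      have : 6 * S ≤ μ := by nlinarith
      linarith
    refine (sum_le_sum e1).trans ?_
    rw [sum_const, card_univ, Fintype.card_fin, nsmul_eq_mul]
    apply le_of_eq
    field_simp
  have hE3 := h₂ n hnN₂ B p μ hp0 hp1 hμ0 hγμ
  have hFF : FF (qB B p) (k₁ - 46) ≤ (n : ℝ) ^ ((1 : ℝ) / 10) := hk₁.trans hb2n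
  have hFF0 : 0 ≤ FF (qB B p) (k₁ - 46) := sum_nonneg fun v _ => TS_nonneg _ hq _ _
  have hE4 : pb (qB B p) (fun G => (n : ℝ) ^ ((3 : ℝ) / 10) ≤
      ((univ.filter (fun v => k₁ ≤ dg G v)).card : ℝ)) ≤ 1 / (n : ℝ) ^ 7 := by
    have e0 : (100 : ℝ) ≤ (n : ℝ) ^ ((3 : ℝ) / 10) := by
      have e1 : (n : ℝ) ^ ((1 : ℝ) / 50) ≤ (n : ℝ) ^ ((3 : ℝ) / 10) :=
        Real.rpow_le_rpow_of_exponent_le hnr (by norm_num)
      have : (0 : ℝ) ≤ (46).factorial * 2 ^ 46 := by positivity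
      linarith
    have e1 := count_moment (qB B p) hq 46 k₁ ((n : ℝ) ^ ((3 : ℝ) / 10)) (by norm_num; linarith)
      (by positivity)
    refine e1.trans ?_
    have e2 : 2 * FF (qB B p) (k₁ - 46) / (n : ℝ) ^ ((3 : ℝ) / 10) ≤
        2 * (n : ℝ) ^ (-(1 : ℝ) / 5) := by
      rw [div_le_iff₀ (by positivity)]
      have e3 : (n : ℝ) ^ (-(1 : ℝ) / 5) * (n : ℝ) ^ ((3 : ℝ) / 10) = (n : ℝ) ^ ((1 : ℝ) / 10) :=
        rp_mul n hn0 _ _ _ (by norm_num)
      calc 2 * FF (qB B p) (k₁ - 46) ≤ 2 * (n : ℝ) ^ ((1 : ℝ) / 10) := by gcongr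
        _ = 2 * (n : ℝ) ^ (-(1 : ℝ) / 5) * (n : ℝ) ^ ((3 : ℝ) / 10) := by rw [mul_assoc, e3]
    have e4 : ((n : ℝ) ^ (-(1 : ℝ) / 5)) ^ 46 = (n : ℝ) ^ (-(46 : ℝ) / 5) := by
      rw [← Real.rpow_natCast, ← Real.rpow_mul hn0.le]
      congr 1
      norm_num
    have e5 : ((46).factorial : ℝ) * 2 ^ 46 ≤ (n : ℝ) ^ ((1 : ℝ) / 50) := by linarith
    calc ((46).factorial : ℝ) * (2 * FF (qB B p) (k₁ - 46) / (n : ℝ) ^ ((3 : ℝ) / 10)) ^ 46 ≤
        ((46).factorial : ℝ) * (2 * (n : ℝ) ^ (-(1 : ℝ) / 5)) ^ 46 := by gcongr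
      _ = (((46).factorial : ℝ) * 2 ^ 46) * (n : ℝ) ^ (-(46 : ℝ) / 5) := by
          rw [mul_pow, e4]
          ring
      _ ≤ (n : ℝ) ^ ((1 : ℝ) / 50) * (n : ℝ) ^ (-(46 : ℝ) / 5) := by gcongr
      _ = (n : ℝ) ^ ((1 : ℝ) / 50 + -(46 : ℝ) / 5) := rp_mul n hn0 _ _ _ rfl
      _ ≤ (n : ℝ) ^ (-(7 : ℝ)) := by
          apply Real.rpow_le_rpow_of_exponent_le hnr
          norm_num
      _ = 1 / (n : ℝ) ^ 7 := by
          rw [Real.rpow_neg hn0.le, one_div]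
          congr 1
          exact_mod_cast Real.rpow_natCast (n : ℝ) 7
  have hE5 : μ ≤ (n : ℝ) ^ ((7 : ℝ) / 10) → pb (qB B p) (fun G => ∃ x ∈ (univ : Finset (Fin n)),
      45 ≤ ((nb G x).filter (fun v => k₁ ≤ dg G v)).card) ≤ 1 / (n : ℝ) ^ 7 := by
    intro hμs
    refine (adj_moment (qB B p) hq p (qB_le B p hp0.le) 45 k₁).trans ?_
    have e1 : p ≤ 1 / γ * (n : ℝ) ^ (-(3 : ℝ) / 10) := by
      have e2 : γ * p * n ≤ (n : ℝ) ^ ((7 : ℝ) / 10) := hγμ.trans hμs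
      have e3 : (n : ℝ) ^ (-(3 : ℝ) / 10) * n = (n : ℝ) ^ ((7 : ℝ) / 10) := by
        nth_rewrite 2 [← Real.rpow_one (n : ℝ)]
        exact rp_mul n hn0 _ _ _ (by norm_num)
      rw [div_mul_eq_mul_div, one_mul, le_div_iff₀ hγ0]
      have e4 : (p * γ) * n ≤ (n : ℝ) ^ (-(3 : ℝ) / 10) * n := by
        rw [e3]
        linarith
      exact le_of_mul_le_mul_right e4 hn0
    have e2 : p * FF (qB B p) (k₁ - (45 + 1)) ≤ 1 / γ * (n : ℝ) ^ (-(1 : ℝ) / 5) := by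
      calc p * FF (qB B p) (k₁ - (45 + 1)) ≤
          (1 / γ * (n : ℝ) ^ (-(3 : ℝ) / 10)) * (n : ℝ) ^ ((1 : ℝ) / 10) := by
            apply mul_le_mul e1 hFF hFF0 (by positivity)
        _ = 1 / γ * ((n : ℝ) ^ (-(3 : ℝ) / 10) * (n : ℝ) ^ ((1 : ℝ) / 10)) := by ring
        _ = _ := by rw [rp_mul n hn0 _ _ (-(1 : ℝ) / 5) (by norm_num)]
    have e4 : ((n : ℝ) ^ (-(1 : ℝ) / 5)) ^ 45 = 1 / (n : ℝ) ^ 9 := by
      rw [← Real.rpow_natCast, ← Real.rpow_mul hn0.le]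
      have : -(1 : ℝ) / 5 * ((45 : ℕ) : ℝ) = -9 := by norm_num
      rw [this, Real.rpow_neg hn0.le, one_div]
      congr 1
      exact_mod_cast Real.rpow_natCast (n : ℝ) 9
    rw [Real.rpow_one] at v5
    calc (n : ℝ) * (p * FF (qB B p) (k₁ - (45 + 1))) ^ 45 ≤
        n * (1 / γ * (n : ℝ) ^ (-(1 : ℝ) / 5)) ^ 45 := by gcongr
      _ = n * ((1 / γ) ^ 45 * (1 / (n : ℝ) ^ 9)) := by rw [mul_pow, e4]
      _ ≤ n * (n * (1 / (n : ℝ) ^ 9)) := by gcongr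
      _ = 1 / (n : ℝ) ^ 7 := by field_simp
  have hE6 : pb (qB B p) (fun G => (dg G v₀ : ℝ) < μ / 2) ≤ 1 / (n : ℝ) ^ 9 := by
    have e1 := cS_lower (qB B p) hq (sU v₀ univ) μ (6 * S) hμ0 (by rw [qs_qB, hμ₀])
      (by linarith) (by nlinarith)
    have e2 : Real.exp (-((6 * S) ^ 2) / (4 * μ)) = 1 / (n : ℝ) ^ 9 := by
      have e3 : -((6 * S) ^ 2) / (4 * μ) = -((9 : ℕ) * Real.log n) := by
        have e4 : -((6 * S) ^ 2) = -(36 * (S ^ 2)) := by ring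
        rw [e4, hSS, hl]
        push_cast
        field_simp
        ring
      rw [e3, exp_npow hn1]
    rw [e2] at e1
    refine le_trans ?_ e1
    apply pb_mono _ hq
    intro G hG
    rw [qs_qB, hμ₀, cS_univ]
    have : 12 * S ≤ μ := by nlinarith
    linarith
  -- everything together
  have hall : pb (qB B p) (fun G => ¬ (Gd G ∧ GdTot G)) ≤
      pb (qB B p) (fun G => ((∀ v, (dg G v : ℝ) < k₁ + 2 * ε * S) ∨
        (∃ v ∈ (univ : Finset (Fin n)), 2 * μ < dg G v)) ∨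
        (((∀ v, (dg G v : ℝ) ≤ 2 * μ) ∧ ∃ X Y : Finset (Fin n),
          4 * p * (X.card * Y.card) + c * Real.sqrt (μ * Real.log n) *
            Real.sqrt (X.card * Y.card) < eXY G X Y) ∨
        ((n : ℝ) ^ ((3 : ℝ) / 10) ≤ ((univ.filter (fun v => k₁ ≤ dg G v)).card : ℝ))) ∨
        ((μ ≤ (n : ℝ) ^ ((7 : ℝ) / 10) ∧ ∃ x ∈ (univ : Finset (Fin n)),
          45 ≤ ((nb G x).filter (fun v => k₁ ≤ dg G v)).card) ∨
        (dg G v₀ : ℝ) < μ / 2)) := by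
    apply pb_mono _ hq
    intro G hG
    by_contra hcon
    push Not at hcon
    obtain ⟨⟨g1, g2⟩, ⟨g3, g4⟩, g5, g6⟩ := hcon
    apply hG
    have hup : ∀ v, (dg G v : ℝ) ≤ 2 * μ := fun v => g2 v (mem_univ v)
    refine h₁ n hnN₁ G p μ k₁ hp0 hμ0 (by rw [← hl]; exact hμl) hγμ ?_ hup ⟨v₀, g6⟩
      (g3 hup) g4 (fun hμs x => g5 hμs x (mem_univ x))
    rw [← hl, ← hS]
    exact g1
  have hE5' : pb (qB B p) (fun G => μ ≤ (n : ℝ) ^ ((7 : ℝ) / 10) ∧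
      ∃ x ∈ (univ : Finset (Fin n)), 45 ≤ ((nb G x).filter (fun v => k₁ ≤ dg G v)).card) ≤
      1 / (n : ℝ) ^ 7 := by
    by_cases hμs : μ ≤ (n : ℝ) ^ ((7 : ℝ) / 10)
    · refine le_trans (pb_mono _ hq fun G hG => hG.2) (hE5 hμs)
    · have : pb (qB B p) (fun G => μ ≤ (n : ℝ) ^ ((7 : ℝ) / 10) ∧
        ∃ x ∈ (univ : Finset (Fin n)), 45 ≤ ((nb G x).filter (fun v => k₁ ≤ dg G v)).card) ≤
          pb (qB B p) (fun _ => False) := pb_mono _ hq fun G hG => hμs hG.1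
      rw [pb_false] at this
      exact this.trans (by positivity)
  have s1 := pb_or_le (qB B p) hq (fun G => (∀ v, (dg G v : ℝ) < k₁ + 2 * ε * S))
    (fun G => (∃ v ∈ (univ : Finset (Fin n)), 2 * μ < dg G v))
  have s2 := pb_or_le (qB B p) hq (fun G => (∀ v, (dg G v : ℝ) ≤ 2 * μ) ∧
        ∃ X Y : Finset (Fin n), 4 * p * (X.card * Y.card) + c * Real.sqrt (μ * Real.log n) *
            Real.sqrt (X.card * Y.card) < eXY G X Y)
    (fun G => (n : ℝ) ^ ((3 : ℝ) / 10) ≤ ((univ.filter (fun v => k₁ ≤ dg G v)).card : ℝ))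
  have s3 := pb_or_le (qB B p) hq (fun G => μ ≤ (n : ℝ) ^ ((7 : ℝ) / 10) ∧
        ∃ x ∈ (univ : Finset (Fin n)), 45 ≤ ((nb G x).filter (fun v => k₁ ≤ dg G v)).card)
    (fun G => (dg G v₀ : ℝ) < μ / 2)
  have s4 := pb_or_le (qB B p) hq (fun G => ((∀ v, (dg G v : ℝ) ≤ 2 * μ) ∧
        ∃ X Y : Finset (Fin n), 4 * p * (X.card * Y.card) + c * Real.sqrt (μ * Real.log n) *
            Real.sqrt (X.card * Y.card) < eXY G X Y) ∨
      ((n : ℝ) ^ ((3 : ℝ) / 10) ≤ ((univ.filter (fun v => k₁ ≤ dg G v)).card : ℝ)))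
    (fun G => (μ ≤ (n : ℝ) ^ ((7 : ℝ) / 10) ∧
        ∃ x ∈ (univ : Finset (Fin n)), 45 ≤ ((nb G x).filter (fun v => k₁ ≤ dg G v)).card) ∨
        (dg G v₀ : ℝ) < μ / 2)
  have s5 := pb_or_le (qB B p) hq (fun G => (∀ v, (dg G v : ℝ) < k₁ + 2 * ε * S) ∨
        (∃ v ∈ (univ : Finset (Fin n)), 2 * μ < dg G v))
    (fun G => (((∀ v, (dg G v : ℝ) ≤ 2 * μ) ∧ ∃ X Y : Finset (Fin n),
          4 * p * (X.card * Y.card) + c * Real.sqrt (μ * Real.log n) *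
            Real.sqrt (X.card * Y.card) < eXY G X Y) ∨
        ((n : ℝ) ^ ((3 : ℝ) / 10) ≤ ((univ.filter (fun v => k₁ ≤ dg G v)).card : ℝ))) ∨
        ((μ ≤ (n : ℝ) ^ ((7 : ℝ) / 10) ∧ ∃ x ∈ (univ : Finset (Fin n)),
          45 ≤ ((nb G x).filter (fun v => k₁ ≤ dg G v)).card) ∨
        (dg G v₀ : ℝ) < μ / 2))
  have t0 : 0 < 1 / (n : ℝ) ^ 7 := by positivity
  have t1 : 1 / (n : ℝ) ^ 8 ≤ 1 / (n : ℝ) ^ 7 := by
    apply div_le_div_of_nonneg_left zero_le_one (by positivity)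
    exact pow_le_pow_right₀ hnr (by norm_num)
  have t2 : 1 / (n : ℝ) ^ 9 ≤ 1 / (n : ℝ) ^ 7 := by
    apply div_le_div_of_nonneg_left zero_le_one (by positivity)
    exact pow_le_pow_right₀ hnr (by norm_num)
  have t3 : 3 / (n : ℝ) ^ 7 = 3 * (1 / (n : ℝ) ^ 7) := by ring
  have t4 : 8 * (1 / (n : ℝ) ^ 7) ≤ 1 / (n : ℝ) ^ 6 := by
    calc 8 * (1 / (n : ℝ) ^ 7) ≤ n * (1 / (n : ℝ) ^ 7) := by gcongr
      _ = 1 / (n : ℝ) ^ 6 := by field_simp
  linarith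

end Pool.Agent.W2helper87.RP
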