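import Pool.Agent.W2helper87.TC.Jum
import Pool.Agent.W2helper87.RP.Mom

/-!
# Random subgraphs are pseudo-random with very small failure probability
-/

set_option autoImplicit false

namespace Pool.Agent.W2helper87.RP

open Finset Pool.Agent.H162R2.Sparse Pool.Agent.H162R2.AG Pool.Agent.W2helper87.SR
open Pool.Agent.W2helper87.FR Pool.Agent.W2helper87.LD Pool.Agent.W2helper87.TC

open Classical in
/-- the pairs between two sets -/
noncomputable def EE2 {n : ℕ} (X Y : Finset (Fin n)) : Finset (Pr n) :=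
  univ.filter (fun e => ∃ x ∈ X, ∃ y ∈ Y, e.1 = s(x, y))

theorem card_EE2 {n : ℕ} (X Y : Finset (Fin n)) : (EE2 X Y).card ≤ X.card * Y.card := by
  classical
  rw [← card_product]
  have h1 : (EE2 X Y).card = ((EE2 X Y).image (fun e => e.1)).card :=
    (card_image_of_injective _ Subtype.val_injective).symm
  rw [h1]
  have h2 : (EE2 X Y).image (fun e => e.1) ⊆ (X ×ˢ Y).image (fun z => s(z.1, z.2)) := by
    intro e he
    rw [mem_image] at he
    obtain ⟨e', he', rfl⟩ := he
    unfold EE2 at he'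
    rw [mem_filter] at he'
    obtain ⟨_, x, hx, y, hy, h⟩ := he'
    rw [mem_image]
    exact ⟨(x, y), mem_product.2 ⟨hx, hy⟩, h.symm⟩
  exact (card_le_card h2).trans card_image_le

theorem eXY_symm {n : ℕ} (G : SimpleGraph (Fin n)) (X Y : Finset (Fin n)) :
    eXY G X Y = eXY G Y X := by
  classical
  unfold eXY
  have h1 := sum_card_bipartiteAbove_eq_sum_card_bipartiteBelow (s := X) (t := Y)
    (fun a b => G.Adj a b)
  have h2 : ∀ v, ((nb G v).filter (fun w => w ∈ Y)).card =
      (bipartiteAbove (fun a b => G.Adj a b) Y v).card := by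
    intro v
    congr 1
    ext w
    rw [mem_filter, mem_nb, mem_bipartiteAbove]
    tauto
  have h3 : ∀ w, ((nb G w).filter (fun v => v ∈ X)).card =
      (bipartiteBelow (fun a b => G.Adj a b) X w).card := by
    intro w
    congr 1
    ext v
    rw [mem_filter, mem_nb, mem_bipartiteBelow]
    constructor
    · rintro ⟨h, h'⟩
      exact ⟨h', h.symm⟩
    · rintro ⟨h, h'⟩
      exact ⟨h'.symm, h⟩
  simp_rw [h2, h3]
  exact_mod_cast h1

theorem eXY_le {n : ℕ} (G : SimpleGraph (Fin n)) (X Y : Finset (Fin n)) (μ : ℝ)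
    (h : ∀ v, (dg G v : ℝ) ≤ 2 * μ) : eXY G X Y ≤ 2 * μ * X.card := by
  classical
  unfold eXY
  have h1 : ∀ v ∈ X, (((nb G v).filter (fun w => w ∈ Y)).card : ℝ) ≤ 2 * μ := by
    intro v _
    refine le_trans ?_ (h v)
    unfold dg
    exact_mod_cast card_filter_le _ _
  refine (sum_le_sum h1).trans ?_
  rw [sum_const, nsmul_eq_mul, mul_comm]

theorem eXY_cS {n : ℕ} (G : SimpleGraph (Fin n)) (X Y : Finset (Fin n)) :
    eXY G X Y ≤ 2 * (cS (EE2 X Y) G : ℝ) := by
  classical
  let A : Finset (Fin n × Fin n) := (X ×ˢ Y).filter (fun z => G.Adj z.1 z.2)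
  have h1 : eXY G X Y = (A.card : ℝ) := by
    unfold eXY
    have : A.card = ∑ v ∈ X, ((nb G v).filter (fun w => w ∈ Y)).card := by
      rw [Finset.card_eq_sum_card_fiberwise (f := Prod.fst) (t := X)]
      · apply Finset.sum_congr rfl
        intro u hu
        apply Finset.card_bij (fun e _ => e.2)
        · intro e he
          rw [Finset.mem_filter] at he
          obtain ⟨he, hu'⟩ := he
          rw [mem_filter, mem_product] at he
          rw [mem_filter, mem_nb, ← hu']
          exact ⟨he.2, he.1.2⟩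
        · intro e he f hf h
          rw [Finset.mem_filter] at he hf
          exact Prod.ext (he.2.trans hf.2.symm) h
        · intro w hw
          rw [mem_filter, mem_nb] at hw
          refine ⟨(u, w), ?_, rfl⟩
          rw [Finset.mem_filter, mem_filter, mem_product]
          exact ⟨⟨⟨hu, hw.2⟩, hw.1⟩, rfl⟩
      · intro e he
        rw [mem_coe, mem_filter, mem_product] at he
        exact he.1.1
    rw [this]
    push_cast
    rfl
  rw [h1]
  have h2 : A.card ≤ 2 * (A.image (fun z => s(z.1, z.2))).card := by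
    apply card_le_mul_card_image
    intro e _
    have h3 : (A.filter (fun z => s(z.1, z.2) = e)) ⊆
        univ.filter (fun z : Fin n × Fin n => s(z.1, z.2) = e) :=
      filter_subset_filter _ (subset_univ _)
    refine (card_le_card h3).trans ?_
    induction e using Sym2.ind with
    | _ a b =>
      have h4 : univ.filter (fun z : Fin n × Fin n => s(z.1, z.2) = s(a, b)) ⊆
          {(a, b), (b, a)} := by
        intro z hz
        rw [mem_filter] at hz
        rw [mem_insert, mem_singleton]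
        rcases Sym2.eq_iff.1 hz.2 with h | h
        · left
          exact Prod.ext h.1 h.2
        · right
          exact Prod.ext h.1 h.2
      exact (card_le_card h4).trans card_le_two
  have h3 : (A.image (fun z => s(z.1, z.2))).card ≤ cS (EE2 X Y) G := by
    unfold cS
    have h4 : A.image (fun z => s(z.1, z.2)) ⊆
        ((EE2 X Y).filter (fun e => e.1 ∈ G.edgeSet)).image (fun e => e.1) := by
      intro e he
      rw [mem_image] at he
      obtain ⟨z, hz, rfl⟩ := he
      simp only [A, mem_filter, mem_product] at hz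
      rw [mem_image]
      refine ⟨⟨s(z.1, z.2), by simpa using hz.2.ne⟩, ?_, rfl⟩
      rw [mem_filter]
      refine ⟨?_, hz.2⟩
      unfold EE2
      rw [mem_filter]
      exact ⟨mem_univ _, z.1, hz.1.1, z.2, hz.1.2, rfl⟩
    exact (card_le_card h4).trans card_image_le
  have h4 : (A.card : ℝ) ≤ 2 * ((A.image (fun z => s(z.1, z.2))).card : ℝ) := by
    exact_mod_cast h2
  have h5 : ((A.image (fun z => s(z.1, z.2))).card : ℝ) ≤ cS (EE2 X Y) G := by exact_mod_cast h3
  linarith

/-- Chernoff -/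
theorem cS_chern {n : ℕ} (q : Sym2 (Fin n) → ℝ) (hq : ∀ e, 0 ≤ q e ∧ q e ≤ 1) (S : Finset (Pr n))
    (t lam : ℝ) (hlam : 0 ≤ lam) :
    pb q (fun G => t ≤ cS S G) ≤ Real.exp (qs q S * (Real.exp lam - 1) - lam * t) := by
  have h1 : pb q (fun G => t ≤ cS S G) ≤
      pb q (fun G => Real.exp (lam * t) ≤ Real.exp (lam * cS S G)) := by
    apply pb_mono q hq
    intro G hG
    apply Real.exp_le_exp.2
    gcongr
  have h2 := markov q hq (fun G => Real.exp (lam * cS S G)) (fun G => (Real.exp_pos _).le)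
    (Real.exp (lam * t)) (Real.exp_pos _)
  have h3 := mgf_cS_le q hq S lam
  calc pb q (fun G => t ≤ cS S G) ≤ ex q (fun G => Real.exp (lam * cS S G)) / Real.exp (lam * t) :=
        h1.trans h2
    _ ≤ Real.exp (qs q S * (Real.exp lam - 1)) / Real.exp (lam * t) := by gcongr
    _ = Real.exp (qs q S * (Real.exp lam - 1) - lam * t) := by rw [Real.exp_sub]

/-- the exponent in the bound of binomial coefficients -/
noncomputable def fx (n x : ℝ) : ℝ := x * (1 + Real.log (n / x))

theorem fx_mono (n x y : ℝ) (hn : 0 < n) (hx : 0 < x) (hxy : x ≤ y) (hy : y ≤ n) :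
    fx n x ≤ fx n y := by
  unfold fx
  have hy0 : 0 < y := by linarith
  have h1 : Real.log (n / x) = Real.log (n / y) + Real.log (y / x) := by
    rw [← Real.log_mul (by positivity) (by positivity)]
    congr 1
    field_simp
  have h2 : Real.log (y / x) ≤ y / x - 1 := Real.log_le_sub_one_of_pos (by positivity)
  have h3 : 0 ≤ Real.log (n / y) := by
    apply Real.log_nonneg
    rw [le_div_iff₀ hy0]
    linarith
  rw [h1]
  calc x * (1 + (Real.log (n / y) + Real.log (y / x))) ≤
      x * (1 + (Real.log (n / y) + (y / x - 1))) := by gcongr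
    _ = x * Real.log (n / y) + y := by
        field_simp
        ring
    _ ≤ y * Real.log (n / y) + y := by gcongr
    _ = _ := by ring

theorem choose_fx (n a : ℕ) (ha : 1 ≤ a) (han : a ≤ n) :
    (n.choose a : ℝ) ≤ Real.exp (fx n a) := by
  have ha0 : (0 : ℝ) < a := by exact_mod_cast ha
  have hn0 : (0 : ℝ) < n := by exact_mod_cast (by omega : 0 < n)
  have h1 : (n.choose a : ℝ) ≤ (n : ℝ) ^ a / a.factorial := Nat.choose_le_pow_div a n
  have h2 := Real.pow_div_factorial_le_exp (a : ℝ) ha0.le a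
  have h3 : Real.exp (fx n a) = Real.exp a * ((n : ℝ) / a) ^ a := by
    unfold fx
    rw [mul_add, mul_one, Real.exp_add, mul_comm (a : ℝ) (Real.log _), Real.exp_mul,
      Real.exp_log (by positivity), Real.rpow_natCast]
  rw [h3]
  refine h1.trans ?_
  calc (n : ℝ) ^ a / a.factorial = (a : ℝ) ^ a / a.factorial * ((n : ℝ) / a) ^ a := by
        rw [div_pow]
        field_simp
    _ ≤ Real.exp a * ((n : ℝ) / a) ^ a := by gcongr

theorem sum_fx (n : ℕ) (hn : 1 ≤ n) :
    ∑ X ∈ (univ : Finset (Finset (Fin n))).filter (fun X => X.Nonempty),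
      Real.exp (-(13 / 2 * fx n X.card)) ≤ Real.exp (-(9 / 2 * Real.log n)) := by
  classical
  have hn0 : (0 : ℝ) < n := by exact_mod_cast hn
  have h1 : ∑ X ∈ (univ : Finset (Finset (Fin n))).filter (fun X => X.Nonempty),
      Real.exp (-(13 / 2 * fx n X.card)) =
      ∑ a ∈ Icc 1 n, ∑ X ∈ ((univ : Finset (Finset (Fin n))).filter (fun X => X.Nonempty)).filter
        (fun X => X.card = a), Real.exp (-(13 / 2 * fx n X.card)) := by
    rw [sum_fiberwise_of_maps_to]
    intro X hX
    rw [mem_filter] at hX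
    rw [mem_Icc]
    refine ⟨hX.2.card_pos, ?_⟩
    have := card_le_univ X
    rwa [Fintype.card_fin] at this
  rw [h1]
  have h2 : ∀ a ∈ Icc 1 n, ∑ X ∈ ((univ : Finset (Finset (Fin n))).filter
      (fun X => X.Nonempty)).filter (fun X => X.card = a), Real.exp (-(13 / 2 * fx n X.card)) ≤
      Real.exp (-(11 / 2 * Real.log n)) := by
    intro a ha
    rw [mem_Icc] at ha
    have e1 : ∀ X ∈ ((univ : Finset (Finset (Fin n))).filter
        (fun X => X.Nonempty)).filter (fun X => X.card = a),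
        Real.exp (-(13 / 2 * fx n X.card)) = Real.exp (-(13 / 2 * fx n a)) := by
      intro X hX
      rw [(mem_filter.1 hX).2]
    rw [sum_congr rfl e1, sum_const, nsmul_eq_mul]
    have e2 : (((univ : Finset (Finset (Fin n))).filter
        (fun X => X.Nonempty)).filter (fun X => X.card = a)).card ≤ n.choose a := by
      have : ((univ : Finset (Finset (Fin n))).filter
        (fun X => X.Nonempty)).filter (fun X => X.card = a) ⊆ (univ : Finset (Fin n)).powersetCard a := by
        intro X hX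
        rw [mem_powersetCard]
        exact ⟨subset_univ _, (mem_filter.1 hX).2⟩
      refine (card_le_card this).trans ?_
      rw [card_powersetCard, card_univ, Fintype.card_fin]
    have e3 : ((((univ : Finset (Finset (Fin n))).filter
        (fun X => X.Nonempty)).filter (fun X => X.card = a)).card : ℝ) ≤ Real.exp (fx n a) :=
      le_trans (by exact_mod_cast e2) (choose_fx n a ha.1 ha.2)
    have har : (1 : ℝ) ≤ a := by exact_mod_cast ha.1
    have har2 : (a : ℝ) ≤ n := by exact_mod_cast ha.2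
    have e4 : Real.log n ≤ fx n a := by
      have h3 := fx_mono n 1 a hn0 one_pos har har2
      refine le_trans ?_ h3
      unfold fx
      rw [div_one]
      linarith
    calc _ ≤ Real.exp (fx n a) * Real.exp (-(13 / 2 * fx n a)) := by gcongr
      _ = Real.exp (-(11 / 2 * fx n a)) := by
          rw [← Real.exp_add]
          congr 1
          ring
      _ ≤ Real.exp (-(11 / 2 * Real.log n)) := by
          apply Real.exp_le_exp.2
          linarith
  refine (sum_le_sum h2).trans ?_
  rw [sum_const, Nat.card_Icc, nsmul_eq_mul]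
  have h3 : ((n + 1 - 1 : ℕ) : ℝ) = Real.exp (Real.log n) := by
    rw [Real.exp_log hn0]
    norm_num
  rw [h3, ← Real.exp_add]
  apply le_of_eq
  congr 1
  ring

set_option maxHeartbeats 1000000 in
/-- one pair of sets -/
theorem one_pair {n : ℕ} (B : SimpleGraph (Fin n)) (p μ γ c l lam0 : ℝ) (hp0 : 0 < p)
    (hp1 : p ≤ 1) (hγ0 : 0 < γ) (hμ0 : 0 < μ) (hμ : γ * p * n ≤ μ) (hc0 : 0 < c)
    (hl : l = Real.log n) (hl1 : 1 ≤ l) (hlam : lam0 = 208 / c ^ 2)
    (hbig : 52 ≤ (lam0 * Real.exp (-lam0) / 4) ^ 2 * c ^ 2 * γ * l)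
    (X Y : Finset (Fin n)) (hX : X.Nonempty) (hY : Y.Nonempty) (hn : 1 ≤ n) :
    pb (qB B p) (fun G => (∀ v, (dg G v : ℝ) ≤ 2 * μ) ∧
      4 * p * (X.card * Y.card) + c * Real.sqrt (μ * l) * Real.sqrt (X.card * Y.card) <
        eXY G X Y) ≤
      Real.exp (-(13 / 2 * fx n X.card)) * Real.exp (-(13 / 2 * fx n Y.card)) := by
  have hq := qB_01 B p hp0.le hp1
  have hn0 : (0 : ℝ) < n := by exact_mod_cast hn
  have ha1 : (1 : ℝ) ≤ X.card := by exact_mod_cast hX.card_pos
  have hb1 : (1 : ℝ) ≤ Y.card := by exact_mod_cast hY.card_pos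
  have han : (X.card : ℝ) ≤ n := by
    have := card_le_univ X
    rw [Fintype.card_fin] at this
    exact_mod_cast this
  have hbn : (Y.card : ℝ) ≤ n := by
    have := card_le_univ Y
    rw [Fintype.card_fin] at this
    exact_mod_cast this
  obtain ⟨a, ha⟩ : ∃ a : ℝ, a = X.card := ⟨_, rfl⟩
  obtain ⟨b, hb⟩ : ∃ b : ℝ, b = Y.card := ⟨_, rfl⟩
  rw [← ha] at ha1 han
  rw [← hb] at hb1 hbn
  rw [← ha, ← hb]
  obtain ⟨M, hM⟩ : ∃ M : ℝ, M = max a b := ⟨_, rfl⟩
  obtain ⟨m, hm⟩ : ∃ m : ℝ, m = min a b := ⟨_, rfl⟩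
  have hmM : m * M = a * b := by rw [hm, hM, min_mul_max]
  have hm1 : 1 ≤ m := by rw [hm]; exact le_min ha1 hb1
  have hM1 : 1 ≤ M := by rw [hM]; exact le_trans ha1 (le_max_left _ _)
  have hMn : M ≤ n := by rw [hM]; exact max_le han hbn
  have haM : a ≤ M := by rw [hM]; exact le_max_left _ _
  have hbM : b ≤ M := by rw [hM]; exact le_max_right _ _
  have hm0 : 0 < m := by linarith
  have hM0 : 0 < M := by linarith
  have ha0 : 0 < a := by linarith
  have hb0 : 0 < b := by linarith
  obtain ⟨T, hT⟩ : ∃ T : ℝ, T = c * Real.sqrt (μ * l) * Real.sqrt (a * b) := ⟨_, rfl⟩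
  rw [← hT]
  have hl0 : 0 < l := by linarith
  have hT0 : 0 < T := by rw [hT]; positivity
  have hT2 : T ^ 2 = c ^ 2 * (μ * l) * (m * M) := by
    rw [hT, mul_pow, mul_pow, Real.sq_sqrt (by positivity), Real.sq_sqrt (by positivity), hmM]
  have hc2 : 0 < c ^ 2 := by positivity
  have hlam0 : 0 < lam0 := by rw [hlam]; positivity
  have hfa := fx_mono n a M hn0 ha0 haM hMn
  have hfb := fx_mono n b M hn0 hb0 hbM hMn
  rw [← Real.exp_add]
  by_cases htriv : 2 * μ * m ≤ T
  · -- the event is impossible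
    have h1 : pb (qB B p) (fun G => (∀ v, (dg G v : ℝ) ≤ 2 * μ) ∧
        4 * p * (a * b) + T < eXY G X Y) ≤ pb (qB B p) (fun _ => False) := by
      apply pb_mono _ hq
      rintro G ⟨h2, h3⟩
      have h4 := eXY_le G X Y μ h2
      have h5 := eXY_le G Y X μ h2
      rw [← eXY_symm G X Y] at h5
      rw [← ha] at h4
      rw [← hb] at h5
      have h6 : eXY G X Y ≤ 2 * μ * m := by
        rw [hm]
        rcases min_choice a b with h | h
        · rw [h]; exact h4
        · rw [h]; exact h5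
      have h7 : 0 ≤ 4 * p * (a * b) := by positivity
      linarith
    rw [pb_false] at h1
    exact h1.trans (Real.exp_pos _).le
  push Not at htriv
  -- `T` is large
  have hTM : c ^ 2 * l * M / 2 < T := by
    have h1 : T ^ 2 < (2 * μ * m) * T := by nlinarith
    have h2 : T < 2 * μ * m := htriv
    -- c^2 μ l m M = T^2 < 4 μ^2 m^2
    have h3 : c ^ 2 * (μ * l) * (m * M) < (2 * μ * m) ^ 2 := by
      rw [← hT2]
      apply pow_lt_pow_left₀ h2 hT0.le
      norm_num
    have h4 : c ^ 2 * l * M < 4 * μ * m := by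
      have h5 : (μ * m) * (c ^ 2 * l * M) < (μ * m) * (4 * μ * m) := by
        calc (μ * m) * (c ^ 2 * l * M) = c ^ 2 * (μ * l) * (m * M) := by ring
          _ < (2 * μ * m) ^ 2 := h3
          _ = _ := by ring
      exact lt_of_mul_lt_mul_left h5 (by positivity)
    have h6 : (c ^ 2 * l * M / 2) ^ 2 < T ^ 2 := by
      rw [hT2]
      calc (c ^ 2 * l * M / 2) ^ 2 = (c ^ 2 * l * M) * (c ^ 2 * l * M) / 4 := by ring
        _ < (c ^ 2 * l * M) * (4 * μ * m) / 4 := by gcongr
        _ = _ := by ring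
    exact lt_of_pow_lt_pow_left₀ 2 hT0.le h6
  -- Chernoff
  have hqs : qs (qB B p) (EE2 X Y) ≤ p * (a * b) := by
    rw [qs_qB]
    have h1 : (cS (EE2 X Y) B : ℝ) ≤ a * b := by
      have h2 := (cS_le (EE2 X Y) B).trans (card_EE2 X Y)
      rw [ha, hb]
      exact_mod_cast h2
    gcongr
  have hch : ∀ lam : ℝ, 0 ≤ lam → pb (qB B p) (fun G => (∀ v, (dg G v : ℝ) ≤ 2 * μ) ∧
      4 * p * (a * b) + T < eXY G X Y) ≤
      Real.exp (p * (a * b) * (Real.exp lam - 1) - lam * (2 * p * (a * b) + T / 2)) := by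
    intro lam hlam'
    have h1 : pb (qB B p) (fun G => (∀ v, (dg G v : ℝ) ≤ 2 * μ) ∧
        4 * p * (a * b) + T < eXY G X Y) ≤
        pb (qB B p) (fun G => 2 * p * (a * b) + T / 2 ≤ cS (EE2 X Y) G) := by
      apply pb_mono _ hq
      rintro G ⟨_, h3⟩
      have h4 := eXY_cS G X Y
      linarith
    have h2 := cS_chern (qB B p) hq (EE2 X Y) (2 * p * (a * b) + T / 2) lam hlam'
    refine (h1.trans h2).trans ?_
    apply Real.exp_le_exp.2
    have h3 : 0 ≤ Real.exp lam - 1 := by
      have := Real.one_le_exp hlam'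
      linarith
    have h4 : qs (qB B p) (EE2 X Y) * (Real.exp lam - 1) ≤ p * (a * b) * (Real.exp lam - 1) := by
      gcongr
    linarith
  by_cases hcase : p * (a * b) * Real.exp lam0 ≤ lam0 * T / 4
  · refine (hch lam0 hlam0.le).trans ?_
    apply Real.exp_le_exp.2
    have h1 : 0 ≤ p * (a * b) := by positivity
    have h2 : 26 * (l * M) ≤ lam0 * T / 4 := by
      have h3 : lam0 * (c ^ 2 * l * M / 2) ≤ lam0 * T := by gcongr
      have h4 : lam0 * (c ^ 2 * l * M / 2) = 104 * (l * M) := by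
        rw [hlam]
        field_simp
        ring
      linarith
    have h3 : fx n M ≤ 2 * l * M := by
      unfold fx
      have h4 : Real.log (n / M) ≤ l := by
        rw [hl]
        apply Real.log_le_log (by positivity)
        exact div_le_self hn0.le hM1
      have h5 : M * (1 + Real.log (n / M)) ≤ M * (l + l) := by gcongr
      linarith
    have h4 : 0 ≤ lam0 * (2 * p * (a * b)) := by positivity
    nlinarith
  · push Not at hcase
    refine (hch 1 zero_le_one).trans ?_
    apply Real.exp_le_exp.2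
    have h1 : 0 < p * (a * b) := by positivity
    have h2 := Real.exp_one_lt_d9
    -- `p m ≥ 52 n / M`
    obtain ⟨κ, hκ⟩ : ∃ κ : ℝ, κ = lam0 * Real.exp (-lam0) / 4 := ⟨_, rfl⟩
    rw [← hκ] at hbig
    have hκ0 : 0 < κ := by rw [hκ]; positivity
    have h3 : κ * T < p * (a * b) := by
      have e1 : Real.exp (-lam0) * Real.exp lam0 = 1 := by
        rw [← Real.exp_add]
        simp
      have e2 : 0 < Real.exp (-lam0) := Real.exp_pos _
      calc κ * T = Real.exp (-lam0) * (lam0 * T / 4) := by rw [hκ]; ring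
        _ < Real.exp (-lam0) * (p * (a * b) * Real.exp lam0) := by gcongr
        _ = p * (a * b) * (Real.exp (-lam0) * Real.exp lam0) := by ring
        _ = p * (a * b) := by rw [e1, mul_one]
    have h4 : κ ^ 2 * (c ^ 2 * (μ * l) * (m * M)) < p ^ 2 * (m * M) ^ 2 := by
      rw [← hT2, hmM]
      have e1 : (κ * T) ^ 2 < (p * (a * b)) ^ 2 := by
        apply pow_lt_pow_left₀ h3 (by positivity)
        norm_num
      calc κ ^ 2 * T ^ 2 = (κ * T) ^ 2 := by ring
        _ < (p * (a * b)) ^ 2 := e1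
        _ = _ := by ring
    have h5 : κ ^ 2 * (c ^ 2 * (μ * l)) < p ^ 2 * (m * M) := by
      have e1 : (m * M) * (κ ^ 2 * (c ^ 2 * (μ * l))) < (m * M) * (p ^ 2 * (m * M)) := by
        calc (m * M) * (κ ^ 2 * (c ^ 2 * (μ * l))) = κ ^ 2 * (c ^ 2 * (μ * l) * (m * M)) := by ring
          _ < p ^ 2 * (m * M) ^ 2 := h4
          _ = _ := by ring
      exact lt_of_mul_lt_mul_left e1 (by positivity)
    have h6 : 52 * (p * n) ≤ p ^ 2 * (m * M) := by
      calc 52 * (p * n) ≤ (κ ^ 2 * c ^ 2 * γ * l) * (p * n) := by gcongr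
        _ = κ ^ 2 * (c ^ 2 * ((γ * p * n) * l)) := by ring
        _ ≤ κ ^ 2 * (c ^ 2 * (μ * l)) := by gcongr
        _ ≤ _ := h5.le
    have h7 : 52 * n ≤ p * (m * M) := by
      have e1 : p * (52 * n) ≤ p * (p * (m * M)) := by
        calc p * (52 * n) = 52 * (p * n) := by ring
          _ ≤ p ^ 2 * (m * M) := h6
          _ = _ := by ring
      exact le_of_mul_le_mul_left e1 hp0
    have h8 : fx n M ≤ n := by
      unfold fx
      have e1 := Real.log_le_sub_one_of_pos (show 0 < (n : ℝ) / M by positivity)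
      calc M * (1 + Real.log (n / M)) ≤ M * (1 + (n / M - 1)) := by gcongr
        _ = n := by field_simp; ring
    rw [hmM] at h7
    nlinarith

set_option maxHeartbeats 1000000 in
/-- random subgraphs are pseudo-random -/
theorem jmb_random (γ c : ℝ) (hγ0 : 0 < γ) (hc0 : 0 < c) : ∃ N : ℕ, ∀ n : ℕ, N ≤ n →
    ∀ (B : SimpleGraph (Fin n)) (p μ : ℝ), 0 < p → p ≤ 1 → 0 < μ → γ * p * n ≤ μ →
      pb (qB B p) (fun G => (∀ v, (dg G v : ℝ) ≤ 2 * μ) ∧ ∃ X Y : Finset (Fin n),
        4 * p * (X.card * Y.card) + c * Real.sqrt (μ * Real.log n) *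
          Real.sqrt (X.card * Y.card) < eXY G X Y) ≤ 1 / (n : ℝ) ^ 9 := by
  classical
  obtain ⟨lam0, hlam⟩ : ∃ lam0 : ℝ, lam0 = 208 / c ^ 2 := ⟨_, rfl⟩
  have hlam0 : 0 < lam0 := by rw [hlam]; positivity
  obtain ⟨κ, hκ⟩ : ∃ κ : ℝ, κ = (lam0 * Real.exp (-lam0) / 4) ^ 2 * c ^ 2 * γ := ⟨_, rfl⟩
  have hκ0 : 0 < κ := by rw [hκ]; positivity
  obtain ⟨N, hN⟩ := Filter.eventually_atTop.1
    ((ev_log (max 1 (52 / κ))).and (Filter.eventually_ge_atTop 1))
  refine ⟨N, fun n hn B p μ hp0 hp1 hμ0 hμ => ?_⟩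
  obtain ⟨v1, hn1⟩ := hN n hn
  have hl1 : 1 ≤ Real.log n := (le_max_left _ _).trans v1
  have hl2 : 52 ≤ κ * Real.log n := by
    have h := (le_max_right _ _).trans v1
    rw [div_le_iff₀ hκ0] at h
    linarith
  have hn0 : (0 : ℝ) < n := by exact_mod_cast hn1
  have hq := qB_01 B p hp0.le hp1
  let NE : Finset (Finset (Fin n)) := univ.filter (fun X => X.Nonempty)
  have h1 : pb (qB B p) (fun G => (∀ v, (dg G v : ℝ) ≤ 2 * μ) ∧ ∃ X Y : Finset (Fin n),
        4 * p * (X.card * Y.card) + c * Real.sqrt (μ * Real.log n) *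
          Real.sqrt (X.card * Y.card) < eXY G X Y) ≤
      pb (qB B p) (fun G => ∃ z ∈ NE ×ˢ NE, (∀ v, (dg G v : ℝ) ≤ 2 * μ) ∧
        4 * p * (z.1.card * z.2.card) + c * Real.sqrt (μ * Real.log n) *
          Real.sqrt (z.1.card * z.2.card) < eXY G z.1 z.2) := by
    apply pb_mono _ hq
    rintro G ⟨h2, X, Y, h3⟩
    refine ⟨(X, Y), ?_, h2, h3⟩
    rw [mem_product]
    simp only [NE, mem_filter, mem_univ, true_and]
    constructor
    · by_contra hcon
      rw [not_nonempty_iff_eq_empty] at hcon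
      subst hcon
      simp [eXY] at h3
    · by_contra hcon
      rw [not_nonempty_iff_eq_empty] at hcon
      subst hcon
      simp [eXY] at h3
  refine h1.trans ((pb_exists_le (qB B p) hq (NE ×ˢ NE)
    (fun z G => (∀ v, (dg G v : ℝ) ≤ 2 * μ) ∧
        4 * p * (z.1.card * z.2.card) + c * Real.sqrt (μ * Real.log n) *
          Real.sqrt (z.1.card * z.2.card) < eXY G z.1 z.2)).trans ?_)
  have h2 : ∀ z ∈ NE ×ˢ NE, pb (qB B p) (fun G => (∀ v, (dg G v : ℝ) ≤ 2 * μ) ∧
        4 * p * (z.1.card * z.2.card) + c * Real.sqrt (μ * Real.log n) *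
          Real.sqrt (z.1.card * z.2.card) < eXY G z.1 z.2) ≤
      Real.exp (-(13 / 2 * fx n z.1.card)) * Real.exp (-(13 / 2 * fx n z.2.card)) := by
    intro z hz
    rw [mem_product] at hz
    exact one_pair B p μ γ c (Real.log n) lam0 hp0 hp1 hγ0 hμ0 hμ hc0 rfl hl1 hlam
      (by rw [← hκ]; exact hl2) z.1 z.2 (mem_filter.1 hz.1).2 (mem_filter.1 hz.2).2 hn1
  refine (sum_le_sum h2).trans ?_
  rw [sum_product]
  dsimp only
  rw [← sum_mul_sum]
  have h3 := sum_fx n hn1
  have h4 : 0 ≤ ∑ X ∈ NE, Real.exp (-(13 / 2 * fx n X.card)) :=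
    sum_nonneg fun X _ => (Real.exp_pos _).le
  calc (∑ X ∈ NE, Real.exp (-(13 / 2 * fx n X.card))) *
        ∑ X ∈ NE, Real.exp (-(13 / 2 * fx n X.card)) ≤
      Real.exp (-(9 / 2 * Real.log n)) * Real.exp (-(9 / 2 * Real.log n)) :=
        mul_le_mul h3 h3 h4 (Real.exp_pos _).le
    _ = 1 / (n : ℝ) ^ 9 := by
        rw [← Real.exp_add]
        have e1 : -(9 / 2 * Real.log n) + -(9 / 2 * Real.log n) = -(Real.log n * (9 : ℕ)) := by
          push_cast
          ring
        rw [e1, Real.exp_neg, Real.exp_mul, Real.exp_log hn0, Real.rpow_natCast, one_div]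

end Pool.Agent.W2helper87.RP
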