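import Pool.Agent.W2helper87.RP.Mom
import Pool.Agent.W2helper87.SR.Rg2

/-!
# Local sparsity of random graphs with very small failure probability
-/

set_option autoImplicit false

namespace Pool.Agent.W2helper87.RP

open Finset Pool.Agent.H162R2.Sparse Pool.Agent.H162R2.AG Pool.Agent.W2helper87.SR

/-- all sets of at most `R` vertices are sparse -/
theorem sparse_all9 {n : ℕ} (q : Sym2 (Fin n) → ℝ) (hq : ∀ e, 0 ≤ q e ∧ q e ≤ 1) (qm : ℝ)
    (hqm : ∀ e, q e ≤ qm) (A lam R : ℝ) (hlam : 0 ≤ lam) (hn : 6 ≤ n)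
    (h1 : qm * Real.exp (2 * lam) * R / 2 ≤ 1) (h2 : 10 * Real.log n ≤ lam * A) :
    pb q (fun G => ¬ ∀ X : Finset (Fin n), (X.card : ℝ) ≤ R → e2 G X ≤ A * X.card) ≤ 1 / (n : ℝ) ^ 8 := by
  classical
  have hnr : (6 : ℝ) ≤ n := by exact_mod_cast hn
  have hn0 : (0 : ℝ) < n := by linarith
  have hqm0 : 0 ≤ qm := (hq s(⟨0, by omega⟩, ⟨0, by omega⟩)).1.trans (hqm _)
  set y : ℝ := Real.exp (1 - 10 * Real.log n) with hy
  have hy0 : 0 < y := Real.exp_pos _
  have hyv : y ≤ 3 / (n : ℝ) ^ 10 := by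
    rw [hy, Real.exp_sub]
    have e1 : Real.exp (10 * Real.log n) = (n : ℝ) ^ 10 := by
      have h9 : (10 : ℝ) * Real.log n = ((10 : ℕ) : ℝ) * Real.log n := by norm_num
      rw [h9, Real.exp_nat_mul, Real.exp_log hn0]
    rw [e1]
    have e3 := Real.exp_one_lt_d9
    gcongr
    linarith
  have h3 : pb q (fun G => ¬ ∀ X : Finset (Fin n), (X.card : ℝ) ≤ R → e2 G X ≤ A * X.card) ≤
      ∑ X ∈ (univ : Finset (Finset (Fin n))).erase ∅, y ^ X.card := by
    have e1 : pb q (fun G => ¬ ∀ X : Finset (Fin n), (X.card : ℝ) ≤ R → e2 G X ≤ A * X.card) ≤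
        pb q (fun G => ∃ X ∈ ((univ : Finset (Finset (Fin n))).erase ∅),
          ((X.card : ℝ) ≤ R ∧ A * X.card < e2 G X)) := by
      apply pb_mono q hq
      intro G hG
      push Not at hG
      obtain ⟨X, hX, hX2⟩ := hG
      refine ⟨X, ?_, hX, hX2⟩
      rw [mem_erase]
      refine ⟨?_, mem_univ _⟩
      rintro rfl
      simp [e2] at hX2
    refine e1.trans ((pb_exists_le q hq _ _).trans ?_)
    apply sum_le_sum
    intro X _
    by_cases hX : (X.card : ℝ) ≤ R
    · have e3 : pb q (fun G => (X.card : ℝ) ≤ R ∧ A * X.card < e2 G X) ≤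
          pb q (fun G => A * X.card < e2 G X) := pb_mono q hq fun G h => h.2
      refine e3.trans ((sparse_one q hq qm hqm X A lam hlam).trans ?_)
      rw [hy, ← Real.exp_nat_mul]
      apply Real.exp_le_exp.2
      have e4 : qm * Real.exp (2 * lam) * X.card ^ 2 / 2 ≤ X.card := by
        have e5 : qm * Real.exp (2 * lam) * X.card / 2 ≤ qm * Real.exp (2 * lam) * R / 2 := by
          gcongr
        have e6 : qm * Real.exp (2 * lam) * (X.card : ℝ) ^ 2 / 2 =
          qm * Real.exp (2 * lam) * X.card / 2 * X.card := by ring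
        rw [e6]
        have e7 : qm * Real.exp (2 * lam) * X.card / 2 ≤ 1 := e5.trans h1
        have e8 : (0 : ℝ) ≤ X.card := Nat.cast_nonneg _
        nlinarith
      have e9 : (10 * Real.log n) * X.card ≤ (lam * A) * X.card := by gcongr
      nlinarith
    · have e3 : pb q (fun G => (X.card : ℝ) ≤ R ∧ A * X.card < e2 G X) ≤
          pb q (fun _ => False) := pb_mono q hq fun G h => absurd h.1 hX
      have e4 : pb q (fun _ => False) = 0 := by
        rw [pb_eq]
        simp [ex]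
      rw [e4] at e3
      exact e3.trans (by positivity)
  have h4 : ∑ X ∈ (univ : Finset (Finset (Fin n))).erase ∅, y ^ X.card = (1 + y) ^ n - 1 := by
    have e1 : ∑ X : Finset (Fin n), y ^ X.card = (y + 1) ^ n := by
      have := Fintype.sum_pow_mul_eq_add_pow (Fin n) y 1
      simpa using this
    have e3 := Finset.add_sum_erase (univ : Finset (Finset (Fin n))) (fun X => y ^ X.card)
      (mem_univ ∅)
    rw [e1] at e3
    simp only [card_empty, pow_zero] at e3
    rw [add_comm 1 y]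
    linarith
  have h5 : (1 + y) ^ n ≤ Real.exp (n * y) := by
    rw [Real.exp_nat_mul]
    have := Real.add_one_le_exp y
    gcongr
    linarith
  have h6 : (n : ℝ) * y ≤ 3 / (n : ℝ) ^ 9 := by
    calc (n : ℝ) * y ≤ n * (3 / (n : ℝ) ^ 10) := by gcongr
      _ = 3 / (n : ℝ) ^ 9 := by field_simp
  have h7 : (3 : ℝ) / (n : ℝ) ^ 9 ≤ 1 / (n : ℝ) ^ 8 / 2 := by
    rw [div_div, div_le_div_iff₀ (by positivity) (by positivity)]
    have e1 : (n : ℝ) ^ 9 = n ^ 8 * n := by ring
    rw [e1]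
    have e2 : (0 : ℝ) < (n : ℝ) ^ 8 := by positivity
    nlinarith
  have h7' : (1 : ℝ) / (n : ℝ) ^ 8 ≤ 1 := by
    rw [div_le_one (by positivity)]
    exact one_le_pow₀ (by linarith)
  have h8 : (n : ℝ) * y ≤ 1 := by linarith
  have h9 := exp_le_quad (x := (n : ℝ) * y) (by rw [abs_of_nonneg (by positivity)]; exact h8)
  have h10 : ((n : ℝ) * y) ^ 2 ≤ n * y := by
    have : 0 ≤ (n : ℝ) * y := by positivity
    nlinarith
  rw [h4] at h3
  linarith

end Pool.Agent.W2helper87.RP
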