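import Pool.Agent.W2helper87.RP.LowMx
import Pool.Agent.W2helper87.RP.Sp9
import Pool.Agent.W2helper87.RP.Mx3
import Pool.Agent.W2helper87.RP.Gd
import Pool.Agent.W2helper87.TC.LowL

/-!
# Random graphs of average degree at most `C log n`: very small failure probability
-/

set_option autoImplicit false

namespace Pool.Agent.W2helper87.RP

open Finset Pool.Agent.H162R2.Sparse Pool.Agent.H162R2.AG Pool.Agent.W2helper87.SR
open Pool.Agent.W2helper87.FR Pool.Agent.W2helper87.LD Pool.Agent.W2helper87.TC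
open Pool.Agent.Results.MP_db9399_co.SparseLargeDegrees

set_option maxHeartbeats 1000000 in
open Classical in
/-- the deterministic part -/
theorem det_low (g : ℝ) (hg0 : 0 < g) (hg1 : g ≤ 1) :
    ∃ κ : ℝ, 0 < κ ∧ κ ≤ 1 / 200 ∧ ∀ A : ℝ, 0 < A → ∃ K₁ N : ℕ, ∀ n : ℕ, N ≤ n →
    ∀ (G : SimpleGraph (Fin n)) (k₀ k₁ : ℕ),
      (∃ v, k₀ ≤ dg G v + 7) → K₁ + 7 ≤ k₀ →
      (1 / 100 * Real.log n < k₀ → ∀ d : ℕ, (1 - g / 2) * ((k₀ : ℝ) - 7) < d → k₁ ≤ d) →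
      ((k₀ : ℝ) ≤ 1 / 100 * Real.log n → k₁ + 2 ≤ k₀ / 4) →
      ((univ.filter (fun v => k₁ ≤ dg G v)).card : ℝ) < (n : ℝ) ^ (1 - κ) →
      (∀ X : Finset (Fin n), (X.card : ℝ) ≤ 9 * (n : ℝ) ^ (1 - κ) → e2 G X ≤ A * X.card) →
      Gd G ∧ GdTot G := by
  obtain ⟨κa, hκa0, hdeta⟩ := low_det (g / 2) (1 / 200) (by positivity) (by linarith) (by norm_num)
  obtain ⟨κb, hκb0, hdetb⟩ := list_mid (g / 2) (1 / 200) (by positivity) (by linarith) (by norm_num)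
  obtain ⟨κ, hκ⟩ : ∃ κ : ℝ, κ = min (min κa κb) (1 / 200) := ⟨_, rfl⟩
  have hκ0 : 0 < κ := by
    rw [hκ]
    exact lt_min (lt_min hκa0 hκb0) (by norm_num)
  have hκa : κ ≤ κa := by rw [hκ]; exact (min_le_left _ _).trans (min_le_left _ _)
  have hκb : κ ≤ κb := by rw [hκ]; exact (min_le_left _ _).trans (min_le_right _ _)
  have hκ2 : κ ≤ 1 / 200 := by rw [hκ]; exact min_le_right _ _
  refine ⟨κ, hκ0, hκ2, fun A hA0 => ?_⟩
  obtain ⟨Na, hNa⟩ := hdeta κ hκ0 hκa (by linarith) A hA0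
  obtain ⟨Nb, hNb⟩ := hdetb κ hκ0 hκb (by linarith) A hA0
  obtain ⟨x₀, hx₀1, hx₀⟩ := log_small A hA0
  obtain ⟨K₁, hK₁⟩ : ∃ K₁ : ℕ, K₁ = ⌈max x₀ (4 * A + 6)⌉₊ := ⟨_, rfl⟩
  have hK₁r : max x₀ (4 * A + 6) ≤ K₁ := by rw [hK₁]; exact Nat.le_ceil _
  obtain ⟨N, hN⟩ := Filter.eventually_atTop.1
    ((ev_log 1400).and (Filter.eventually_ge_atTop (max (max Na Nb) 6)))
  refine ⟨K₁, N, fun n hn G k₀ k₁ hk₀ hK hII hIII hfew hsp => ?_⟩
  obtain ⟨v1, hn6'⟩ := hN n hn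
  have hnNa : Na ≤ n := le_trans (le_max_left _ _) (le_trans (le_max_left _ _) hn6')
  have hnNb : Nb ≤ n := le_trans (le_max_right _ _) (le_trans (le_max_left _ _) hn6')
  have hn6 : 6 ≤ n := le_trans (le_max_right _ _) hn6'
  have hnr : (6 : ℝ) ≤ n := by exact_mod_cast hn6
  have hn0 : (0 : ℝ) < n := by linarith
  have hn1 : (1 : ℝ) ≤ n := by linarith
  obtain ⟨l, hl⟩ : ∃ l : ℝ, l = Real.log n := ⟨_, rfl⟩
  rw [← hl] at v1 hII hIII
  -- for every `D`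
  have key : ∀ D : ℕ, (∀ v, dg G v ≤ D) →
      k₀ ≤ D + 7 ∧ K₁ ≤ D ∧ max x₀ (4 * A + 6) ≤ D ∧
      ((k₀ : ℝ) ≤ 1 / 100 * l → ∀ v, D / 4 < dg G v → k₁ ≤ dg G v) ∧
      (1 / 100 * l < k₀ → 1 / 200 * l ≤ D ∧
        ((univ.filter (fun v => (1 - g / 2) * (D : ℝ) < dg G v)).card : ℝ) ≤ (n : ℝ) ^ (1 - κ)) := by
    intro D hD1
    obtain ⟨v₂, hv₂⟩ := hk₀
    have hDk : k₀ ≤ D + 7 := by
      have := hD1 v₂
      omega
    have hDK : K₁ ≤ D := by omega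
    have hDr : max x₀ (4 * A + 6) ≤ D := hK₁r.trans (by exact_mod_cast hDK)
    refine ⟨hDk, hDK, hDr, ?_, ?_⟩
    · intro h v hv
      have := hIII h
      omega
    · intro h
      have hDk' : (k₀ : ℝ) ≤ D + 7 := by exact_mod_cast hDk
      refine ⟨by linarith, ?_⟩
      refine le_trans ?_ hfew.le
      have e1 : (univ.filter (fun v => (1 - g / 2) * (D : ℝ) < dg G v)).card ≤
          (univ.filter (fun v => k₁ ≤ dg G v)).card := by
        apply card_le_card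
        intro v hv
        rw [mem_filter] at hv ⊢
        refine ⟨hv.1, hII h _ (lt_of_le_of_lt ?_ hv.2)⟩
        have e4 : 0 ≤ 1 - g / 2 := by linarith
        have e5 : (k₀ : ℝ) - 7 ≤ D := by linarith
        gcongr
      exact_mod_cast e1
  have hm1 : 1 ≤ ⌈(n : ℝ) ^ (1 - κ)⌉₊ := by
    rw [Nat.one_le_ceil_iff]
    positivity
  have hspX : ∀ X : Finset (Fin n), X.card ≤ 3 * ⌈(n : ℝ) ^ (1 - κ)⌉₊ → e2 G X ≤ A * X.card := by
    intro X hX
    apply hsp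
    have e1 : (X.card : ℝ) ≤ 3 * ((⌈(n : ℝ) ^ (1 - κ)⌉₊ : ℕ) : ℝ) := by exact_mod_cast hX
    have e3 : ((⌈(n : ℝ) ^ (1 - κ)⌉₊ : ℕ) : ℝ) < (n : ℝ) ^ (1 - κ) + 1 :=
      Nat.ceil_lt_add_one (by positivity)
    have e4 : (1 : ℝ) ≤ (n : ℝ) ^ (1 - κ) := Real.one_le_rpow hn1 (by linarith)
    linarith
  constructor
  · intro D hD1 hD2 L hsym hL
    obtain ⟨a1, a2, a3, a4, a5⟩ := key D hD1
    rcases le_or_gt (k₀ : ℝ) (1 / 100 * l) with h | h
    · refine det3 G D (D / 4) ⌈(n : ℝ) ^ (1 - κ)⌉₊ A hD1 hA0 hm1 ?_ hspX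
        (hx₀ D ((le_max_left _ _).trans a3)) ?_ L hsym hL
      · have e1 : (univ.filter (fun v => D / 4 < dg G v)).card ≤
            (univ.filter (fun v => k₁ ≤ dg G v)).card := by
          apply card_le_card
          intro v hv
          rw [mem_filter] at hv ⊢
          exact ⟨hv.1, a4 h v hv.2⟩
        exact e1.trans (Nat.lt_ceil.2 hfew).le
      · have e1 : ((D / 4 : ℕ) : ℝ) ≤ D / 4 := by
          have := Nat.cast_div_le (m := D) (n := 4) (α := ℝ)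
          push_cast at this
          exact this
        have e3 : 4 * A + 6 ≤ D := (le_max_right _ _).trans a3
        linarith
    · obtain ⟨b1, b2⟩ := a5 h
      exact hNa n hnNa G D hD1 (by rw [← hl]; exact b1) b2 hsp L hsym hL
  · intro D hD1 hD2 H hH k hk
    obtain ⟨a1, a2, a3, a4, a5⟩ := key D hD1
    rcases le_or_gt (k₀ : ℝ) (1 / 100 * l) with h | h
    · refine list_small G D hD1 A hA0 ⌈(n : ℝ) ^ (1 - κ)⌉₊ hm1
        (hx₀ D ((le_max_left _ _).trans a3)) ((le_max_right _ _).trans a3)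
        (univ.filter (fun v => k₁ ≤ dg G v)) (Nat.lt_ceil.2 hfew).le ?_ hspX H hH k hk
      intro v hv
      by_contra hcon
      push Not at hcon
      exact hv (mem_filter.2 ⟨mem_univ _, a4 h v hcon⟩)
    · obtain ⟨b1, b2⟩ := a5 h
      exact hNb n hnNb G D hD1 (by rw [← hl]; exact b1) b2 hsp H hH k hk

set_option maxHeartbeats 4000000 in
open Classical in
theorem low_strong (C γ : ℝ) (hC : 0 < C) (hγ0 : 0 < γ) :
    ∃ β : ℝ, 0 < β ∧ β ≤ 1 / 4 ∧ ∃ N : ℕ, ∀ n : ℕ, N ≤ n → ∀ q : Sym2 (Fin n) → ℝ,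
      (∀ e, 0 ≤ q e ∧ q e ≤ C * Real.log n / n) → (∀ v, mu q v ≤ C * Real.log n) →
      γ * n ≤ ((univ.filter (fun v => (n : ℝ) ^ (-β) ≤ mu q v)).card : ℝ) →
      pb q (fun G => ¬ (Gd G ∧ GdTot G)) ≤ 1 / (n : ℝ) ^ 6 := by
  obtain ⟨C', hC'⟩ : ∃ C' : ℝ, C' = 3 * C + 1 := ⟨_, rfl⟩
  have hC'0 : 1 ≤ C' := by linarith
  obtain ⟨g, hg⟩ : ∃ g : ℝ, g = 1 / (100 * C') := ⟨_, rfl⟩
  have hg0 : 0 < g := by rw [hg]; positivity
  have hg1 : g ≤ 1 / 100 := by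
    rw [hg]
    apply div_le_div_of_nonneg_left (by norm_num) (by norm_num)
    linarith
  obtain ⟨κ, hκ0, hκ2, hdet⟩ := det_low g hg0 (by linarith)
  obtain ⟨A, hA⟩ : ∃ A : ℝ, A = 80 / κ := ⟨_, rfl⟩
  have hA0 : 0 < A := by rw [hA]; positivity
  obtain ⟨K₁, N₁, h₁⟩ := hdet A hA0
  obtain ⟨r, hr⟩ : ∃ r : ℕ, r = ⌈4 / κ⌉₊ := ⟨_, rfl⟩
  have hrκ : 8 ≤ 2 * κ * r := by
    have e1 : 4 / κ ≤ r := by rw [hr]; exact Nat.le_ceil _
    rw [div_le_iff₀ hκ0] at e1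
    linarith
  obtain ⟨K₀, hK₀⟩ : ∃ K₀ : ℕ, K₀ = 8 * r + 30 + K₁ := ⟨_, rfl⟩
  have hK₀1 : 1 ≤ K₀ := by omega
  have hK₀r : (0 : ℝ) < K₀ := by exact_mod_cast hK₀1
  obtain ⟨β, hβ⟩ : ∃ β : ℝ, β = 1 / (5 * K₀) := ⟨_, rfl⟩
  have hβ0 : 0 < β := by rw [hβ]; positivity
  have hβK : β * K₀ = 1 / 5 := by
    rw [hβ]
    field_simp
  have hβ1 : β ≤ 1 / 5 := by
    have : (1 : ℝ) ≤ K₀ := by exact_mod_cast hK₀1
    nlinarith
  obtain ⟨c₀, hc₀⟩ : ∃ c₀ : ℝ, c₀ = (1 / (2 * (K₀ : ℝ))) ^ K₀ * Real.exp (-(16 * K₀)) / 2 := ⟨_, rfl⟩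
  have hc₀0 : 0 < c₀ := by rw [hc₀]; positivity
  obtain ⟨N, hN⟩ := Filter.eventually_atTop.1
    ((ev_log (1400 + 200 * (r + 8) / g)).and
      ((ev_log3 (12 * C * (C' + 1) + 12 * C + 2 * C * K₀ + 16) (1 / 50) (by positivity) (by norm_num)).and
      ((ev_log3 (9 * C) (κ / 2) (by positivity) (by positivity)).and
      ((ev_const (1 / (γ * c₀)) (1 / 5) (by norm_num)).and
      ((ev_const (2 * r + 4) (1 / 2) (by norm_num)).and
      ((ev_const (r.factorial * 4 ^ r + 16) 1 (by norm_num)).and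
      (Filter.eventually_ge_atTop (max N₁ 16))))))))
  refine ⟨β, hβ0, by linarith, N, fun n hn q hq' hmu hmany => ?_⟩
  obtain ⟨v1, v2, v3, v4, v5, v6, hn6'⟩ := hN n hn
  rw [Real.rpow_one] at v6
  have hnN₁ : N₁ ≤ n := le_trans (le_max_left _ _) hn6'
  have hn6 : 16 ≤ n := le_trans (le_max_right _ _) hn6'
  have hnr : (16 : ℝ) ≤ n := by exact_mod_cast hn6
  have hn0 : (0 : ℝ) < n := by linarith
  have hn1 : (1 : ℝ) ≤ n := by linarith
  have hn1' : 1 ≤ n := by omega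
  obtain ⟨l, hl⟩ : ∃ l : ℝ, l = Real.log n := ⟨_, rfl⟩
  rw [← hl] at v1 v2 v3
  have hgp : 0 < 200 * ((r : ℝ) + 8) / g := by positivity
  have hl1 : 1400 ≤ l := by linarith
  have hl0 : 0 < l := by linarith
  have hll3 : l ≤ l ^ 3 := by
    have : l * 1 ≤ l * l ^ 2 := by
      gcongr
      exact one_le_pow₀ (by linarith)
    calc l = l * 1 := (mul_one l).symm
      _ ≤ l * l ^ 2 := this
      _ = l ^ 3 := by ring
  have hll23 : l ^ 2 ≤ l ^ 3 := by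
    calc l ^ 2 = l ^ 2 * 1 := (mul_one _).symm
      _ ≤ l ^ 2 * l := by
          gcongr
          linarith
      _ = l ^ 3 := by ring
  have hl30 : 0 < l ^ 3 := by positivity
  obtain ⟨z, hz⟩ : ∃ z : ℝ, z = (n : ℝ) ^ ((1 : ℝ) / 50) := ⟨_, rfl⟩
  rw [← hz] at v2
  have hz0 : 0 < z := by rw [hz]; positivity
  have hzz : z * z = (n : ℝ) ^ ((1 : ℝ) / 25) := by
    rw [hz]
    exact rp_mul n hn0 _ _ _ (by norm_num)
  have w0 : 0 ≤ C * (C' + 1) * l ^ 3 := by positivity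
  have w1 : 0 ≤ C * l ^ 3 := by positivity
  have w2 : 0 ≤ C * K₀ * l ^ 3 := by positivity
  have vv : 12 * (C * (C' + 1) * l ^ 3) + 12 * (C * l ^ 3) + 2 * (C * K₀ * l ^ 3) + 16 * l ^ 3 ≤ z := by
    refine le_trans (le_of_eq ?_) v2
    ring
  obtain ⟨qm, hqm⟩ : ∃ qm : ℝ, qm = C * l / n := ⟨_, rfl⟩
  have hqm0 : 0 < qm := by rw [hqm]; positivity
  -- `qm` is at most `n ^ (1 / 50 - 1) / 12`
  have hqmn : qm ≤ (n : ℝ) ^ (-(49 : ℝ) / 50) / 12 := by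
    have e1 : C * l ≤ C * l ^ 3 := by gcongr
    have e2 : C * l ≤ z / 12 := by linarith
    have e3 : z / n = (n : ℝ) ^ (-(49 : ℝ) / 50) := by
      rw [hz, div_eq_mul_inv, ← Real.rpow_neg_one]
      exact rp_mul n hn0 _ _ _ (by norm_num)
    rw [hqm, ← e3]
    calc C * l / n ≤ z / 12 / n := by gcongr
      _ = z / n / 12 := by ring
  have hx49 : (n : ℝ) ^ (-(49 : ℝ) / 50) ≤ 1 :=
    Real.rpow_le_one_of_one_le_of_nonpos hn1 (by norm_num)
  have hqm2 : qm ≤ 1 / 2 := by linarith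
  have hqm1 : qm ≤ 1 := by linarith
  have hqle : ∀ e, q e ≤ qm := fun e => by rw [hqm, hl]; exact (hq' e).2
  have hq : ∀ e, 0 ≤ q e ∧ q e ≤ 1 := fun e => ⟨(hq' e).1, (hqle e).trans hqm1⟩
  have hexp : ∀ x : ℝ, Real.exp (x * l) = (n : ℝ) ^ x := fun x => by
    rw [hl]
    exact exp_mul_log n (by omega) x
  -- the threshold
  have hFup : ∀ k : ℕ, C' * l < k → FF q k < (n : ℝ) ^ ((3 : ℝ) / 5) := by
    intro k hk
    have h1 : FF q k ≤ ∑ _v : Fin n, Real.exp (-l) := by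
      unfold FF
      apply sum_le_sum
      intro v _
      refine (TS_chern q hq (sU v univ) k 1 zero_le_one).trans ?_
      apply Real.exp_le_exp.2
      rw [qs_mu]
      have h2 : mu q v * Real.exp 1 ≤ (C * l) * 3 := by
        have e1 : Real.exp 1 ≤ 3 := by
          have := Real.exp_one_lt_d9
          linarith
        have e2 := hmu v
        rw [← hl] at e2
        have e3 : 0 ≤ C * l := by positivity
        have e4 := (Real.exp_pos 1).le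
        calc mu q v * Real.exp 1 ≤ (C * l) * Real.exp 1 := by gcongr
          _ ≤ (C * l) * 3 := by gcongr
      rw [hC'] at hk
      linarith
    rw [sum_const, card_univ, Fintype.card_fin, nsmul_eq_mul] at h1
    have h2 : (n : ℝ) * Real.exp (-l) = 1 := by
      rw [Real.exp_neg, hl, Real.exp_log hn0]
      field_simp
    have h3 : (1 : ℝ) < (n : ℝ) ^ ((3 : ℝ) / 5) :=
      Real.one_lt_rpow (by linarith) (by norm_num)
    linarith
  have hex : ∃ k₀ : ℕ, (n : ℝ) ^ ((3 : ℝ) / 5) ≤ FF q k₀ ∧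
      FF q (k₀ + 1) < (n : ℝ) ^ ((3 : ℝ) / 5) := by
    by_contra hcon
    push Not at hcon
    have h4 : ∀ k, (n : ℝ) ^ ((3 : ℝ) / 5) ≤ FF q k := by
      intro k
      induction k with
      | zero =>
        rw [FF_zero]
        calc (n : ℝ) ^ ((3 : ℝ) / 5) ≤ (n : ℝ) ^ (1 : ℝ) := by
              apply Real.rpow_le_rpow_of_exponent_le hn1
              norm_num
          _ = n := Real.rpow_one _
      | succ k ih => exact hcon k ih
    obtain ⟨k, hk⟩ := exists_nat_gt (C' * l)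
    linarith [h4 k, hFup k hk]
  obtain ⟨k₀, hk0, hk1⟩ := hex
  have hk₀u : (k₀ : ℝ) ≤ C' * l := by
    by_contra hcon
    push Not at hcon
    linarith [hFup k₀ hcon]
  have hF0 : 0 < FF q k₀ := lt_of_lt_of_le (by positivity) hk0
  -- the threshold is large
  have hk₀K : K₀ ≤ k₀ := by
    by_contra hcon
    push Not at hcon
    have e1 : FF q K₀ ≤ FF q (k₀ + 1) := by
      unfold FF
      exact sum_le_sum fun v _ => TS_anti q hq _ _ _ (by omega)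
    have hb1 : (n : ℝ) ^ (-β) ≤ 1 := Real.rpow_le_one_of_one_le_of_nonpos hn1 (by linarith)
    have e2 := FF_lower q hq qm hqle hqm2 K₀ hK₀1 ((n : ℝ) ^ (-β)) (by positivity) hb1
      (by
        have f1 : 2 * qm * K₀ = (2 * (C * K₀ * l)) / n := by
          rw [hqm]
          ring
        have f2 : C * K₀ * l ≤ C * K₀ * l ^ 3 := by gcongr
        have f3 : 2 * (C * K₀ * l) ≤ z := by linarith
        rw [f1]
        calc (2 * (C * K₀ * l)) / n ≤ z / n := by gcongr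
          _ = (n : ℝ) ^ (-(49 : ℝ) / 50) := by
              rw [hz, div_eq_mul_inv, ← Real.rpow_neg_one]
              exact rp_mul n hn0 _ _ _ (by norm_num)
          _ ≤ (n : ℝ) ^ (-β) := by
              apply Real.rpow_le_rpow_of_exponent_le hn1
              linarith) (γ * n) hmany
    have e3 : γ * n * (((n : ℝ) ^ (-β) / (2 * K₀)) ^ K₀ * Real.exp (-(16 * K₀)) / 2) =
        γ * c₀ * (n : ℝ) ^ ((4 : ℝ) / 5) := by
      have f1 : ((n : ℝ) ^ (-β) / (2 * K₀)) ^ K₀ = (n : ℝ) ^ (-(1 : ℝ) / 5) * (1 / (2 * (K₀ : ℝ))) ^ K₀ := by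
        rw [div_eq_mul_one_div, mul_pow, ← Real.rpow_natCast ((n : ℝ) ^ (-β)), ← Real.rpow_mul hn0.le]
        congr 2
        linarith
      have f2 : (n : ℝ) * (n : ℝ) ^ (-(1 : ℝ) / 5) = (n : ℝ) ^ ((4 : ℝ) / 5) := by
        nth_rewrite 1 [← Real.rpow_one (n : ℝ)]
        exact rp_mul n hn0 _ _ _ (by norm_num)
      rw [f1, hc₀, ← f2]
      ring
    rw [e3] at e2
    have e4 : (n : ℝ) ^ ((3 : ℝ) / 5) ≤ γ * c₀ * (n : ℝ) ^ ((4 : ℝ) / 5) := by
      have f1 : 1 ≤ γ * c₀ * (n : ℝ) ^ ((1 : ℝ) / 5) := by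
        rw [div_le_iff₀ (by positivity)] at v4
        linarith
      have f2 : (n : ℝ) ^ ((1 : ℝ) / 5) * (n : ℝ) ^ ((3 : ℝ) / 5) = (n : ℝ) ^ ((4 : ℝ) / 5) :=
        rp_mul n hn0 _ _ _ (by norm_num)
      calc (n : ℝ) ^ ((3 : ℝ) / 5) = 1 * (n : ℝ) ^ ((3 : ℝ) / 5) := (one_mul _).symm
        _ ≤ (γ * c₀ * (n : ℝ) ^ ((1 : ℝ) / 5)) * (n : ℝ) ^ ((3 : ℝ) / 5) := by gcongr
        _ = γ * c₀ * ((n : ℝ) ^ ((1 : ℝ) / 5) * (n : ℝ) ^ ((3 : ℝ) / 5)) := by ring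
        _ = _ := by rw [f2]
    linarith
  -- the lower threshold
  obtain ⟨k₁, s, hk₁1, hks, hk4, hsl, hII, hIII⟩ : ∃ k₁ s : ℕ, 1 ≤ k₁ ∧ k₁ + s = k₀ + 1 ∧
      k₁ + s ≤ 8 * k₁ ∧ (s : ℝ) * (4 + 3 * κ * l / k₁) ≤ 1 / 5 * l ∧
      (1 / 100 * l < k₀ → ∀ d : ℕ, (1 - g / 2) * ((k₀ : ℝ) - 7) < d → k₁ + r ≤ d) ∧
      ((k₀ : ℝ) ≤ 1 / 100 * l → k₁ + r + 2 ≤ k₀ / 4) := by
    rcases le_or_gt (k₀ : ℝ) (1 / 100 * l) with h | h
    · obtain ⟨k₁, hk₁⟩ : ∃ k₁ : ℕ, k₁ + (r + 2) = k₀ / 4 := ⟨k₀ / 4 - (r + 2), by omega⟩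
      obtain ⟨s, hs⟩ : ∃ s : ℕ, k₁ + s = k₀ + 1 := ⟨k₀ + 1 - k₁, by omega⟩
      refine ⟨k₁, s, by omega, hs, by omega, ?_,
        fun h' => absurd h' (not_lt.2 h), fun _ => by omega⟩
      have hk₁r : (1 : ℝ) ≤ k₁ := by
        exact_mod_cast (by omega : 1 ≤ k₁)
      have hs7 : (s : ℝ) ≤ 7 * k₁ := by
        exact_mod_cast (by omega : s ≤ 7 * k₁)
      have hsk : (s : ℝ) ≤ k₀ + 1 := by
        exact_mod_cast (by omega : s ≤ k₀ + 1)
      have e1 : (s : ℝ) * (3 * κ * l / k₁) ≤ 21 * κ * l := by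
        calc (s : ℝ) * (3 * κ * l / k₁) ≤ (7 * k₁) * (3 * κ * l / k₁) := by gcongr
          _ = 21 * κ * l := by
              field_simp
              ring
      have e2 : 21 * κ * l ≤ 21 * (1 / 200) * l := by gcongr
      linarith
    · have hk₀6 : (14 : ℝ) < k₀ := by linarith
      have hgl : 200 * ((r : ℝ) + 8) ≤ l * g := by
        have h1 : 200 * ((r : ℝ) + 8) / g ≤ l := by linarith
        rwa [div_le_iff₀ hg0] at h1
      have hgk : 2 * ((r : ℝ) + 8) ≤ g * k₀ := by nlinarith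
      have hr0 : (0 : ℝ) ≤ r := Nat.cast_nonneg _
      have hpos : 0 ≤ (1 - g) * (k₀ : ℝ) := by
        apply mul_nonneg
        · linarith
        · linarith
      obtain ⟨k₁, hk₁⟩ : ∃ k₁ : ℕ, k₁ = ⌈(1 - g) * (k₀ : ℝ)⌉₊ := ⟨_, rfl⟩
      have e1 : (1 - g) * (k₀ : ℝ) ≤ k₁ := by rw [hk₁]; exact Nat.le_ceil _
      have e2 : (k₁ : ℝ) < (1 - g) * (k₀ : ℝ) + 1 := by rw [hk₁]; exact Nat.ceil_lt_add_one hpos
      have e3 : k₁ ≤ k₀ := by
        rw [hk₁, Nat.ceil_le]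
        nlinarith
      have e4 : (k₀ : ℝ) / 2 ≤ k₁ := by nlinarith
      have e5 : (1 : ℝ) ≤ k₁ := by linarith
      have e6 : 1 ≤ k₁ := by exact_mod_cast e5
      have e7 : k₀ + 1 ≤ 8 * k₁ := by
        have : ((k₀ + 1 : ℕ) : ℝ) ≤ ((8 * k₁ : ℕ) : ℝ) := by
          push_cast
          linarith
        exact_mod_cast this
      have e8 : ((k₀ + 1 - k₁ : ℕ) : ℝ) = k₀ + 1 - k₁ := by
        rw [Nat.cast_sub (by omega)]
        push_cast
        ring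
      have e9 : ((k₀ + 1 - k₁ : ℕ) : ℝ) ≤ 2 * g * k₀ := by
        rw [e8]
        linarith
      refine ⟨k₁, k₀ + 1 - k₁, e6, by omega, by omega, ?_, fun _ d hd => ?_,
        fun h' => absurd h' (not_le.2 h)⟩
      · have f1 : ((k₀ + 1 - k₁ : ℕ) : ℝ) / k₁ ≤ 4 * g := by
          rw [div_le_iff₀ (by linarith)]
          nlinarith
        calc ((k₀ + 1 - k₁ : ℕ) : ℝ) * (4 + 3 * κ * l / k₁) =
            4 * ((k₀ + 1 - k₁ : ℕ) : ℝ) + (((k₀ + 1 - k₁ : ℕ) : ℝ) / k₁) * (3 * κ * l) := by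
              field_simp
          _ ≤ 4 * (2 * g * k₀) + (4 * g) * (3 * κ * l) := by gcongr
          _ ≤ 4 * (2 * g * (C' * l)) + (4 * g) * (3 * κ * l) := by gcongr
          _ = 8 * (g * C') * l + 12 * (g * κ) * l := by ring
          _ ≤ 8 * (1 / 100) * l + 12 * (1 / 100 * (1 / 200)) * l := by
              have f2 : g * C' = 1 / 100 := by
                rw [hg]
                field_simp
              rw [f2]
              gcongr
          _ ≤ 1 / 5 * l := by linarith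
      · have f1 : ((k₁ + r : ℕ) : ℝ) ≤ d := by
          push_cast
          have f2 : (1 - g / 2) * ((k₀ : ℝ) - 7) = (1 - g) * k₀ + (g * k₀) / 2 - 7 + 7 * g / 2 := by
            ring
          rw [f2] at hd
          linarith
        exact_mod_cast f1
  -- the expected number of vertices of degree at least `k₁`
  have hest : FF q k₁ ≤ 2 * (n : ℝ) ^ (1 - 3 * κ) := by
    have h1 := FF_est8 q hq qm hqle hqm0.le l κ (1 / 5) hl0.le hκ0.le k₁ s hk₁1 hk4 (by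
      rw [hks, hexp]
      have e1 : ((k₀ + 1 : ℕ) : ℝ) ≤ (C' + 1) * l := by
        push_cast
        linarith
      have e2 : 6 * qm * ((k₀ + 1 : ℕ) : ℝ) ≤ z / n := by
        calc 6 * qm * ((k₀ + 1 : ℕ) : ℝ) ≤ 6 * qm * ((C' + 1) * l) := by gcongr
          _ = 6 * (C * (C' + 1) * l ^ 2) / n := by
              rw [hqm]
              ring
          _ ≤ z / n := by
              have : C * (C' + 1) * l ^ 2 ≤ C * (C' + 1) * l ^ 3 := by gcongr
              gcongr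
              linarith
      calc 6 * qm * ((k₀ + 1 : ℕ) : ℝ) * (n : ℝ) ^ (3 * κ) ≤
          z / n * (n : ℝ) ^ (3 * κ) := by gcongr
        _ = (n : ℝ) ^ (1 / 50 + -1 + 3 * κ) := by
            rw [hz, div_eq_mul_inv, ← Real.rpow_neg_one, ← Real.rpow_add hn0, ← Real.rpow_add hn0]
        _ ≤ 1 := by
            apply Real.rpow_le_one_of_one_le_of_nonpos hn1
            linarith) hsl
    rw [hks] at h1
    have h2 : (n : ℝ) * Real.exp (-(3 * κ * l)) = (n : ℝ) ^ (1 - 3 * κ) := by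
      rw [show -(3 * κ * l) = (-(3 * κ)) * l by ring, hexp]
      nth_rewrite 1 [← Real.rpow_one (n : ℝ)]
      rw [← Real.rpow_add hn0]
      congr 1
    have h3 : Real.exp (1 / 5 * l) * FF q (k₀ + 1) ≤ (n : ℝ) ^ (1 - 3 * κ) := by
      rw [hexp]
      calc (n : ℝ) ^ ((1 : ℝ) / 5) * FF q (k₀ + 1) ≤
          (n : ℝ) ^ ((1 : ℝ) / 5) * (n : ℝ) ^ ((3 : ℝ) / 5) := by gcongr
        _ = (n : ℝ) ^ ((4 : ℝ) / 5) := by
            rw [← Real.rpow_add hn0]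
            norm_num
        _ ≤ _ := by
            apply Real.rpow_le_rpow_of_exponent_le hn1
            linarith
    rw [h2] at h1
    linarith
  have hFF0 : 0 ≤ FF q k₁ := sum_nonneg fun v _ => TS_nonneg _ hq _ _
  have hE4 : pb q (fun G => (n : ℝ) ^ (1 - κ) ≤
      ((univ.filter (fun v => k₁ + r ≤ dg G v)).card : ℝ)) ≤ 1 / (n : ℝ) ^ 7 := by
    have e0 : 2 * (r : ℝ) ≤ (n : ℝ) ^ (1 - κ) := by
      have e1 : (n : ℝ) ^ ((1 : ℝ) / 2) ≤ (n : ℝ) ^ (1 - κ) :=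
        Real.rpow_le_rpow_of_exponent_le hn1 (by linarith)
      linarith
    have e1 := count_moment q hq r (k₁ + r) ((n : ℝ) ^ (1 - κ)) e0 (by positivity)
    rw [Nat.add_sub_cancel] at e1
    refine e1.trans ?_
    have e2 : 2 * FF q k₁ / (n : ℝ) ^ (1 - κ) ≤ 4 * (n : ℝ) ^ (-(2 * κ)) := by
      rw [div_le_iff₀ (by positivity)]
      have e3 : (n : ℝ) ^ (-(2 * κ)) * (n : ℝ) ^ (1 - κ) = (n : ℝ) ^ (1 - 3 * κ) :=
        rp_mul n hn0 _ _ _ (by ring)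
      calc 2 * FF q k₁ ≤ 2 * (2 * (n : ℝ) ^ (1 - 3 * κ)) := by gcongr
        _ = 4 * (n : ℝ) ^ (-(2 * κ)) * (n : ℝ) ^ (1 - κ) := by
            rw [mul_assoc 4, e3]
            ring
    have e4 : ((n : ℝ) ^ (-(2 * κ))) ^ r ≤ 1 / (n : ℝ) ^ 8 := by
      rw [← Real.rpow_natCast, ← Real.rpow_mul hn0.le]
      calc (n : ℝ) ^ (-(2 * κ) * r) ≤ (n : ℝ) ^ (-(8 : ℝ)) := by
            apply Real.rpow_le_rpow_of_exponent_le hn1
            linarith
        _ = 1 / (n : ℝ) ^ 8 := by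
            rw [Real.rpow_neg hn0.le, one_div]
            congr 1
            exact_mod_cast Real.rpow_natCast (n : ℝ) 8
    calc (r.factorial : ℝ) * (2 * FF q k₁ / (n : ℝ) ^ (1 - κ)) ^ r ≤
        (r.factorial : ℝ) * (4 * (n : ℝ) ^ (-(2 * κ))) ^ r := by gcongr
      _ = ((r.factorial : ℝ) * 4 ^ r) * ((n : ℝ) ^ (-(2 * κ))) ^ r := by
          rw [mul_pow]
          ring
      _ ≤ n * (1 / (n : ℝ) ^ 8) := by
          gcongr
          linarith
      _ = 1 / (n : ℝ) ^ 7 := by field_simp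
  -- the maximum degree
  have hE1 : pb q (fun G => ∀ v, dg G v < k₀ - 7) ≤ 1 / (n : ℝ) ^ 7 := by
    obtain ⟨x, hx⟩ : ∃ x : ℝ, x = (n : ℝ) ^ ((3 : ℝ) / 4) := ⟨_, rfl⟩
    have hx1 : (1 : ℝ) ≤ x := by rw [hx]; exact Real.one_le_rpow hn1 (by norm_num)
    obtain ⟨u, hu⟩ : ∃ u : ℕ, u = ⌊x⌋₊ := ⟨_, rfl⟩
    have hu1 : (u : ℝ) ≤ x := by
      rw [hu]
      exact Nat.floor_le (by linarith)
    have hu2 : x / 2 ≤ u := by
      have e1 : x < u + 1 := by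
        rw [hu]
        exact Nat.lt_floor_add_one _
      have e2 : (1 : ℝ) ≤ u := by
        rw [hu]
        exact_mod_cast Nat.le_floor (by exact_mod_cast hx1)
      linarith
    have hxn : x ≤ n := by
      rw [hx]
      calc (n : ℝ) ^ ((3 : ℝ) / 4) ≤ (n : ℝ) ^ (1 : ℝ) :=
            Real.rpow_le_rpow_of_exponent_le hn1 (by norm_num)
        _ = n := Real.rpow_one _
    have hun : u ≤ n := by
      have : (u : ℝ) ≤ n := hu1.trans hxn
      exact_mod_cast this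
    have h2 := low_max q hq qm hqle hqm0.le (k₀ - 7) 7 u (1 / 5 * l) (by positivity) hun hn1' (by
      rw [hexp]
      calc (u : ℝ) * qm * (n : ℝ) ^ ((1 : ℝ) / 5) ≤
          (n : ℝ) ^ ((3 : ℝ) / 4) * ((n : ℝ) ^ (-(49 : ℝ) / 50) / 12) * (n : ℝ) ^ ((1 : ℝ) / 5) := by
            rw [hx] at hu1
            gcongr
        _ = (n : ℝ) ^ ((3 : ℝ) / 4 + -(49 : ℝ) / 50 + (1 : ℝ) / 5) / 12 := by
            rw [Real.rpow_add hn0, Real.rpow_add hn0]
            ring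
        _ ≤ 1 / 12 := by
            have := Real.rpow_le_one_of_one_le_of_nonpos (x := (n : ℝ))
              (z := (3 : ℝ) / 4 + -(49 : ℝ) / 50 + (1 : ℝ) / 5) hn1 (by norm_num)
            linarith
        _ ≤ 1 := by norm_num)
    have hk7 : k₀ - 7 + 7 = k₀ := by omega
    rw [hk7] at h2
    refine h2.trans ?_
    have e1 : (u : ℝ) * Real.exp (1 - 1 / 5 * l * ((7 : ℕ) + 1)) ≤ 1 := by
      have e2 : Real.exp (1 - 1 / 5 * l * ((7 : ℕ) + 1)) = Real.exp 1 * (n : ℝ) ^ (-(8 : ℝ) / 5) := by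
        rw [← hexp, ← Real.exp_add]
        congr 1
        push_cast
        ring
      have e3 : Real.exp 1 ≤ 3 := by
        have := Real.exp_one_lt_d9
        linarith
      rw [e2]
      calc (u : ℝ) * (Real.exp 1 * (n : ℝ) ^ (-(8 : ℝ) / 5)) ≤
          (n : ℝ) * (3 * (n : ℝ) ^ (-(8 : ℝ) / 5)) := by
            have : (u : ℝ) ≤ n := by exact_mod_cast hun
            gcongr
        _ = 3 * (n : ℝ) ^ (-(3 : ℝ) / 5) := by
            have e4 : (n : ℝ) * (n : ℝ) ^ (-(8 : ℝ) / 5) = (n : ℝ) ^ (-(3 : ℝ) / 5) := by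
              nth_rewrite 1 [← Real.rpow_one (n : ℝ)]
              exact rp_mul n hn0 _ _ _ (by norm_num)
            rw [← e4]
            ring
        _ ≤ 3 * (1 / 4) := by
            have e5 : (n : ℝ) ^ (-(3 : ℝ) / 5) ≤ 1 / 4 := by
              calc (n : ℝ) ^ (-(3 : ℝ) / 5) ≤ (n : ℝ) ^ (-(1 : ℝ) / 2) := by
                    apply Real.rpow_le_rpow_of_exponent_le hn1
                    norm_num
                _ ≤ (16 : ℝ) ^ (-(1 : ℝ) / 2) := by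
                    apply Real.rpow_le_rpow_of_nonpos (by norm_num) hnr
                    norm_num
                _ = 1 / 4 := by
                    rw [show (16 : ℝ) = 4 ^ (2 : ℝ) by norm_num, ← Real.rpow_mul (by norm_num)]
                    norm_num
            gcongr
        _ ≤ 1 := by norm_num
    have e6 : 8 * l ≤ (u : ℝ) / n * FF q k₀ := by
      have e7 : (n : ℝ) ^ ((3 : ℝ) / 4) * (n : ℝ) ^ ((3 : ℝ) / 5) = n * (n : ℝ) ^ ((7 : ℝ) / 20) := by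
        nth_rewrite 3 [← Real.rpow_one (n : ℝ)]
        rw [rp_mul n hn0 _ _ _ rfl, rp_mul n hn0 _ _ _ rfl]
        norm_num
      have e8 : 16 * l ≤ (n : ℝ) ^ ((7 : ℝ) / 20) := by
        have e9 : z ≤ (n : ℝ) ^ ((7 : ℝ) / 20) := by
          rw [hz]
          exact Real.rpow_le_rpow_of_exponent_le hn1 (by norm_num)
        linarith
      calc 8 * l ≤ (n : ℝ) ^ ((7 : ℝ) / 20) / 2 := by linarith
        _ = (n : ℝ) ^ ((3 : ℝ) / 4) / 2 / n * (n : ℝ) ^ ((3 : ℝ) / 5) := by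
            have : (n : ℝ) ^ ((3 : ℝ) / 4) / 2 / n * (n : ℝ) ^ ((3 : ℝ) / 5) =
              ((n : ℝ) ^ ((3 : ℝ) / 4) * (n : ℝ) ^ ((3 : ℝ) / 5)) / 2 / n := by ring
            rw [this, e7]
            field_simp
        _ ≤ (u : ℝ) / n * FF q k₀ := by
            rw [hx] at hu2
            gcongr
    rw [← exp_npow hn1' 7]
    apply Real.exp_le_exp.2
    rw [← hl]
    push_cast at e1 ⊢
    linarith
  -- local sparsity
  have hE7 := sparse_all9 q hq qm hqle A (κ / 8 * l) (9 * (n : ℝ) ^ (1 - κ))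
    (by positivity) (by omega)
    (by
      have e1 : 2 * (κ / 8 * l) = (κ / 4) * l := by ring
      rw [e1, hexp]
      have e2 : 9 * C * l ≤ (n : ℝ) ^ (κ / 2) := by
        have : 9 * C * l ≤ 9 * C * l ^ 3 := by gcongr
        linarith
      calc qm * (n : ℝ) ^ (κ / 4) * (9 * (n : ℝ) ^ (1 - κ)) / 2 =
          (9 * C * l) * ((n : ℝ) ^ (κ / 4) * (n : ℝ) ^ (1 - κ) / n) / 2 := by
            rw [hqm]
            ring
        _ = (9 * C * l) * (n : ℝ) ^ (-(3 * κ / 4)) / 2 := by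
            congr 2
            rw [div_eq_mul_inv, ← Real.rpow_neg_one, rp_mul n hn0 _ _ _ rfl, rp_mul n hn0 _ _ _ rfl]
            congr 1
            ring
        _ ≤ (n : ℝ) ^ (κ / 2) * (n : ℝ) ^ (-(3 * κ / 4)) / 2 := by gcongr
        _ = (n : ℝ) ^ (κ / 2 + -(3 * κ / 4)) / 2 := by rw [rp_mul n hn0 _ _ _ rfl]
        _ ≤ 1 / 2 := by
            have := Real.rpow_le_one_of_one_le_of_nonpos (x := (n : ℝ)) (z := κ / 2 + -(3 * κ / 4)) hn1
              (by linarith)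
            linarith
        _ ≤ 1 := by norm_num)
    (by
      rw [← hl, hA]
      apply le_of_eq
      field_simp
      norm_num)
  -- the events
  have hbad : pb q (fun G => ¬ (Gd G ∧ GdTot G)) ≤ pb q (fun G =>
      (∀ v, dg G v < k₀ - 7) ∨
      ((n : ℝ) ^ (1 - κ) ≤ ((univ.filter (fun v => k₁ + r ≤ dg G v)).card : ℝ) ∨
      (¬ ∀ X : Finset (Fin n), (X.card : ℝ) ≤ 9 * (n : ℝ) ^ (1 - κ) →
        e2 G X ≤ A * X.card))) := by
    apply pb_mono q hq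
    intro G hG
    by_contra hcon
    apply hG
    rw [not_or, not_or, not_not] at hcon
    obtain ⟨g1, g2, g3⟩ := hcon
    push Not at g1 g2
    obtain ⟨v₂, hv₂⟩ := g1
    exact h₁ n hnN₁ G k₀ (k₁ + r) ⟨v₂, by omega⟩ (by omega) (by rw [← hl]; exact hII)
      (by rw [← hl]; exact hIII) g2 g3
  have s1 := pb_or_le q hq (fun G => ∀ v, dg G v < k₀ - 7) (fun G =>
    (n : ℝ) ^ (1 - κ) ≤ ((univ.filter (fun v => k₁ + r ≤ dg G v)).card : ℝ) ∨
      (¬ ∀ X : Finset (Fin n), (X.card : ℝ) ≤ 9 * (n : ℝ) ^ (1 - κ) → e2 G X ≤ A * X.card))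
  have s2 := pb_or_le q hq (fun G =>
    (n : ℝ) ^ (1 - κ) ≤ ((univ.filter (fun v => k₁ + r ≤ dg G v)).card : ℝ))
    (fun G => ¬ ∀ X : Finset (Fin n), (X.card : ℝ) ≤ 9 * (n : ℝ) ^ (1 - κ) → e2 G X ≤ A * X.card)
  have t0 : 0 < 1 / (n : ℝ) ^ 7 := by positivity
  have t1 : 1 / (n : ℝ) ^ 8 ≤ 1 / (n : ℝ) ^ 7 := by
    apply div_le_div_of_nonneg_left zero_le_one (by positivity)
    exact pow_le_pow_right₀ hn1 (by norm_num)
  have t4 : 3 * (1 / (n : ℝ) ^ 7) ≤ 1 / (n : ℝ) ^ 6 := by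
    calc 3 * (1 / (n : ℝ) ^ 7) ≤ n * (1 / (n : ℝ) ^ 7) := by
          gcongr
          linarith
      _ = 1 / (n : ℝ) ^ 6 := by field_simp
  linarith

end Pool.Agent.W2helper87.RP
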