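import Pool.Agent.W2helper87.RP.Mom

/-!
# Random subgraphs with a given number of edges
-/

set_option autoImplicit false

namespace Pool.Agent.W2helper87.RP

open Finset Pool.Agent.H162R2.Sparse Pool.Agent.H162R2.AG Pool.Agent.W2helper87.SR
open Pool.Agent.W2helper87.FR Pool.Agent.W2helper87.LD

section

variable {n : ℕ} (B : SimpleGraph (Fin n)) (p : ℝ)

theorem PS_zero_of_gt (hp1 : p < 1) (k : ℕ) (hk : cS univ B < k) :
    PS (qB B p) univ k = 0 := by
  induction k with
  | zero => omega
  | succ k ih =>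
    have h1 := PS_rec B p univ k
    have h2 : p * ((cS univ B : ℝ) - k) * PS (qB B p) univ k = 0 := by
      rcases Nat.lt_or_ge (cS univ B) k with h | h
      · rw [ih h, mul_zero]
      · have : k = cS univ B := by omega
        rw [this]
        simp
    rw [h2] at h1
    have h3 : ((k : ℝ) + 1) * (1 - p) ≠ 0 := by
      have : 0 < ((k : ℝ) + 1) * (1 - p) := by
        apply mul_pos
        · positivity
        · linarith
      exact this.ne'
    exact (mul_eq_zero.1 h1).resolve_left h3

theorem PS_sum : ∑ k ∈ range ((univ : Finset (Pr n)).card + 1), PS (qB B p) univ k = 1 := by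
  have h1 := gf_PS (qB B p) univ 0
  simp only [Real.exp_zero, one_pow, mul_one, zero_mul] at h1
  rw [h1]
  exact ex_one _

/-- the most likely number of edges -/
theorem mode (m : ℕ) (hm0 : 0 < m) (hm : m < cS univ B) (hp : p = m / cS univ B) :
    1 ≤ ((cS univ B : ℝ) + 1) * PS (qB B p) univ m := by
  obtain ⟨e, he⟩ : ∃ e : ℕ, e = cS univ B := ⟨_, rfl⟩
  rw [← he] at hm hp ⊢
  have he0 : (0 : ℝ) < e := by exact_mod_cast (by omega : 0 < e)
  have hmr : (0 : ℝ) < m := by exact_mod_cast hm0
  have hme : (m : ℝ) < e := by exact_mod_cast hm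
  have hp0 : 0 < p := by rw [hp]; positivity
  have hp1 : p < 1 := by rw [hp, div_lt_one he0]; exact hme
  have hpe : p * e = m := by rw [hp]; field_simp
  have hq := qB_01 B p hp0.le hp1.le
  have hn0 : ∀ k, 0 ≤ PS (qB B p) univ k := fun k => PS_nonneg _ hq _ _
  -- increasing below `m`
  have hup : ∀ i, i ≤ m → PS (qB B p) univ (m - i) ≤ PS (qB B p) univ m := by
    intro i
    induction i with
    | zero => intro _; exact le_rfl
    | succ i ih =>
      intro hi
      refine le_trans ?_ (ih (by omega))
      obtain ⟨k, hk⟩ : ∃ k, m - i = k + 1 := ⟨m - i - 1, by omega⟩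
      have hk' : m - (i + 1) = k := by omega
      rw [hk, hk']
      have h1 := PS_rec B p univ k
      rw [← he] at h1
      have hkm : (k : ℝ) + 1 ≤ m := by exact_mod_cast (by omega : k + 1 ≤ m)
      have h2 : ((k : ℝ) + 1) * (1 - p) ≤ p * (e - k) := by nlinarith
      have h3 : 0 < ((k : ℝ) + 1) * (1 - p) := by
        apply mul_pos
        · positivity
        · linarith
      have h4 : ((k : ℝ) + 1) * (1 - p) * PS (qB B p) univ k ≤
          ((k : ℝ) + 1) * (1 - p) * PS (qB B p) univ (k + 1) := by
        rw [h1]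
        exact mul_le_mul_of_nonneg_right h2 (hn0 k)
      exact le_of_mul_le_mul_left h4 h3
  -- decreasing above
  have hdown : ∀ i, PS (qB B p) univ (m + i) ≤ PS (qB B p) univ m := by
    intro i
    induction i with
    | zero => exact le_rfl
    | succ i ih =>
      refine le_trans ?_ ih
      have h1 := PS_rec B p univ (m + i)
      rw [← he] at h1
      push_cast at h1
      have hi0 : (0 : ℝ) ≤ i := Nat.cast_nonneg _
      have h2 : p * (e - (m + i)) ≤ ((m : ℝ) + i + 1) * (1 - p) := by nlinarith
      have h3 : 0 < ((m : ℝ) + i + 1) * (1 - p) := by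
        apply mul_pos
        · positivity
        · linarith
      have h4 : ((m : ℝ) + i + 1) * (1 - p) * PS (qB B p) univ (m + i + 1) ≤
          ((m : ℝ) + i + 1) * (1 - p) * PS (qB B p) univ (m + i) := by
        rw [h1]
        exact mul_le_mul_of_nonneg_right h2 (hn0 _)
      exact le_of_mul_le_mul_left h4 h3
  have hall : ∀ k, PS (qB B p) univ k ≤ PS (qB B p) univ m := by
    intro k
    rcases Nat.le_total k m with h | h
    · have := hup (m - k) (by omega)
      rwa [Nat.sub_sub_self h] at this
    · have := hdown (k - m)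
      rwa [Nat.add_sub_cancel' h] at this
  have h1 := PS_sum B p
  have h2 : ∑ k ∈ range ((univ : Finset (Pr n)).card + 1), PS (qB B p) univ k =
      ∑ k ∈ range (e + 1), PS (qB B p) univ k := by
    symm
    apply sum_subset
    · intro k hk
      rw [mem_range] at hk ⊢
      have := cS_le univ B
      omega
    · intro k _ hk
      rw [mem_range] at hk
      exact PS_zero_of_gt B p hp1 k (by omega)
  calc (1 : ℝ) = ∑ k ∈ range (e + 1), PS (qB B p) univ k := by rw [← h2, h1]
    _ ≤ ∑ _k ∈ range (e + 1), PS (qB B p) univ m := sum_le_sum fun k _ => hall k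
    _ = ((e : ℝ) + 1) * PS (qB B p) univ m := by
        rw [sum_const, card_range, nsmul_eq_mul]
        push_cast
        ring

open Classical in
theorem wt_qB (G : SimpleGraph (Fin n)) :
    wt (qB B p) G = if G ≤ B then p ^ cS univ G * (1 - p) ^ (cS univ B - cS univ G) else 0 := by
  unfold wt
  split_ifs with h
  · have h1 : ∀ e : Pr n, (if e.1 ∈ G.edgeSet then qB B p e.1 else 1 - qB B p e.1) =
        (if e.1 ∈ G.edgeSet then p else 1) *
          (if e.1 ∈ B.edgeSet ∧ e.1 ∉ G.edgeSet then 1 - p else 1) := by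
      intro e
      have h2 : e.1 ∈ G.edgeSet → e.1 ∈ B.edgeSet := by
        intro h'
        exact (SimpleGraph.edgeSet_subset_edgeSet.2 h) h'
      unfold qB
      by_cases h3 : e.1 ∈ G.edgeSet
      · simp [h3, h2 h3]
      · by_cases h4 : e.1 ∈ B.edgeSet
        · simp [h3, h4]
        · simp [h3, h4]
    rw [prod_congr rfl (fun e _ => h1 e), prod_mul_distrib, ← prod_filter, ← prod_filter,
      prod_const, prod_const]
    have h5 : (univ.filter (fun e : Pr n => e.1 ∈ G.edgeSet)).card = cS univ G := rfl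
    have h6 : (univ.filter (fun e : Pr n => e.1 ∈ B.edgeSet ∧ e.1 ∉ G.edgeSet)).card =
        cS univ B - cS univ G := by
      have h7 : univ.filter (fun e : Pr n => e.1 ∈ B.edgeSet ∧ e.1 ∉ G.edgeSet) =
          univ.filter (fun e : Pr n => e.1 ∈ B.edgeSet) \
            univ.filter (fun e : Pr n => e.1 ∈ G.edgeSet) := by
        ext e
        simp
      rw [h7, card_sdiff_of_subset]
      · rfl
      · intro e he
        rw [mem_filter] at he ⊢
        exact ⟨he.1, (SimpleGraph.edgeSet_subset_edgeSet.2 h) he.2⟩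
    rw [h5, h6]
  · have h1 : ∃ a b, G.Adj a b ∧ ¬ B.Adj a b := by
      by_contra hcon
      push Not at hcon
      exact h fun a b => hcon a b
    obtain ⟨a, b, hG, hB⟩ := h1
    apply prod_eq_zero (i := (⟨s(a, b), by simpa using hG.ne⟩ : Pr n)) (mem_univ _)
    have e1 : s(a, b) ∈ G.edgeSet := hG
    have e2 : s(a, b) ∉ B.edgeSet := hB
    simp only [e1, if_true]
    unfold qB
    simp [e2]

open Classical in
/-- the graphs with a given number of edges -/
theorem fixed_edges (m : ℕ) (hm0 : 0 < m) (hm : m < cS univ B) (hp : p = m / cS univ B)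
    (P : SimpleGraph (Fin n) → Prop) :
    ((univ.filter (fun G : SimpleGraph (Fin n) => G ≤ B ∧ cS univ G = m ∧ P G)).card : ℝ) ≤
      ((cS univ B : ℝ) + 1) * pb (qB B p) P *
        ((univ.filter (fun G : SimpleGraph (Fin n) => G ≤ B ∧ cS univ G = m)).card : ℝ) := by
  have he0 : (0 : ℝ) < cS univ B := by exact_mod_cast (by omega : 0 < cS univ B)
  have hmr : (0 : ℝ) < m := by exact_mod_cast hm0
  have hme : (m : ℝ) < cS univ B := by exact_mod_cast hm
  have hp0 : 0 < p := by rw [hp]; positivity
  have hp1 : p < 1 := by rw [hp, div_lt_one he0]; exact hme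
  have hq := qB_01 B p hp0.le hp1.le
  have hmode := mode B p m hm0 hm hp
  obtain ⟨W, hW⟩ : ∃ W : ℝ, W = p ^ m * (1 - p) ^ (cS univ B - m) := ⟨_, rfl⟩
  have hW0 : 0 < W := by
    rw [hW]
    have : 0 < 1 - p := by linarith
    positivity
  have key : ∀ Q : SimpleGraph (Fin n) → Prop, pb (qB B p) (fun G => cS univ G = m ∧ Q G) =
      W * ((univ.filter (fun G : SimpleGraph (Fin n) => G ≤ B ∧ cS univ G = m ∧ Q G)).card : ℝ) := by
    intro Q
    rw [pb_eq]
    unfold ex
    rw [← sum_boole, mul_sum]
    apply sum_congr rfl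
    intro G _
    rw [wt_qB]
    dsimp only
    by_cases h1 : G ≤ B
    · by_cases h2 : cS univ G = m ∧ Q G
      · rw [if_pos h2, if_pos h1, if_pos ⟨h1, h2⟩, h2.1, hW]
        ring
      · rw [if_neg h2, if_neg (show ¬ (G ≤ B ∧ cS univ G = m ∧ Q G) from fun h => h2 h.2)]
        ring
    · rw [if_neg h1, if_neg (show ¬ (G ≤ B ∧ cS univ G = m ∧ Q G) from fun h => h1 h.1)]
      ring
  have h1 := key P
  have h2 := key (fun _ => True)
  simp only [and_true] at h2
  have h3 : PS (qB B p) univ m = pb (qB B p) (fun G => cS univ G = m) := rfl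
  rw [← h3] at h2
  have h4 : pb (qB B p) (fun G => cS univ G = m ∧ P G) ≤ pb (qB B p) P :=
    pb_mono _ hq fun G hG => hG.2
  have h5 : 0 ≤ pb (qB B p) P := pb_nonneg _ hq _
  have h6 : W * ((univ.filter (fun G : SimpleGraph (Fin n) =>
      G ≤ B ∧ cS univ G = m ∧ P G)).card : ℝ) ≤
      W * (((cS univ B : ℝ) + 1) * pb (qB B p) P *
        ((univ.filter (fun G : SimpleGraph (Fin n) => G ≤ B ∧ cS univ G = m)).card : ℝ)) := by
    rw [← h1]
    calc pb (qB B p) (fun G => cS univ G = m ∧ P G) ≤ pb (qB B p) P * 1 := by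
          rw [mul_one]
          exact h4
      _ ≤ pb (qB B p) P * (((cS univ B : ℝ) + 1) * PS (qB B p) univ m) := by gcongr
      _ = _ := by
          rw [h2]
          ring
  exact le_of_mul_le_mul_left h6 hW0

end

end Pool.Agent.W2helper87.RP
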