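import Pool.Agent.W2helper87.RP.Gd
import Pool.Agent.W2helper87.RP.Sp9
import Pool.Agent.W2helper87.RP.TotG

/-!
# Random subgraphs of dense graphs of average degree between `C log n` and `(log n) ^ 4`: very
# small failure probability
-/

set_option autoImplicit false

namespace Pool.Agent.W2helper87.RP

open Finset Pool.Agent.H162R2.Sparse Pool.Agent.H162R2.AG Pool.Agent.W2helper87.SR
open Pool.Agent.W2helper87.FR Pool.Agent.W2helper87.LD Pool.Agent.W2helper87.TC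

/-- the deterministic part -/
theorem det_mid (ε : ℝ) (hε0 : 0 < ε) (hε1 : ε ≤ 1) :
    ∃ κ : ℝ, 0 < κ ∧ κ ≤ 1 / 4 ∧ ∀ A : ℝ, 0 < A → ∃ C : ℝ, 0 < C ∧ ∃ N : ℕ, ∀ n : ℕ, N ≤ n →
    ∀ (G : SimpleGraph (Fin n)) (μ S : ℝ) (k₁ : ℕ),
      0 < μ → C * Real.log n ≤ μ → S = Real.sqrt (μ * Real.log n) → 2 * μ ≤ (n : ℝ) ^ κ →
      (∃ v, (k₁ : ℝ) + 2 * ε * S ≤ dg G v) →
      (∀ v, (dg G v : ℝ) ≤ 2 * μ) → (∃ v, μ / 2 ≤ dg G v) →
      ((univ.filter (fun v => k₁ ≤ dg G v)).card : ℝ) < (n : ℝ) ^ ((3 : ℝ) / 10) →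
      (∀ X : Finset (Fin n), (X.card : ℝ) ≤ 9 * (n : ℝ) ^ (1 - κ) → e2 G X ≤ A * X.card) →
      Gd G ∧ GdTot G := by
  classical
  obtain ⟨κa, hκa0, hκa2, -, ha⟩ := det_asym ε hε0
  obtain ⟨κb, hκb0, hκb4, hb⟩ := total_gen ε hε0 hε1
  obtain ⟨κ, hκ⟩ : ∃ κ : ℝ, κ = min κa κb := ⟨_, rfl⟩
  have hκ0 : 0 < κ := by rw [hκ]; exact lt_min hκa0 hκb0
  have hκκa : κ ≤ κa := by rw [hκ]; exact min_le_left _ _
  have hκκb : κ ≤ κb := by rw [hκ]; exact min_le_right _ _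
  refine ⟨κ, hκ0, hκκb.trans hκb4, fun A hA => ?_⟩
  obtain ⟨Ca, hCa0, Na, hNa⟩ := ha A hA
  obtain ⟨Cb, hCb0, Nb, hNb⟩ := hb A hA
  refine ⟨2 * Ca + 2 * Cb, by positivity, max (max Na Nb) 3, fun n hn G μ S k₁ hμ0 hμC hS hμn hbig
    hup hlow hfew hsp => ?_⟩
  have hnNa : Na ≤ n := le_trans (le_max_left _ _) (le_trans (le_max_left _ _) hn)
  have hnNb : Nb ≤ n := le_trans (le_max_right _ _) (le_trans (le_max_left _ _) hn)
  have hn3 : 3 ≤ n := le_trans (le_max_right _ _) hn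
  have hnr : (3 : ℝ) ≤ n := by exact_mod_cast hn3
  have hn1 : (1 : ℝ) ≤ n := by linarith
  obtain ⟨l, hl⟩ : ∃ l : ℝ, l = Real.log n := ⟨_, rfl⟩
  rw [← hl] at hμC hS
  have hl0 : 0 < l := by
    rw [hl]
    exact Real.log_pos (by linarith)
  have hS0 : 0 < S := by rw [hS]; positivity
  have hSS : S ^ 2 = μ * l := by rw [hS]; exact Real.sq_sqrt (by positivity)
  have key : ∀ D : ℕ, (∀ v, dg G v ≤ D) → (∃ v, dg G v = D) →
      Ca * l ≤ D ∧ Cb * l ≤ D ∧ (D : ℝ) ≤ (n : ℝ) ^ κ ∧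
      ∀ κ' : ℝ, κ' ≤ 1 / 2 → ((univ.filter (fun v => (D : ℝ) - ε * Real.sqrt (D * l) < dg G v)).card : ℝ)
        ≤ (n : ℝ) ^ (1 - κ') := by
    intro D hD1 hD2
    obtain ⟨w, hw⟩ := hD2
    have a2 : μ / 2 ≤ D := by
      obtain ⟨v, hv⟩ := hlow
      have : (dg G v : ℝ) ≤ D := by exact_mod_cast hD1 v
      linarith
    have a3 : (D : ℝ) ≤ 2 * μ := by
      have := hup w
      rw [hw] at this
      exact this
    have a4 : (k₁ : ℝ) + 2 * ε * S ≤ D := by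
      obtain ⟨v, hv⟩ := hbig
      have : (dg G v : ℝ) ≤ D := by exact_mod_cast hD1 v
      linarith
    have a7 : Real.sqrt (D * l) ≤ 2 * S := by
      apply Real.sqrt_le_iff.2
      refine ⟨by linarith, ?_⟩
      have e1 : (2 * S) ^ 2 = 4 * (μ * l) := by rw [mul_pow, hSS]; norm_num
      rw [e1]
      have e2 : (D : ℝ) * l ≤ 2 * μ * l := by gcongr
      have e3 : 0 ≤ μ * l := by positivity
      linarith
    have p1 : 0 < Ca * l := by positivity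
    have p2 : 0 < Cb * l := by positivity
    have p3 : (2 * Ca + 2 * Cb) * l = 2 * (Ca * l) + 2 * (Cb * l) := by ring
    rw [p3] at hμC
    refine ⟨by linarith, by linarith, a3.trans hμn, fun κ' hκ' => ?_⟩
    have e1 : (univ.filter (fun v => (D : ℝ) - ε * Real.sqrt (D * l) < dg G v)).card ≤
        (univ.filter (fun v => k₁ ≤ dg G v)).card := by
      apply card_le_card
      intro v hv
      rw [mem_filter] at hv ⊢
      refine ⟨hv.1, ?_⟩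
      have e2 : ε * Real.sqrt (D * l) ≤ ε * (2 * S) := by gcongr
      have e3 : (k₁ : ℝ) ≤ dg G v := by linarith [hv.2]
      exact_mod_cast e3
    have e2 : ((univ.filter (fun v => (D : ℝ) - ε * Real.sqrt (D * l) < dg G v)).card : ℝ) ≤
        (univ.filter (fun v => k₁ ≤ dg G v)).card := by exact_mod_cast e1
    refine (e2.trans hfew.le).trans ?_
    apply Real.rpow_le_rpow_of_exponent_le hn1
    linarith
  constructor
  · intro D hD1 hD2 L hsym hL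
    obtain ⟨b1, b2, b3, b4⟩ := key D hD1 hD2
    rw [hl] at b1 b4
    refine hNa n hnNa G D hD1 b1 (b3.trans ?_) (b4 κa hκa2) (fun X hX => hsp X (hX.trans ?_)) L hsym hL
    · exact Real.rpow_le_rpow_of_exponent_le hn1 hκκa
    · have : (n : ℝ) ^ (1 - κa) ≤ (n : ℝ) ^ (1 - κ) :=
        Real.rpow_le_rpow_of_exponent_le hn1 (by linarith)
      linarith
  · intro D hD1 hD2 H hH k hk
    refine hNb n hnNb G ?_ D hD1 hD2 H hH k hk
    intro D' hD1' hD2'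
    obtain ⟨b1, b2, b3, b4⟩ := key D' hD1' hD2'
    rw [hl] at b2 b4
    refine ⟨b2, b3.trans ?_, b4 κb (by linarith), fun X hX => hsp X (hX.trans ?_)⟩
    · exact Real.rpow_le_rpow_of_exponent_le hn1 hκκb
    · have : (n : ℝ) ^ (1 - κb) ≤ (n : ℝ) ^ (1 - κ) :=
        Real.rpow_le_rpow_of_exponent_le hn1 (by linarith)
      linarith

set_option maxHeartbeats 4000000 in
/-- random subgraphs of dense graphs, with very small failure probability -/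
theorem mid_strong (γ : ℝ) (hγ0 : 0 < γ) (hγ1 : γ ≤ 1) : ∃ C₂ : ℝ, 1 ≤ C₂ ∧
    ∃ N : ℕ, ∀ n : ℕ, N ≤ n → ∀ (B : SimpleGraph (Fin n)) (p : ℝ) (v₀ : Fin n),
      (∀ v, dg B v ≤ dg B v₀) → γ * n ≤ dg B v₀ → C₂ * Real.log n ≤ p * dg B v₀ →
      p * dg B v₀ ≤ Real.log n ^ 4 →
      pb (qB B p) (fun G => ¬ (Gd G ∧ GdTot G)) ≤ 1 / (n : ℝ) ^ 6 := by
  classical
  obtain ⟨η, hη⟩ : ∃ η : ℝ, η = 1 / 2 := ⟨_, rfl⟩
  have hη0 : 0 < η := by rw [hη]; norm_num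
  obtain ⟨ε, hε⟩ : ∃ ε : ℝ, ε = η / 100000 := ⟨_, rfl⟩
  have hε0 : 0 < ε := by rw [hε]; positivity
  have hε1 : 8 * ε ≤ 1 := by rw [hε, hη]; norm_num
  obtain ⟨κ, hκ0, hκ4, hdet⟩ := det_mid ε hε0 (by linarith)
  obtain ⟨A, hA⟩ : ∃ A : ℝ, A = 80 / κ := ⟨_, rfl⟩
  have hA0 : 0 < A := by rw [hA]; positivity
  obtain ⟨C, hC0, N₁, h₁⟩ := hdet A hA0
  obtain ⟨N, hN⟩ := Filter.eventually_atTop.1
    ((ev_log (4 + 90 / ε)).and ((ev_log3 18 (1 / 50) (by norm_num) (by norm_num)).and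
      ((ev_const (64 / (ε ^ 2 * γ) + 2) (3 / 100) (by norm_num)).and
      ((ev_const (100 + (46).factorial * 2 ^ 46) (1 / 50) (by norm_num)).and
      ((ev_log3 1 (κ / 8) (by norm_num) (by positivity)).and
      ((ev_const (9 / γ + 2 + 2 / γ) (κ / 8) (by positivity)).and
        (Filter.eventually_ge_atTop (max N₁ 8))))))))
  refine ⟨11000000000000 + C, by linarith, N, fun n hn B p v₀ hmax hγn hμC hμl => ?_⟩
  obtain ⟨v1, v2, v3, v4, v5, v5', v6⟩ := hN n hn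
  have hnN₁ : N₁ ≤ n := le_trans (le_max_left _ _) v6
  have hn8 : 8 ≤ n := le_trans (le_max_right _ _) v6
  have hn8r : (8 : ℝ) ≤ n := by exact_mod_cast hn8
  have hn1 : 1 ≤ n := by omega
  have hn0 : (0 : ℝ) < n := by linarith
  have hnr : (1 : ℝ) ≤ n := by linarith
  obtain ⟨l, hl⟩ : ∃ l : ℝ, l = Real.log n := ⟨_, rfl⟩
  rw [← hl] at v1 v2 v5 hμl hμC
  have hεp : 0 < 90 / ε := by positivity
  have hl4 : 4 ≤ l := by linarith
  have hl0 : 0 < l := by linarith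
  have hl1 : 1 ≤ l := by linarith
  have hlε : 90 ≤ ε * l := by
    have : 90 / ε ≤ l := by linarith
    rw [div_le_iff₀ hε0] at this
    linarith
  obtain ⟨μ, hμ⟩ : ∃ μ : ℝ, μ = p * dg B v₀ := ⟨_, rfl⟩
  rw [← hμ] at hμl hμC
  have hCl : 0 < C * l := by positivity
  have hμC' : 11000000000000 * l + C * l ≤ μ := by linarith
  have hμbig : 11000000000000 * l ≤ μ := by linarith
  have hμC'' : C * l ≤ μ := by linarith
  have hμ0 : 0 < μ := by linarith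
  have hp0 : 0 < p := by
    by_contra hcon
    push Not at hcon
    have : p * dg B v₀ ≤ 0 := mul_nonpos_of_nonpos_of_nonneg hcon (Nat.cast_nonneg _)
    linarith
  have hγμ : γ * p * n ≤ μ := by
    calc γ * p * n = p * (γ * n) := by ring
      _ ≤ p * dg B v₀ := by gcongr
      _ = μ := hμ.symm
  -- powers of `n`
  have hl4n : l ^ 4 ≤ (n : ℝ) ^ (κ / 4) := by
    have e1 : 1 * l ^ 3 ≤ (n : ℝ) ^ (κ / 8) := v5
    have e2 : l ≤ (n : ℝ) ^ (κ / 8) := by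
      have : l ≤ l ^ 3 := by
        calc l = l * 1 := (mul_one l).symm
          _ ≤ l * l ^ 2 := by
              gcongr
              exact one_le_pow₀ hl1
          _ = l ^ 3 := by ring
      linarith
    calc l ^ 4 = (1 * l ^ 3) * l := by ring
      _ ≤ (n : ℝ) ^ (κ / 8) * (n : ℝ) ^ (κ / 8) := by gcongr
      _ = (n : ℝ) ^ (κ / 4) := rp_mul n hn0 _ _ _ (by ring)
  have hp2 : p ≤ 1 / γ * (n : ℝ) ^ (κ / 4 - 1) := by
    have e1 : γ * p * n ≤ (n : ℝ) ^ (κ / 4) := hγμ.trans (hμl.trans hl4n)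
    have e2 : (n : ℝ) ^ (κ / 4 - 1) * n = (n : ℝ) ^ (κ / 4) := by
      nth_rewrite 2 [← Real.rpow_one (n : ℝ)]
      exact rp_mul n hn0 _ _ _ (by ring)
    rw [div_mul_eq_mul_div, one_mul, le_div_iff₀ hγ0]
    have e3 : (p * γ) * n ≤ (n : ℝ) ^ (κ / 4 - 1) * n := by
      rw [e2]
      linarith
    exact le_of_mul_le_mul_right e3 hn0
  have hpη : p ≤ 1 - η := by
    have e1 : 2 / γ ≤ (n : ℝ) ^ (κ / 8) := by
      have : 0 < 9 / γ := by positivity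
      linarith
    have e2 : 1 / γ * (n : ℝ) ^ (κ / 4 - 1) ≤ 1 / 2 := by
      have e3 : (n : ℝ) ^ (κ / 8) * (n : ℝ) ^ (κ / 4 - 1) ≤ 1 := by
        rw [rp_mul n hn0 _ _ _ rfl]
        exact Real.rpow_le_one_of_one_le_of_nonpos hnr (by linarith)
      have e4 : 2 / γ * (n : ℝ) ^ (κ / 4 - 1) ≤ 1 := by
        refine le_trans ?_ e3
        gcongr
      have e5 : 2 / γ * (n : ℝ) ^ (κ / 4 - 1) = 2 * (1 / γ * (n : ℝ) ^ (κ / 4 - 1)) := by ring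
      linarith
    rw [hη]
    linarith
  have hp1 : p ≤ 1 := by linarith
  have hq := qB_01 B p hp0.le hp1
  have hμv : ∀ v, p * (cS (sU v univ) B : ℝ) ≤ μ := by
    intro v
    rw [cS_univ, hμ]
    have : (dg B v : ℝ) ≤ dg B v₀ := by exact_mod_cast hmax v
    gcongr
  have hμ₀ : p * (cS (sU v₀ univ) B : ℝ) = μ := by rw [cS_univ, hμ]
  obtain ⟨S, hS⟩ : ∃ S : ℝ, S = Real.sqrt (μ * l) := ⟨_, rfl⟩
  have hS0 : 0 < S := by rw [hS]; positivity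
  have hSS : S ^ 2 = μ * l := by rw [hS]; exact Real.sq_sqrt (by positivity)
  have hSl : l ≤ S := by
    rw [hS]
    apply Real.le_sqrt_of_sq_le
    calc l ^ 2 = l * l := by ring
      _ ≤ μ * l := by
          gcongr
          linarith
  have hS3 : 3200000 * S ≤ μ := by
    have e1 : (3200000 * S) ^ 2 ≤ μ ^ 2 := by
      rw [mul_pow, hSS]
      calc (3200000 : ℝ) ^ 2 * (μ * l) = μ * (10240000000000 * l) := by ring
        _ ≤ μ * μ := by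
            gcongr
            linarith
        _ = μ ^ 2 := by ring
    exact (sq_le_sq₀ (by positivity) hμ0.le).1 e1
  have hηS : 100 * S ≤ μ * η := by
    rw [hη]
    linarith
  have hεS2 : 16 * S ≤ ε * μ := by
    rw [hε, hη]
    linarith
  have hεS : 90 ≤ ε * S := by
    calc (90 : ℝ) ≤ ε * l := hlε
      _ ≤ ε * S := by gcongr
  -- the parameters
  obtain ⟨u, hu⟩ : ∃ u : ℕ, u = ⌊(n : ℝ) ^ ((97 : ℝ) / 100)⌋₊ := ⟨_, rfl⟩
  have hx97 : (1 : ℝ) ≤ (n : ℝ) ^ ((97 : ℝ) / 100) := Real.one_le_rpow hnr (by norm_num)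
  have hu1 : (u : ℝ) ≤ (n : ℝ) ^ ((97 : ℝ) / 100) := by
    rw [hu]
    exact Nat.floor_le (by linarith)
  have hu2 : (n : ℝ) ^ ((97 : ℝ) / 100) / 2 ≤ u := by
    have e1 : (n : ℝ) ^ ((97 : ℝ) / 100) < u + 1 := by
      rw [hu]
      exact Nat.lt_floor_add_one _
    have e2 : (1 : ℝ) ≤ u := by
      rw [hu]
      exact_mod_cast Nat.le_floor (by exact_mod_cast hx97)
    linarith
  have hun : u ≤ n := by
    have : (u : ℝ) ≤ n := by
      refine hu1.trans ?_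
      calc (n : ℝ) ^ ((97 : ℝ) / 100) ≤ (n : ℝ) ^ (1 : ℝ) :=
            Real.rpow_le_rpow_of_exponent_le hnr (by norm_num)
        _ = n := Real.rpow_one _
    exact_mod_cast this
  have huμ : p * u ≤ ε ^ 2 * μ / 32 := by
    have e1 : (n : ℝ) ^ ((97 : ℝ) / 100) * (n : ℝ) ^ ((3 : ℝ) / 100) = n := by
      rw [rp_mul n hn0 _ _ 1 (by norm_num), Real.rpow_one]
    have e2 : 32 / (ε ^ 2 * γ) ≤ (n : ℝ) ^ ((3 : ℝ) / 100) := by
      refine le_trans ?_ v3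
      have : 32 / (ε ^ 2 * γ) ≤ 64 / (ε ^ 2 * γ) := by
        gcongr
        norm_num
      linarith
    have e3 : 32 * (n : ℝ) ^ ((97 : ℝ) / 100) ≤ ε ^ 2 * γ * n := by
      rw [div_le_iff₀ (by positivity)] at e2
      calc 32 * (n : ℝ) ^ ((97 : ℝ) / 100) ≤
          ((n : ℝ) ^ ((3 : ℝ) / 100) * (ε ^ 2 * γ)) * (n : ℝ) ^ ((97 : ℝ) / 100) := by gcongr
        _ = ε ^ 2 * γ * ((n : ℝ) ^ ((97 : ℝ) / 100) * (n : ℝ) ^ ((3 : ℝ) / 100)) := by ring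
        _ = ε ^ 2 * γ * n := by rw [e1]
    calc p * u ≤ p * (n : ℝ) ^ ((97 : ℝ) / 100) := by gcongr
      _ = p * (32 * (n : ℝ) ^ ((97 : ℝ) / 100)) / 32 := by ring
      _ ≤ p * (ε ^ 2 * γ * n) / 32 := by gcongr
      _ = ε ^ 2 * (γ * p * n) / 32 := by ring
      _ ≤ ε ^ 2 * μ / 32 := by gcongr
  obtain ⟨b, hb⟩ : ∃ b : ℝ, b = (n : ℝ) ^ ((1 : ℝ) / 20) := ⟨_, rfl⟩
  have hb1 : 1 ≤ b := by rw [hb]; exact Real.one_le_rpow hnr (by norm_num)
  have hbn : b ≤ n := by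
    rw [hb]
    calc (n : ℝ) ^ ((1 : ℝ) / 20) ≤ (n : ℝ) ^ (1 : ℝ) :=
          Real.rpow_le_rpow_of_exponent_le hnr (by norm_num)
      _ = n := Real.rpow_one _
  have hub : 9 * l ≤ u / n * b := by
    have e1 : 18 * l ≤ (n : ℝ) ^ ((1 : ℝ) / 50) := by
      refine le_trans ?_ v2
      have : l ≤ l ^ 3 := by
        calc l = l * 1 := (mul_one l).symm
          _ ≤ l * l ^ 2 := by
              gcongr
              exact one_le_pow₀ hl1
          _ = l ^ 3 := by ring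
      linarith
    have e2 : (n : ℝ) ^ ((97 : ℝ) / 100) / 2 / n * b = (n : ℝ) ^ ((1 : ℝ) / 50) / 2 := by
      have e3 : (n : ℝ) ^ ((97 : ℝ) / 100) * (n : ℝ) ^ ((1 : ℝ) / 20) =
          (n : ℝ) ^ ((1 : ℝ) / 50) * n := by
        have e4 : (n : ℝ) ^ ((1 : ℝ) / 50) * n = (n : ℝ) ^ ((1 : ℝ) / 50) * (n : ℝ) ^ (1 : ℝ) := by
          rw [Real.rpow_one]
        rw [e4, rp_mul n hn0 _ _ _ rfl, rp_mul n hn0 _ _ _ rfl]
        congr 1
        norm_num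
      rw [hb, div_div, div_mul_eq_mul_div, e3]
      field_simp
    calc 9 * l = 18 * l / 2 := by ring
      _ ≤ (n : ℝ) ^ ((1 : ℝ) / 50) / 2 := by gcongr
      _ = (n : ℝ) ^ ((97 : ℝ) / 100) / 2 / n * b := e2.symm
      _ ≤ u / n * b := by gcongr
  obtain ⟨b2, hb2⟩ : ∃ b2 : ℝ, b2 = Real.exp (3000 * ε / η * l) * b + 1 := ⟨_, rfl⟩
  have hb2n : b2 ≤ (n : ℝ) ^ ((1 : ℝ) / 10) := by
    have e1 : Real.exp (3000 * ε / η * l) = (n : ℝ) ^ ((3 : ℝ) / 100) := by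
      rw [Real.rpow_def_of_pos hn0, ← hl, hε]
      congr 1
      field_simp
      norm_num
    have e2 : (2 : ℝ) ≤ (n : ℝ) ^ ((1 : ℝ) / 50) := by
      refine le_trans ?_ v4
      have : (0 : ℝ) ≤ (46).factorial * 2 ^ 46 := by positivity
      linarith
    have e3 : (n : ℝ) ^ ((3 : ℝ) / 100) * (n : ℝ) ^ ((1 : ℝ) / 20) = (n : ℝ) ^ ((2 : ℝ) / 25) :=
      rp_mul n hn0 _ _ _ (by norm_num)
    have e4 : (1 : ℝ) ≤ (n : ℝ) ^ ((2 : ℝ) / 25) := Real.one_le_rpow hnr (by norm_num)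
    rw [hb2, e1, hb, e3]
    calc (n : ℝ) ^ ((2 : ℝ) / 25) + 1 ≤ 2 * (n : ℝ) ^ ((2 : ℝ) / 25) := by linarith
      _ ≤ (n : ℝ) ^ ((1 : ℝ) / 50) * (n : ℝ) ^ ((2 : ℝ) / 25) := by gcongr
      _ = (n : ℝ) ^ ((1 : ℝ) / 10) := rp_mul n hn0 _ _ _ (by norm_num)
  obtain ⟨k₁, hk₁, hk₂⟩ := threshold B p η μ S hp0 hη0 hpη hμ0 hμv hS0 (by rw [← hl]; exact hSS)
    ε hε0 hε1 46 (by norm_num; linarith) v₀ hμ₀ b b2 hb1 hbn (by rw [← hl]; exact hb2) hηS hεS2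
    (by rw [← hl]; exact hl1) u hun huμ (by rw [← hl]; exact hub)
  -- the events
  have hE2 : pb (qB B p) (fun G => ∃ v ∈ (univ : Finset (Fin n)), 2 * μ < dg G v) ≤
      1 / (n : ℝ) ^ 8 := by
    refine (pb_exists_le (qB B p) hq univ (fun v G => 2 * μ < dg G v)).trans ?_
    have e1 : ∀ v ∈ (univ : Finset (Fin n)), pb (qB B p) (fun G => 2 * μ < dg G v) ≤
        1 / (n : ℝ) ^ 9 := by
      intro v _
      have e2 := TS_far6 B p η μ S hp0 hη0 hpη hμ0 hμv hS0 (by rw [← hl]; exact hSS) v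
        ⌈μ + 6 * S⌉₊ (by
          have := Nat.le_ceil (μ + 6 * S)
          have := hμv v
          linarith) (by nlinarith)
      have e3 : Real.exp (-(9 * Real.log n)) = 1 / (n : ℝ) ^ 9 := by
        have := exp_npow (n := n) hn1 9
        push_cast at this
        exact this
      rw [e3] at e2
      refine le_trans ?_ e2
      apply pb_mono _ hq
      intro G hG
      rw [cS_univ]
      apply Nat.ceil_le.2
      have : 6 * S ≤ μ := by nlinarith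
      linarith
    refine (sum_le_sum e1).trans ?_
    rw [sum_const, card_univ, Fintype.card_fin, nsmul_eq_mul]
    apply le_of_eq
    field_simp
  have hFF : FF (qB B p) (k₁ - 46) ≤ (n : ℝ) ^ ((1 : ℝ) / 10) := hk₁.trans hb2n
  have hFF0 : 0 ≤ FF (qB B p) (k₁ - 46) := sum_nonneg fun v _ => TS_nonneg _ hq _ _
  have hE4 : pb (qB B p) (fun G => (n : ℝ) ^ ((3 : ℝ) / 10) ≤
      ((univ.filter (fun v => k₁ ≤ dg G v)).card : ℝ)) ≤ 1 / (n : ℝ) ^ 7 := by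
    have e0 : (100 : ℝ) ≤ (n : ℝ) ^ ((3 : ℝ) / 10) := by
      have e1 : (n : ℝ) ^ ((1 : ℝ) / 50) ≤ (n : ℝ) ^ ((3 : ℝ) / 10) :=
        Real.rpow_le_rpow_of_exponent_le hnr (by norm_num)
      have : (0 : ℝ) ≤ (46).factorial * 2 ^ 46 := by positivity
      linarith
    have e1 := count_moment (qB B p) hq 46 k₁ ((n : ℝ) ^ ((3 : ℝ) / 10)) (by norm_num; linarith)
      (by positivity)
    refine e1.trans ?_
    have e2 : 2 * FF (qB B p) (k₁ - 46) / (n : ℝ) ^ ((3 : ℝ) / 10) ≤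
        2 * (n : ℝ) ^ (-(1 : ℝ) / 5) := by
      rw [div_le_iff₀ (by positivity)]
      have e3 : (n : ℝ) ^ (-(1 : ℝ) / 5) * (n : ℝ) ^ ((3 : ℝ) / 10) = (n : ℝ) ^ ((1 : ℝ) / 10) :=
        rp_mul n hn0 _ _ _ (by norm_num)
      calc 2 * FF (qB B p) (k₁ - 46) ≤ 2 * (n : ℝ) ^ ((1 : ℝ) / 10) := by gcongr
        _ = 2 * (n : ℝ) ^ (-(1 : ℝ) / 5) * (n : ℝ) ^ ((3 : ℝ) / 10) := by rw [mul_assoc, e3]
    have e4 : ((n : ℝ) ^ (-(1 : ℝ) / 5)) ^ 46 = (n : ℝ) ^ (-(46 : ℝ) / 5) := by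
      rw [← Real.rpow_natCast, ← Real.rpow_mul hn0.le]
      congr 1
      norm_num
    have e5 : ((46).factorial : ℝ) * 2 ^ 46 ≤ (n : ℝ) ^ ((1 : ℝ) / 50) := by linarith
    calc ((46).factorial : ℝ) * (2 * FF (qB B p) (k₁ - 46) / (n : ℝ) ^ ((3 : ℝ) / 10)) ^ 46 ≤
        ((46).factorial : ℝ) * (2 * (n : ℝ) ^ (-(1 : ℝ) / 5)) ^ 46 := by gcongr
      _ = (((46).factorial : ℝ) * 2 ^ 46) * (n : ℝ) ^ (-(46 : ℝ) / 5) := by
          rw [mul_pow, e4]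
          ring
      _ ≤ (n : ℝ) ^ ((1 : ℝ) / 50) * (n : ℝ) ^ (-(46 : ℝ) / 5) := by gcongr
      _ = (n : ℝ) ^ ((1 : ℝ) / 50 + -(46 : ℝ) / 5) := rp_mul n hn0 _ _ _ rfl
      _ ≤ (n : ℝ) ^ (-(7 : ℝ)) := by
          apply Real.rpow_le_rpow_of_exponent_le hnr
          norm_num
      _ = 1 / (n : ℝ) ^ 7 := by
          rw [Real.rpow_neg hn0.le, one_div]
          congr 1
          exact_mod_cast Real.rpow_natCast (n : ℝ) 7
  have hE6 : pb (qB B p) (fun G => (dg G v₀ : ℝ) < μ / 2) ≤ 1 / (n : ℝ) ^ 9 := by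
    have e1 := cS_lower (qB B p) hq (sU v₀ univ) μ (6 * S) hμ0 (by rw [qs_qB, hμ₀])
      (by linarith) (by nlinarith)
    have e2 : Real.exp (-((6 * S) ^ 2) / (4 * μ)) = 1 / (n : ℝ) ^ 9 := by
      have e3 : -((6 * S) ^ 2) / (4 * μ) = -((9 : ℕ) * Real.log n) := by
        have e4 : -((6 * S) ^ 2) = -(36 * (S ^ 2)) := by ring
        rw [e4, hSS, hl]
        push_cast
        field_simp
        ring
      rw [e3, exp_npow hn1]
    rw [e2] at e1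
    refine le_trans ?_ e1
    apply pb_mono _ hq
    intro G hG
    rw [qs_qB, hμ₀, cS_univ]
    have : 12 * S ≤ μ := by nlinarith
    linarith
  -- local sparsity
  have hE7 := sparse_all9 (qB B p) hq p (qB_le B p hp0.le) A (κ / 8 * l) (9 * (n : ℝ) ^ (1 - κ))
    (by positivity) (by omega)
    (by
      have e1 : 2 * (κ / 8 * l) = l * (κ / 4) := by ring
      have e2 : Real.exp (l * (κ / 4)) = (n : ℝ) ^ (κ / 4) := by
        rw [Real.rpow_def_of_pos hn0, hl]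
      have e3 : 9 / γ ≤ (n : ℝ) ^ (κ / 8) := by
        have : 0 < 2 / γ := by positivity
        linarith
      rw [e1, e2]
      calc p * (n : ℝ) ^ (κ / 4) * (9 * (n : ℝ) ^ (1 - κ)) / 2 ≤
          (1 / γ * (n : ℝ) ^ (κ / 4 - 1)) * (n : ℝ) ^ (κ / 4) * (9 * (n : ℝ) ^ (1 - κ)) / 2 := by
            gcongr
        _ = (9 / γ) * ((n : ℝ) ^ (κ / 4 - 1) * (n : ℝ) ^ (κ / 4) * (n : ℝ) ^ (1 - κ)) / 2 := by ring
        _ = (9 / γ) * (n : ℝ) ^ (-(κ / 2)) / 2 := by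
            rw [rp_mul n hn0 _ _ _ rfl, rp_mul n hn0 _ _ (-(κ / 2)) (by ring)]
        _ ≤ (n : ℝ) ^ (κ / 8) * (n : ℝ) ^ (-(κ / 2)) / 2 := by gcongr
        _ = (n : ℝ) ^ (κ / 8 + -(κ / 2)) / 2 := by rw [rp_mul n hn0 _ _ _ rfl]
        _ ≤ 1 / 2 := by
            have := Real.rpow_le_one_of_one_le_of_nonpos (x := (n : ℝ)) (z := κ / 8 + -(κ / 2)) hnr
              (by linarith)
            linarith
        _ ≤ 1 := by norm_num)
    (by
      rw [← hl, hA]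
      apply le_of_eq
      field_simp
      norm_num)
  have hμn : 2 * μ ≤ (n : ℝ) ^ κ := by
    have e1 : (2 : ℝ) ≤ (n : ℝ) ^ (κ / 8) := by
      have p1 : 0 < 9 / γ := by positivity
      have p2 : 0 < 2 / γ := by positivity
      linarith
    calc 2 * μ ≤ (n : ℝ) ^ (κ / 8) * (n : ℝ) ^ (κ / 4) := by
          have := hμl.trans hl4n
          gcongr
      _ = (n : ℝ) ^ (κ / 8 + κ / 4) := rp_mul n hn0 _ _ _ rfl
      _ ≤ (n : ℝ) ^ κ := Real.rpow_le_rpow_of_exponent_le hnr (by linarith)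
  -- everything together
  have hall : pb (qB B p) (fun G => ¬ (Gd G ∧ GdTot G)) ≤
      pb (qB B p) (fun G => ((∀ v, (dg G v : ℝ) < k₁ + 2 * ε * S) ∨
        (∃ v ∈ (univ : Finset (Fin n)), 2 * μ < dg G v)) ∨
        ((¬ ∀ X : Finset (Fin n), (X.card : ℝ) ≤ 9 * (n : ℝ) ^ (1 - κ) → e2 G X ≤ A * X.card) ∨
        ((n : ℝ) ^ ((3 : ℝ) / 10) ≤ ((univ.filter (fun v => k₁ ≤ dg G v)).card : ℝ))) ∨
        (dg G v₀ : ℝ) < μ / 2) := by
    apply pb_mono _ hq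
    intro G hG
    by_contra hcon
    rw [not_or, not_or, not_or, not_or, not_not] at hcon
    obtain ⟨⟨g1, g2⟩, ⟨g3, g4⟩, g6⟩ := hcon
    push Not at g1 g2 g4 g6
    apply hG
    have hup : ∀ v, (dg G v : ℝ) ≤ 2 * μ := fun v => g2 v (mem_univ v)
    exact h₁ n hnN₁ G μ S k₁ hμ0 (by rw [← hl]; exact hμC'') (by rw [← hl]; exact hS) hμn g1 hup
      ⟨v₀, g6⟩ g4 g3
  have s1 := pb_or_le (qB B p) hq (fun G => (∀ v, (dg G v : ℝ) < k₁ + 2 * ε * S))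
    (fun G => (∃ v ∈ (univ : Finset (Fin n)), 2 * μ < dg G v))
  have s2 := pb_or_le (qB B p) hq (fun G => (¬ ∀ X : Finset (Fin n),
      (X.card : ℝ) ≤ 9 * (n : ℝ) ^ (1 - κ) → e2 G X ≤ A * X.card))
    (fun G => (n : ℝ) ^ ((3 : ℝ) / 10) ≤ ((univ.filter (fun v => k₁ ≤ dg G v)).card : ℝ))
  have s4 := pb_or_le (qB B p) hq (fun G => (¬ ∀ X : Finset (Fin n),
      (X.card : ℝ) ≤ 9 * (n : ℝ) ^ (1 - κ) → e2 G X ≤ A * X.card) ∨
      ((n : ℝ) ^ ((3 : ℝ) / 10) ≤ ((univ.filter (fun v => k₁ ≤ dg G v)).card : ℝ)))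
    (fun G => (dg G v₀ : ℝ) < μ / 2)
  have s5 := pb_or_le (qB B p) hq (fun G => (∀ v, (dg G v : ℝ) < k₁ + 2 * ε * S) ∨
        (∃ v ∈ (univ : Finset (Fin n)), 2 * μ < dg G v))
    (fun G => ((¬ ∀ X : Finset (Fin n),
      (X.card : ℝ) ≤ 9 * (n : ℝ) ^ (1 - κ) → e2 G X ≤ A * X.card) ∨
      ((n : ℝ) ^ ((3 : ℝ) / 10) ≤ ((univ.filter (fun v => k₁ ≤ dg G v)).card : ℝ))) ∨
      (dg G v₀ : ℝ) < μ / 2)
  have t0 : 0 < 1 / (n : ℝ) ^ 7 := by positivity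
  have t1 : 1 / (n : ℝ) ^ 8 ≤ 1 / (n : ℝ) ^ 7 := by
    apply div_le_div_of_nonneg_left zero_le_one (by positivity)
    exact pow_le_pow_right₀ hnr (by norm_num)
  have t2 : 1 / (n : ℝ) ^ 9 ≤ 1 / (n : ℝ) ^ 7 := by
    apply div_le_div_of_nonneg_left zero_le_one (by positivity)
    exact pow_le_pow_right₀ hnr (by norm_num)
  have t3 : 3 / (n : ℝ) ^ 7 = 3 * (1 / (n : ℝ) ^ 7) := by ring
  have t4 : 8 * (1 / (n : ℝ) ^ 7) ≤ 1 / (n : ℝ) ^ 6 := by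
    calc 8 * (1 / (n : ℝ) ^ 7) ≤ n * (1 / (n : ℝ) ^ 7) := by gcongr
      _ = 1 / (n : ℝ) ^ 6 := by field_simp
  linarith

end Pool.Agent.W2helper87.RP
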