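import Pool.Agent.W2helper87.RP.Mom

/-!
# Random orderings of the edges
-/

set_option autoImplicit false

namespace Pool.Agent.W2helper87.RP

open Finset Pool.Agent.H162R2.Sparse Pool.Agent.H162R2.AG Pool.Agent.W2helper87.SR
open Pool.Agent.W2helper87.FR Pool.Agent.W2helper87.LD

section

variable {α : Type} [Fintype α] [DecidableEq α]

theorem fiber_le (N m : ℕ) (S S' : Finset α) (h : S.card = S'.card) :
    (univ.filter (fun σ : α ≃ Fin N => univ.filter (fun x => (σ x : ℕ) < m) = S)).card ≤
      (univ.filter (fun σ : α ≃ Fin N => univ.filter (fun x => (σ x : ℕ) < m) = S')).card := by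
  obtain ⟨e⟩ : Nonempty ({x // x ∈ S} ≃ {x // x ∈ S'}) := ⟨S.equivOfCardEq h⟩
  let τ : Equiv.Perm α := e.extendSubtype
  have hτ : ∀ x, x ∈ S ↔ τ x ∈ S' := by
    intro x
    constructor
    · intro hx
      exact e.extendSubtype_mem x hx
    · intro hx
      by_contra hcon
      exact e.extendSubtype_not_mem x hcon hx
  refine card_le_card_of_injOn (fun σ => τ.symm.trans σ) ?_ ?_
  · intro σ hσ
    rw [mem_coe, mem_filter] at hσ ⊢
    refine ⟨mem_univ _, ?_⟩
    ext x
    rw [mem_filter]
    have h1 : τ.symm x ∈ S ↔ (σ (τ.symm x) : ℕ) < m := by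
      rw [← hσ.2, mem_filter]
      simp
    have h2 := hτ (τ.symm x)
    rw [Equiv.apply_symm_apply] at h2
    rw [← h2, h1]
    simp
  · intro σ _ σ' _ h
    have h1 : τ.symm.trans σ = τ.symm.trans σ' := h
    ext x
    have h2 := congrArg (fun f => f (τ x)) h1
    simp only [Equiv.trans_apply, Equiv.symm_apply_apply] at h2
    rw [h2]

omit [DecidableEq α] in
theorem card_initial (N m : ℕ) (hm : m ≤ N) (σ : α ≃ Fin N) :
    (univ.filter (fun x => (σ x : ℕ) < m)).card = m := by
  have h1 : (univ.filter (fun x => (σ x : ℕ) < m)).card =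
      (univ.filter (fun i : Fin N => (i : ℕ) < m)).card := by
    apply card_bij (fun x _ => σ x)
    · intro x hx
      rw [mem_filter] at hx ⊢
      exact ⟨mem_univ _, hx.2⟩
    · intro x _ y _ h
      exact σ.injective h
    · intro i hi
      rw [mem_filter] at hi
      refine ⟨σ.symm i, ?_, by simp⟩
      rw [mem_filter]
      refine ⟨mem_univ _, ?_⟩
      rw [Equiv.apply_symm_apply]
      exact hi.2
  rw [h1]
  have h2 : (univ.filter (fun i : Fin N => (i : ℕ) < m)).card = (range m).card := by
    refine card_bij (fun (i : Fin N) _ => (i : ℕ)) ?_ ?_ ?_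
    · intro i hi
      rw [mem_filter] at hi
      exact mem_range.2 hi.2
    · intro i _ j _ h
      exact Fin.ext h
    · intro i hi
      rw [mem_range] at hi
      exact ⟨⟨i, by omega⟩, by rw [mem_filter]; exact ⟨mem_univ _, hi⟩, rfl⟩
  rw [h2, card_range]

theorem count_orders (N m : ℕ) (hN : Fintype.card α = N) (hm : m ≤ N) (P : Finset α → Prop)
    [DecidablePred P] :
    (univ.filter (fun σ : α ≃ Fin N => P (univ.filter (fun x => (σ x : ℕ) < m)))).card *
      N.choose m = N.factorial * (((univ : Finset α).powersetCard m).filter P).card := by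
  let F : Finset α → ℕ := fun S =>
    (univ.filter (fun σ : α ≃ Fin N => univ.filter (fun x => (σ x : ℕ) < m) = S)).card
  obtain ⟨S₀, -, hS₀⟩ := exists_subset_card_eq (s := (univ : Finset α)) (n := m) (by
    rw [card_univ, hN]
    exact hm)
  have hF : ∀ S ∈ (univ : Finset α).powersetCard m, F S = F S₀ := by
    intro S hS
    rw [mem_powersetCard] at hS
    exact le_antisymm (fiber_le N m S S₀ (by rw [hS.2, hS₀])) (fiber_le N m S₀ S (by rw [hS.2, hS₀]))
  have h1 : (univ.filter (fun σ : α ≃ Fin N => P (univ.filter (fun x => (σ x : ℕ) < m)))).card =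
      (((univ : Finset α).powersetCard m).filter P).card * F S₀ := by
    rw [card_eq_sum_card_fiberwise (f := fun σ : α ≃ Fin N => univ.filter (fun x => (σ x : ℕ) < m))
      (t := ((univ : Finset α).powersetCard m).filter P)]
    · have h2 : ∀ S ∈ ((univ : Finset α).powersetCard m).filter P,
          ((univ.filter (fun σ : α ≃ Fin N => P (univ.filter (fun x => (σ x : ℕ) < m)))).filter
            (fun σ => univ.filter (fun x => (σ x : ℕ) < m) = S)).card = F S₀ := by
        intro S hS
        rw [mem_filter] at hS
        rw [← hF S hS.1, filter_filter]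
        congr 1
        apply filter_congr
        intro σ _
        constructor
        · rintro ⟨_, h⟩
          exact h
        · intro h
          exact ⟨by rw [h]; exact hS.2, h⟩
      rw [sum_congr rfl h2, sum_const, smul_eq_mul]
    · intro σ hσ
      rw [mem_coe, mem_filter] at hσ
      rw [mem_coe, mem_filter, mem_powersetCard]
      exact ⟨⟨subset_univ _, card_initial N m hm σ⟩, hσ.2⟩
  have h2 : N.factorial = N.choose m * F S₀ := by
    have e1 : Fintype.card (α ≃ Fin N) = N.factorial := by
      have e : α ≃ Fin N := Fintype.equivFinOfCardEq hN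
      rw [Fintype.card_equiv e, hN]
    rw [← e1, ← card_univ,
      card_eq_sum_card_fiberwise (f := fun σ : α ≃ Fin N => univ.filter (fun x => (σ x : ℕ) < m))
      (t := (univ : Finset α).powersetCard m)]
    · have h2 : ∀ S ∈ (univ : Finset α).powersetCard m,
          ((univ : Finset (α ≃ Fin N)).filter
            (fun σ => univ.filter (fun x => (σ x : ℕ) < m) = S)).card = F S₀ := fun S hS => hF S hS
      rw [sum_congr rfl h2, sum_const, smul_eq_mul, card_powersetCard, card_univ, hN]
    · intro σ _
      rw [mem_coe, mem_powersetCard]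
      exact ⟨subset_univ _, card_initial N m hm σ⟩
  rw [h1, h2]
  ring

end

end Pool.Agent.W2helper87.RP
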