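import Pool.Agent.W2helper87.RP.Gd
import Pool.Agent.W2helper87.RP.Ord
import Pool.Agent.W2helper87.RP.Md

/-!
# The random graph process
-/

set_option autoImplicit false

namespace Pool.Agent.W2helper87.RP

open Finset Pool.Agent.H162R2.Sparse Pool.Agent.H162R2.AG Pool.Agent.W2helper87.SR
open Pool.Agent.W2helper87.FR Pool.Agent.W2helper87.LD Pool.Agent.W2helper87.TC

/-- the graph formed by the first `m` edges of `B` in the ordering `σ` -/
def stage {n N : ℕ} (B : SimpleGraph (Fin n)) (σ : B.edgeSet ≃ Fin N) (m : ℕ) :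
    SimpleGraph (Fin n) :=
  SimpleGraph.fromEdgeSet {e | ∃ h : e ∈ B.edgeSet, (σ ⟨e, h⟩ : ℕ) < m}

/-- the graph of a set of edges -/
def grS {n : ℕ} (B : SimpleGraph (Fin n)) (S : Finset B.edgeSet) : SimpleGraph (Fin n) :=
  SimpleGraph.fromEdgeSet {e | ∃ h : e ∈ B.edgeSet, (⟨e, h⟩ : B.edgeSet) ∈ S}

section

variable {n : ℕ} (B : SimpleGraph (Fin n))

theorem mem_grS (S : Finset B.edgeSet) (e : Sym2 (Fin n)) :
    e ∈ (grS B S).edgeSet ↔ ∃ h : e ∈ B.edgeSet, (⟨e, h⟩ : B.edgeSet) ∈ S := by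
  unfold grS
  rw [SimpleGraph.edgeSet_fromEdgeSet, Set.mem_sdiff]
  constructor
  · rintro ⟨h, _⟩
    exact h
  · rintro ⟨h, h'⟩
    exact ⟨⟨h, h'⟩, fun hd => B.not_isDiag_of_mem_edgeSet h hd⟩

theorem grS_le (S : Finset B.edgeSet) : grS B S ≤ B := by
  intro a b hab
  have h1 : s(a, b) ∈ (grS B S).edgeSet := hab
  rw [mem_grS] at h1
  exact h1.1

open Classical in
theorem cS_grS (S : Finset B.edgeSet) : cS univ (grS B S) = S.card := by
  unfold cS
  apply card_bij (fun (e : Pr n) (he : e ∈ univ.filter (fun e : Pr n => e.1 ∈ (grS B S).edgeSet)) =>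
    (⟨e.1, ((mem_grS B S e.1).1 (mem_filter.1 he).2).1⟩ : B.edgeSet))
  · intro e he
    exact ((mem_grS B S e.1).1 (mem_filter.1 he).2).2
  · intro e he e' he' h
    exact Subtype.ext (congrArg (fun x : B.edgeSet => x.1) h)
  · intro x hx
    refine ⟨⟨x.1, B.not_isDiag_of_mem_edgeSet x.2⟩, ?_, ?_⟩
    · rw [mem_filter]
      refine ⟨mem_univ _, ?_⟩
      rw [mem_grS]
      exact ⟨x.2, hx⟩
    · rfl

theorem grS_inj (S S' : Finset B.edgeSet) (h : grS B S = grS B S') : S = S' := by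
  ext x
  have h1 := mem_grS B S x.1
  have h2 := mem_grS B S' x.1
  rw [h] at h1
  constructor
  · intro hx
    obtain ⟨_, h3⟩ := h2.1 (h1.2 ⟨x.2, hx⟩)
    exact h3
  · intro hx
    obtain ⟨_, h3⟩ := h1.1 (h2.2 ⟨x.2, hx⟩)
    exact h3

theorem card_edges_le (Δ : ℕ) (hΔ : ∀ v, dg B v ≤ Δ) : cS univ B ≤ n * Δ := by
  classical
  have h1 : (univ.filter (fun e : Pr n => e.1 ∈ B.edgeSet)) ⊆
      (univ : Finset (Fin n)).biUnion (fun v => (sU v univ).filter (fun e => e.1 ∈ B.edgeSet)) := by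
    intro e he
    rw [mem_filter] at he
    rw [mem_biUnion]
    obtain ⟨⟨a, b⟩, hab⟩ := Sym2.mk_surjective e.1
    refine ⟨a, mem_univ _, ?_⟩
    rw [mem_filter, mem_sU]
    exact ⟨⟨b, mem_univ _, hab.symm⟩, he.2⟩
  have h2 : cS univ B ≤ ∑ v : Fin n, cS (sU v univ) B := by
    unfold cS
    refine (le_of_eq ?_).trans ((card_le_card h1).trans card_biUnion_le)
    congr
  refine h2.trans ?_
  calc ∑ v : Fin n, cS (sU v univ) B ≤ ∑ _v : Fin n, Δ := by
        apply sum_le_sum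
        intro v _
        rw [cS_univ]
        exact hΔ v
    _ = n * Δ := by
        rw [sum_const, card_univ, Fintype.card_fin, smul_eq_mul]

theorem dg_lt (v : Fin n) : dg B v ≤ n - 1 := by
  classical
  unfold dg
  have h1 : nb B v ⊆ univ.erase v := by
    intro w hw
    rw [mem_nb] at hw
    rw [mem_erase]
    exact ⟨hw.ne', mem_univ _⟩
  have h2 := card_le_card h1
  rw [card_erase_of_mem (mem_univ _), card_univ, Fintype.card_fin] at h2
  exact h2

open Classical in
/-- the number of orderings for which the graph at stage `m` is not good -/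
theorem stage_count (N m : ℕ) (hN : Fintype.card B.edgeSet = N) (hm0 : 0 < m) (hmN : m < N)
    (Good : SimpleGraph (Fin n) → Prop) (δ : ℝ)
    (h : pb (qB B (m / N)) (fun G => ¬ Good G) ≤ δ) :
    ((univ.filter (fun σ : B.edgeSet ≃ Fin N => ¬ Good (stage B σ m))).card : ℝ) ≤
      N.factorial * (((N : ℝ) + 1) * δ) := by
  have hcN : cS univ B = N := by
    rw [← hN, ← card_univ]
    have h1 := cS_grS B univ
    have h2 : grS B univ = B := by
      ext a b
      have h3 := mem_grS B univ s(a, b)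
      constructor
      · intro hab
        exact (h3.1 hab).1
      · intro hab
        exact h3.2 ⟨hab, mem_univ _⟩
    rw [h2] at h1
    exact h1
  let P : Finset B.edgeSet → Prop := fun S => ¬ Good (grS B S)
  have h1 := count_orders (α := B.edgeSet) N m hN hmN.le P
  have h2 : ∀ σ : B.edgeSet ≃ Fin N, stage B σ m = grS B (univ.filter (fun x => (σ x : ℕ) < m)) := by
    intro σ
    unfold stage grS
    congr 1
    ext e
    simp
  have h3 : (((univ : Finset B.edgeSet).powersetCard m).filter P).card ≤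
      (univ.filter (fun G : SimpleGraph (Fin n) => G ≤ B ∧ cS univ G = m ∧ ¬ Good G)).card := by
    refine card_le_card_of_injOn (fun S => grS B S) ?_ ?_
    · intro S hS
      rw [mem_coe, mem_filter, mem_powersetCard] at hS
      rw [mem_coe, mem_filter]
      exact ⟨mem_univ _, grS_le B S, by rw [cS_grS, hS.1.2], hS.2⟩
    · intro S _ S' _ h
      exact grS_inj B S S' h
  have h4 : (univ.filter (fun G : SimpleGraph (Fin n) => G ≤ B ∧ cS univ G = m)).card ≤
      N.choose m := by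
    have h5 : ((univ : Finset B.edgeSet).powersetCard m).card = N.choose m := by
      rw [card_powersetCard, card_univ, hN]
    rw [← h5]
    have h6 : ∀ G : SimpleGraph (Fin n), G ≤ B →
        grS B (univ.filter (fun x : B.edgeSet => x.1 ∈ G.edgeSet)) = G := by
      intro G hG
      ext a b
      have h3 := mem_grS B (univ.filter (fun x : B.edgeSet => x.1 ∈ G.edgeSet)) s(a, b)
      constructor
      · intro hab
        obtain ⟨_, h4⟩ := h3.1 hab
        exact (mem_filter.1 h4).2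
      · intro hab
        exact h3.2 ⟨hG hab, mem_filter.2 ⟨mem_univ _, hab⟩⟩
    refine card_le_card_of_injOn (fun G => univ.filter (fun x : B.edgeSet => x.1 ∈ G.edgeSet)) ?_ ?_
    · intro G hG
      rw [mem_coe, mem_filter] at hG
      rw [mem_coe, mem_powersetCard]
      refine ⟨subset_univ _, ?_⟩
      rw [← cS_grS, h6 G hG.2.1]
      exact hG.2.2
    · intro G hG G' hG' h
      rw [mem_coe, mem_filter] at hG hG'
      have h' : univ.filter (fun x : B.edgeSet => x.1 ∈ G.edgeSet) =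
        univ.filter (fun x : B.edgeSet => x.1 ∈ G'.edgeSet) := h
      rw [← h6 G hG.2.1, ← h6 G' hG'.2.1, h']
  have h5 := fixed_edges B (m / N) m hm0 (by rw [hcN]; exact hmN) (by rw [hcN])
    (fun G => ¬ Good G)
  rw [hcN] at h5
  have hC : (0 : ℝ) < N.choose m := by exact_mod_cast Nat.choose_pos hmN.le
  have hδ : 0 ≤ δ := by
    refine le_trans (pb_nonneg (qB B (m / N)) (qB_01 B _ (by positivity) ?_) _) h
    rw [div_le_one (by exact_mod_cast (by omega : 0 < N))]
    exact_mod_cast hmN.le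
  have h6 : ((univ.filter (fun σ : B.edgeSet ≃ Fin N => ¬ Good (stage B σ m))).card : ℝ) *
      N.choose m ≤ N.factorial * (((N : ℝ) + 1) * δ) * N.choose m := by
    have e1 : univ.filter (fun σ : B.edgeSet ≃ Fin N => ¬ Good (stage B σ m)) =
        univ.filter (fun σ : B.edgeSet ≃ Fin N =>
          P (univ.filter (fun x => (σ x : ℕ) < m))) := by
      apply filter_congr
      intro σ _
      rw [h2 σ]
    rw [e1]
    have e2 : ((univ.filter (fun σ : B.edgeSet ≃ Fin N =>
          P (univ.filter (fun x => (σ x : ℕ) < m)))).card : ℝ) * N.choose m =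
        N.factorial * ((((univ : Finset B.edgeSet).powersetCard m).filter P).card : ℝ) := by
      exact_mod_cast h1
    rw [e2]
    have e3 : ((((univ : Finset B.edgeSet).powersetCard m).filter P).card : ℝ) ≤
        ((univ.filter (fun G : SimpleGraph (Fin n) =>
          G ≤ B ∧ cS univ G = m ∧ ¬ Good G)).card : ℝ) := by exact_mod_cast h3
    have e4 : ((univ.filter (fun G : SimpleGraph (Fin n) => G ≤ B ∧ cS univ G = m)).card : ℝ) ≤
        N.choose m := by exact_mod_cast h4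
    calc (N.factorial : ℝ) * ((((univ : Finset B.edgeSet).powersetCard m).filter P).card : ℝ) ≤
        N.factorial * (((N : ℝ) + 1) * pb (qB B (m / N)) (fun G => ¬ Good G) *
          ((univ.filter (fun G : SimpleGraph (Fin n) => G ≤ B ∧ cS univ G = m)).card : ℝ)) := by
          gcongr
          refine e3.trans (le_trans (le_of_eq ?_) (h5.trans (le_of_eq ?_)))
          · congr
          · congr
      _ ≤ N.factorial * (((N : ℝ) + 1) * δ * N.choose m) := by gcongr
      _ = _ := by ring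
  exact le_of_mul_le_mul_right h6 hC

end

set_option maxHeartbeats 1000000 in
/-- the random graph process in a dense graph -/
theorem process (η γ : ℝ) (hη0 : 0 < η) (hη1 : η ≤ 1) (hγ0 : 0 < γ) (hγ1 : γ ≤ 1) :
    ∃ N₀ : ℕ, ∀ n : ℕ, N₀ ≤ n → ∀ (B : SimpleGraph (Fin n)), (∃ v, γ * n ≤ dg B v) → ∀ N : ℕ,
      ({σ : B.edgeSet ≃ Fin N | ∃ m : ℕ, (n : ℝ) * Real.log n ^ 4 ≤ m ∧ (m : ℝ) ≤ (1 - η) * N ∧
        ¬ (Gd (stage B σ m) ∧ GdTot (stage B σ m))}.ncard : ℝ) ≤ N.factorial / (n : ℝ) ^ 2 := by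
  classical
  obtain ⟨N₁, h₁⟩ := good_random η γ hη0 hη1 hγ0 hγ1
  obtain ⟨N₂, hN₂⟩ := Filter.eventually_atTop.1 (ev_log 1)
  refine ⟨max (max N₁ N₂) 1, fun n hn B hB N => ?_⟩
  have hnN₁ : N₁ ≤ n := le_trans (le_max_left _ _) (le_trans (le_max_left _ _) hn)
  have hnN₂ : N₂ ≤ n := le_trans (le_max_right _ _) (le_trans (le_max_left _ _) hn)
  have hn1 : 1 ≤ n := le_trans (le_max_right _ _) hn
  have hl1 := hN₂ n hnN₂
  have hn0 : (0 : ℝ) < n := by exact_mod_cast hn1
  by_cases hN : Fintype.card B.edgeSet = N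
  swap
  · have h1 : {σ : B.edgeSet ≃ Fin N | ∃ m : ℕ, (n : ℝ) * Real.log n ^ 4 ≤ m ∧
        (m : ℝ) ≤ (1 - η) * N ∧ ¬ (Gd (stage B σ m) ∧ GdTot (stage B σ m))} = ∅ := by
      ext σ
      simp only [Set.mem_empty_iff_false, iff_false]
      intro _
      apply hN
      rw [Fintype.card_congr σ, Fintype.card_fin]
    rw [h1, Set.ncard_empty, Nat.cast_zero]
    positivity
  -- a vertex of maximum degree
  obtain ⟨v₁, hv₁⟩ := hB
  obtain ⟨v₀, -, hmax⟩ := exists_max_image (univ : Finset (Fin n)) (fun v => dg B v) ⟨v₁, mem_univ _⟩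
  have hmax' : ∀ v, dg B v ≤ dg B v₀ := fun v => hmax v (mem_univ v)
  have hγv₀ : γ * n ≤ dg B v₀ := hv₁.trans (by exact_mod_cast hmax' v₁)
  have hΔ0 : (0 : ℝ) < dg B v₀ := lt_of_lt_of_le (by positivity) hγv₀
  have hcN : cS univ B = N := by
    rw [← hN, ← card_univ]
    have h1 := cS_grS B univ
    have h2 : grS B univ = B := by
      ext a b
      have h3 := mem_grS B univ s(a, b)
      constructor
      · intro hab
        exact (h3.1 hab).1
      · intro hab
        exact h3.2 ⟨hab, mem_univ _⟩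
    rw [h2] at h1
    exact h1
  have hNΔ : N ≤ n * dg B v₀ := by
    rw [← hcN]
    exact card_edges_le B (dg B v₀) hmax'
  have hNn : N + 1 ≤ n ^ 2 := by
    have h1 := dg_lt B v₀
    have h2 : n * dg B v₀ ≤ n * (n - 1) := Nat.mul_le_mul_left n h1
    have h3 : n * (n - 1) + 1 ≤ n ^ 2 := by
      obtain ⟨k, rfl⟩ : ∃ k, n = k + 1 := ⟨n - 1, by omega⟩
      rw [Nat.add_sub_cancel]
      nlinarith
    omega
  have hstage : ∀ m ∈ range (N + 1), (n : ℝ) * Real.log n ^ 4 ≤ m → (m : ℝ) ≤ (1 - η) * N →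
      ((univ.filter (fun σ : B.edgeSet ≃ Fin N =>
        ¬ (Gd (stage B σ m) ∧ GdTot (stage B σ m)))).card : ℝ) ≤
      N.factorial * (((N : ℝ) + 1) * (1 / (n : ℝ) ^ 6)) := by
    intro m _ hm1 hm2
    have hl4 : (1 : ℝ) ≤ Real.log n ^ 4 := one_le_pow₀ hl1
    have hm0 : (0 : ℝ) < m := lt_of_lt_of_le (by positivity) hm1
    have hN0 : (0 : ℝ) < N := by
      by_contra hcon
      push Not at hcon
      have : (0 : ℝ) ≤ N := Nat.cast_nonneg _
      have h0 : (N : ℝ) = 0 := le_antisymm hcon this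
      rw [h0, mul_zero] at hm2
      linarith
    have hmN : (m : ℝ) < N := by nlinarith
    have hfin := stage_count B N m hN (by exact_mod_cast hm0) (by exact_mod_cast hmN)
      (fun G => Gd G ∧ GdTot G) (1 / (n : ℝ) ^ 6) ?_
    · convert hfin
    refine h₁ n hnN₁ B (m / N) v₀ hmax' hγv₀ ?_ ?_
    · rw [div_le_iff₀ hN0]
      exact hm2
    · rw [div_mul_eq_mul_div, le_div_iff₀ hN0]
      have hNΔr : (N : ℝ) ≤ n * dg B v₀ := by exact_mod_cast hNΔ
      calc Real.log n ^ 4 * N ≤ Real.log n ^ 4 * (n * dg B v₀) := by gcongr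
        _ = (n * Real.log n ^ 4) * dg B v₀ := by ring
        _ ≤ m * dg B v₀ := by gcongr
  -- the union
  have hcard : ({σ : B.edgeSet ≃ Fin N | ∃ m : ℕ, (n : ℝ) * Real.log n ^ 4 ≤ m ∧
      (m : ℝ) ≤ (1 - η) * N ∧ ¬ (Gd (stage B σ m) ∧ GdTot (stage B σ m))}.ncard : ℝ) ≤
      ∑ m ∈ range (N + 1), (N.factorial : ℝ) * (((N : ℝ) + 1) * (1 / (n : ℝ) ^ 6)) := by
    let A : ℕ → Finset (B.edgeSet ≃ Fin N) := fun m =>
      if (n : ℝ) * Real.log n ^ 4 ≤ m ∧ (m : ℝ) ≤ (1 - η) * N then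
        univ.filter (fun σ : B.edgeSet ≃ Fin N => ¬ (Gd (stage B σ m) ∧ GdTot (stage B σ m)))
      else ∅
    have h1 : {σ : B.edgeSet ≃ Fin N | ∃ m : ℕ, (n : ℝ) * Real.log n ^ 4 ≤ m ∧
        (m : ℝ) ≤ (1 - η) * N ∧ ¬ (Gd (stage B σ m) ∧ GdTot (stage B σ m))} ⊆
        (((range (N + 1)).biUnion A : Finset (B.edgeSet ≃ Fin N)) : Set (B.edgeSet ≃ Fin N)) := by
      rintro σ ⟨m, hm1, hm2, hm3⟩
      rw [mem_coe, mem_biUnion]
      have hmN : (m : ℝ) ≤ N := by
        have : (0 : ℝ) ≤ N := Nat.cast_nonneg _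
        nlinarith
      refine ⟨m, ?_, ?_⟩
      · rw [mem_range]
        have : m ≤ N := by exact_mod_cast hmN
        omega
      · simp only [A]
        rw [if_pos ⟨hm1, hm2⟩, mem_filter]
        exact ⟨mem_univ _, hm3⟩
    have h2 := Set.ncard_le_ncard h1 (Set.toFinite _)
    rw [Set.ncard_coe_finset] at h2
    have h3 := h2.trans card_biUnion_le
    have h4 : ({σ : B.edgeSet ≃ Fin N | ∃ m : ℕ, (n : ℝ) * Real.log n ^ 4 ≤ m ∧
      (m : ℝ) ≤ (1 - η) * N ∧ ¬ (Gd (stage B σ m) ∧ GdTot (stage B σ m))}.ncard : ℝ) ≤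
        ∑ m ∈ range (N + 1), ((A m).card : ℝ) := by exact_mod_cast h3
    refine h4.trans (sum_le_sum fun m hm => ?_)
    simp only [A]
    split_ifs with hc
    · exact hstage m hm hc.1 hc.2
    · rw [card_empty, Nat.cast_zero]
      positivity
  refine hcard.trans ?_
  rw [sum_const, card_range, nsmul_eq_mul]
  have hNr : (N : ℝ) + 1 ≤ (n : ℝ) ^ 2 := by exact_mod_cast hNn
  have hN0 : (0 : ℝ) ≤ N := Nat.cast_nonneg _
  push_cast
  calc ((N : ℝ) + 1) * ((N.factorial : ℝ) * (((N : ℝ) + 1) * (1 / (n : ℝ) ^ 6))) ≤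
      (n : ℝ) ^ 2 * ((N.factorial : ℝ) * ((n : ℝ) ^ 2 * (1 / (n : ℝ) ^ 6))) := by gcongr
    _ = N.factorial / (n : ℝ) ^ 2 := by
        field_simp

end Pool.Agent.W2helper87.RP
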