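import Pool.Agent.W2helper87.RP.MidS
import Pool.Agent.W2helper87.RP.LowS
import Pool.Agent.W2helper87.RP.ForS

/-!
# The random graph process in dense graphs: all stages
-/

set_option autoImplicit false

namespace Pool.Agent.W2helper87.RP

open Finset Pool.Agent.H162R2.Sparse Pool.Agent.H162R2.AG Pool.Agent.W2helper87.SR
open Pool.Agent.W2helper87.FR Pool.Agent.W2helper87.LD Pool.Agent.W2helper87.TC
open Pool.Agent.Results.MP_db9399_co.SparseLargeDegrees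

open Classical in
/-- a graph with many edges has many vertices of large degree -/
theorem many_large {n : ℕ} (B : SimpleGraph (Fin n)) (γ : ℝ) (hγ : 0 ≤ γ)
    (h : γ * (n : ℝ) ^ 2 ≤ cS univ B) (hn : 1 ≤ n) :
    γ / 2 * n ≤ ((univ.filter (fun v => γ / 2 * n ≤ dg B v)).card : ℝ) := by
  have hn0 : (0 : ℝ) < n := by exact_mod_cast hn
  have h1 : (univ.filter (fun e : Pr n => e.1 ∈ B.edgeSet)) ⊆
      (univ : Finset (Fin n)).biUnion (fun v => (sU v univ).filter (fun e => e.1 ∈ B.edgeSet)) := by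
    intro e he
    rw [mem_filter] at he
    rw [mem_biUnion]
    obtain ⟨⟨a, b⟩, hab⟩ := Sym2.mk_surjective e.1
    refine ⟨a, mem_univ _, ?_⟩
    rw [mem_filter, mem_sU]
    exact ⟨⟨b, mem_univ _, hab.symm⟩, he.2⟩
  have h2 : cS univ B ≤ ∑ v : Fin n, cS (sU v univ) B := by
    unfold cS
    refine (le_of_eq ?_).trans ((card_le_card h1).trans card_biUnion_le)
    congr
  have h3 : (cS univ B : ℝ) ≤ ∑ v : Fin n, (dg B v : ℝ) := by
    have e1 : (cS univ B : ℝ) ≤ ((∑ v : Fin n, cS (sU v univ) B : ℕ) : ℝ) := by exact_mod_cast h2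
    refine e1.trans (le_of_eq ?_)
    push_cast
    apply sum_congr rfl
    intro v _
    rw [cS_univ]
  have h4 : ∑ v : Fin n, (dg B v : ℝ) ≤
      ∑ v : Fin n, (γ / 2 * n + (if γ / 2 * (n : ℝ) ≤ dg B v then (n : ℝ) else 0)) := by
    apply sum_le_sum
    intro v _
    have e1 : dg B v ≤ n := (dg_lt B v).trans (Nat.sub_le _ _)
    have e2 : (dg B v : ℝ) ≤ n := by exact_mod_cast e1
    have e3 : 0 ≤ γ / 2 * (n : ℝ) := by positivity
    split_ifs with h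
    · linarith
    · push Not at h
      linarith
  rw [sum_add_distrib, sum_const, card_univ, Fintype.card_fin, nsmul_eq_mul, ← sum_filter,
    sum_const, nsmul_eq_mul] at h4
  have h5 : γ / 2 * n * n ≤ ((univ.filter (fun v => γ / 2 * n ≤ dg B v)).card : ℝ) * n := by
    have e1 : γ * (n : ℝ) ^ 2 = γ / 2 * n * n + n * (γ / 2 * n) := by ring
    linarith
  exact le_of_mul_le_mul_right h5 hn0

open Classical in
/-- the union over the stages -/
theorem union_stage {n : ℕ} (B : SimpleGraph (Fin n)) (N : ℕ)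
    (hN : Fintype.card B.edgeSet = N) (Adm : ℕ → Prop) (Good : SimpleGraph (Fin n) → Prop) (δ : ℝ)
    (hδ : 0 ≤ δ) (hAdm : ∀ m, Adm m → 0 < m ∧ m < N ∧
      pb (qB B (m / N)) (fun G => ¬ Good G) ≤ δ) :
    ({σ : B.edgeSet ≃ Fin N | ∃ m : ℕ, Adm m ∧ ¬ Good (stage B σ m)}.ncard : ℝ) ≤
      N.factorial * (((N : ℝ) + 1) ^ 2 * δ) := by
  have hstage : ∀ m, Adm m → ((univ.filter (fun σ : B.edgeSet ≃ Fin N =>
        ¬ Good (stage B σ m))).card : ℝ) ≤ N.factorial * (((N : ℝ) + 1) * δ) := by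
    intro m hm
    obtain ⟨h1, h2, h3⟩ := hAdm m hm
    have hfin := stage_count B N m hN h1 h2 Good δ h3
    convert hfin
  let A : ℕ → Finset (B.edgeSet ≃ Fin N) := fun m =>
    if Adm m then univ.filter (fun σ : B.edgeSet ≃ Fin N => ¬ Good (stage B σ m)) else ∅
  have h1 : {σ : B.edgeSet ≃ Fin N | ∃ m : ℕ, Adm m ∧ ¬ Good (stage B σ m)} ⊆
      (((range (N + 1)).biUnion A : Finset (B.edgeSet ≃ Fin N)) : Set (B.edgeSet ≃ Fin N)) := by
    rintro σ ⟨m, hm1, hm2⟩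
    rw [mem_coe, mem_biUnion]
    have hmN := (hAdm m hm1).2.1
    refine ⟨m, ?_, ?_⟩
    · rw [mem_range]
      omega
    · simp only [A]
      rw [if_pos hm1, mem_filter]
      exact ⟨mem_univ _, hm2⟩
  have h2 := Set.ncard_le_ncard h1 (Set.toFinite _)
  rw [Set.ncard_coe_finset] at h2
  have h3 := h2.trans card_biUnion_le
  have h4 : ({σ : B.edgeSet ≃ Fin N | ∃ m : ℕ, Adm m ∧ ¬ Good (stage B σ m)}.ncard : ℝ) ≤
      ∑ m ∈ range (N + 1), ((A m).card : ℝ) := by exact_mod_cast h3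
  have h5 : ∑ m ∈ range (N + 1), ((A m).card : ℝ) ≤
      ∑ m ∈ range (N + 1), (N.factorial : ℝ) * (((N : ℝ) + 1) * δ) := by
    apply sum_le_sum
    intro m _
    simp only [A]
    split_ifs with hc
    · exact hstage m hc
    · rw [card_empty, Nat.cast_zero]
      positivity
  refine (h4.trans h5).trans (le_of_eq ?_)
  rw [sum_const, card_range, nsmul_eq_mul]
  push_cast
  ring

set_option maxHeartbeats 1000000 in
/-- all stages of the random graph process in a dense graph -/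
theorem process_full (η γ : ℝ) (hη0 : 0 < η) (hη1 : η ≤ 1) (hγ0 : 0 < γ) (hγ1 : γ ≤ 1) :
    ∃ δ : ℝ, 0 < δ ∧ ∃ K N₀ : ℕ, ∀ n : ℕ, N₀ ≤ n → ∀ (B : SimpleGraph (Fin n)) (N : ℕ),
      γ * (n : ℝ) ^ 2 ≤ N →
      ({σ : B.edgeSet ≃ Fin N | ∃ m : ℕ, (m : ℝ) ≤ (1 - η) * N ∧
        ¬ (Gd (stage B σ m) ∧ GdK K (stage B σ m))}.ncard : ℝ) ≤
        N.factorial * (n : ℝ) ^ (-δ) := by
  classical
  obtain ⟨N₁, h₁⟩ := good_random η γ hη0 hη1 hγ0 hγ1
  obtain ⟨C₂, hC₂, N₂, h₂⟩ := mid_strong γ hγ0 hγ1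
  have hC₂0 : 0 < C₂ := by linarith
  obtain ⟨β, hβ0, hβ1, N₃, h₃⟩ := low_strong (C₂ / γ) (γ / 2) (by positivity) (by positivity)
  obtain ⟨K, N₄, h₄⟩ := forest_stage (β / 2) γ (by positivity) (by linarith) hγ0
  obtain ⟨N₅, hN₅⟩ := Filter.eventually_atTop.1 ((ev_log 1).and
    ((ev_const (2 / γ) (β / 2) (by positivity)).and
    ((ev_const 2 (β / 4) (by positivity)).and (Filter.eventually_ge_atTop 2))))
  refine ⟨β / 4, by positivity, K, max (max (max N₁ N₂) (max N₃ N₄)) N₅,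
    fun n hn B N hγN => ?_⟩
  have hnN₁ : N₁ ≤ n := le_trans (le_max_left _ _) (le_trans (le_max_left _ _)
    (le_trans (le_max_left _ _) hn))
  have hnN₂ : N₂ ≤ n := le_trans (le_max_right _ _) (le_trans (le_max_left _ _)
    (le_trans (le_max_left _ _) hn))
  have hnN₃ : N₃ ≤ n := le_trans (le_max_left _ _) (le_trans (le_max_right _ _)
    (le_trans (le_max_left _ _) hn))
  have hnN₄ : N₄ ≤ n := le_trans (le_max_right _ _) (le_trans (le_max_right _ _)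
    (le_trans (le_max_left _ _) hn))
  obtain ⟨v1, v2, v3, hn2⟩ := hN₅ n (le_trans (le_max_right _ _) hn)
  have hnr : (2 : ℝ) ≤ n := by exact_mod_cast hn2
  have hn0 : (0 : ℝ) < n := by linarith
  have hn1 : (1 : ℝ) ≤ n := by linarith
  have hn1' : 1 ≤ n := by omega
  have hf0 : (0 : ℝ) < N.factorial := by exact_mod_cast N.factorial_pos
  by_cases hN : Fintype.card B.edgeSet = N
  swap
  · have h1 : {σ : B.edgeSet ≃ Fin N | ∃ m : ℕ, (m : ℝ) ≤ (1 - η) * N ∧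
        ¬ (Gd (stage B σ m) ∧ GdK K (stage B σ m))} = ∅ := by
      ext σ
      simp only [Set.mem_empty_iff_false, iff_false]
      intro _
      apply hN
      rw [Fintype.card_congr σ, Fintype.card_fin]
    rw [h1, Set.ncard_empty, Nat.cast_zero]
    positivity
  have hN0 : (0 : ℝ) < N := lt_of_lt_of_le (by positivity) hγN
  have hcN : cS univ B = N := cS_card B N hN
  -- a vertex of maximum degree
  obtain ⟨v₀, -, hmax⟩ := exists_max_image (univ : Finset (Fin n)) (fun v => dg B v)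
    ⟨⟨0, by omega⟩, mem_univ _⟩
  have hmax' : ∀ v, dg B v ≤ dg B v₀ := fun v => hmax v (mem_univ v)
  have hNΔ : N ≤ n * dg B v₀ := by
    rw [← hcN]
    exact card_edges_le B (dg B v₀) hmax'
  have hγv₀ : γ * n ≤ dg B v₀ := by
    have e1 : (N : ℝ) ≤ n * dg B v₀ := by exact_mod_cast hNΔ
    have e2 : (γ * n) * n ≤ dg B v₀ * n := by
      have e3 : (γ * n) * n = γ * (n : ℝ) ^ 2 := by ring
      rw [e3]
      linarith
    exact le_of_mul_le_mul_right e2 hn0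
  have hΔ0 : (0 : ℝ) < dg B v₀ := lt_of_lt_of_le (by positivity) hγv₀
  have hNn : N + 1 ≤ n ^ 2 := by
    have h1 := dg_lt B v₀
    have h2 : n * dg B v₀ ≤ n * (n - 1) := Nat.mul_le_mul_left n h1
    have h3 : n * (n - 1) + 1 ≤ n ^ 2 := by
      obtain ⟨k, rfl⟩ : ∃ k, n = k + 1 := ⟨n - 1, by omega⟩
      rw [Nat.add_sub_cancel]
      nlinarith
    omega
  have hNr : (N : ℝ) + 1 ≤ (n : ℝ) ^ 2 := by exact_mod_cast hNn
  have hmany := many_large B γ hγ0.le (by rw [hcN]; exact hγN) hn1'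
  obtain ⟨l, hl⟩ : ∃ l : ℝ, l = Real.log n := ⟨_, rfl⟩
  have hl1 : 1 ≤ l := by rw [hl]; exact v1
  -- the later stages
  have hlate : ∀ m : ℕ, ((n : ℝ) ^ (1 - β / 2) < m ∧ (m : ℝ) ≤ (1 - η) * N) →
      0 < m ∧ m < N ∧ pb (qB B (m / N)) (fun G => ¬ (Gd G ∧ GdTot G)) ≤ 1 / (n : ℝ) ^ 6 := by
    rintro m ⟨hm1, hm2⟩
    have hm0 : (0 : ℝ) < m := lt_trans (by positivity) hm1
    have hmN : (m : ℝ) < N := by nlinarith
    refine ⟨by exact_mod_cast hm0, by exact_mod_cast hmN, ?_⟩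
    obtain ⟨p, hp⟩ : ∃ p : ℝ, p = m / N := ⟨_, rfl⟩
    rw [← hp]
    have hp0 : 0 < p := by rw [hp]; positivity
    have hpη : p ≤ 1 - η := by
      rw [hp, div_le_iff₀ hN0]
      exact hm2
    rcases le_or_gt (l ^ 4) (p * dg B v₀) with hA | hA
    · exact h₁ n hnN₁ B p v₀ hmax' hγv₀ hpη (by rw [← hl]; exact hA)
    rcases le_or_gt (C₂ * l) (p * dg B v₀) with hC | hC
    · exact h₂ n hnN₂ B p v₀ hmax' hγv₀ (by rw [← hl]; exact hC) (by rw [← hl]; exact hA.le)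
    have hCγ : C₂ * l ≤ C₂ / γ * l := by
      have : C₂ ≤ C₂ / γ := by
        rw [le_div_iff₀ hγ0]
        nlinarith
      gcongr
    have hmu : ∀ v, mu (qB B p) v = p * dg B v := by
      intro v
      rw [← qs_mu, qs_qB, cS_univ]
    refine h₃ n hnN₃ (qB B p) ?_ ?_ ?_
    · intro e
      refine ⟨(qB_01 B p hp0.le (by linarith) e).1, (qB_le B p hp0.le e).trans ?_⟩
      rw [← hl, le_div_iff₀ hn0]
      have e1 : γ * (p * n) ≤ C₂ * l := by
        calc γ * (p * n) = p * (γ * n) := by ring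
          _ ≤ p * dg B v₀ := by gcongr
          _ ≤ C₂ * l := hC.le
      rw [div_mul_eq_mul_div, le_div_iff₀ hγ0]
      linarith
    · intro v
      rw [hmu, ← hl]
      refine le_trans ?_ hCγ
      refine le_trans ?_ hC.le
      have : (dg B v : ℝ) ≤ dg B v₀ := by exact_mod_cast hmax' v
      gcongr
    · refine hmany.trans ?_
      have e1 : (univ.filter (fun v => γ / 2 * n ≤ dg B v)).card ≤
          (univ.filter (fun v => (n : ℝ) ^ (-β) ≤ mu (qB B p) v)).card := by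
        apply card_le_card
        intro v hv
        rw [mem_filter] at hv ⊢
        refine ⟨hv.1, ?_⟩
        rw [hmu]
        have e2 : (n : ℝ) ^ (1 - β / 2) / (n : ℝ) ^ 2 ≤ p := by
          rw [hp, div_le_div_iff₀ (by positivity) hN0]
          have e3 : (N : ℝ) ≤ (n : ℝ) ^ 2 := by linarith
          calc (n : ℝ) ^ (1 - β / 2) * N ≤ m * (n : ℝ) ^ 2 := by gcongr
            _ = m * (n : ℝ) ^ 2 := rfl
        have e4 : (n : ℝ) ^ (-β) ≤ (n : ℝ) ^ (1 - β / 2) / (n : ℝ) ^ 2 * (γ / 2 * n) := by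
          have e5 : (n : ℝ) ^ (1 - β / 2) = n * (n : ℝ) ^ (-(β / 2)) := by
            nth_rewrite 2 [← Real.rpow_one (n : ℝ)]
            rw [rp_mul n hn0 _ _ _ rfl]
            congr 1
          have e6 : (n : ℝ) ^ (1 - β / 2) / (n : ℝ) ^ 2 * (γ / 2 * n) =
              γ / 2 * (n : ℝ) ^ (-(β / 2)) := by
            rw [e5]
            field_simp
          have e7 : (n : ℝ) ^ (β / 2) * (n : ℝ) ^ (-β) = (n : ℝ) ^ (-(β / 2)) :=
            rp_mul n hn0 _ _ _ (by ring)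
          rw [e6, ← e7]
          have e8 : 1 ≤ γ / 2 * (n : ℝ) ^ (β / 2) := by
            rw [div_le_iff₀ hγ0] at v2
            linarith
          calc (n : ℝ) ^ (-β) = 1 * (n : ℝ) ^ (-β) := (one_mul _).symm
            _ ≤ (γ / 2 * (n : ℝ) ^ (β / 2)) * (n : ℝ) ^ (-β) := by gcongr
            _ = _ := by ring
        refine e4.trans ?_
        have := hv.2
        gcongr
      exact_mod_cast e1
  have hB2 := union_stage B N hN (fun m => (n : ℝ) ^ (1 - β / 2) < m ∧ (m : ℝ) ≤ (1 - η) * N)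
    (fun G => Gd G ∧ GdTot G) (1 / (n : ℝ) ^ 6) (by positivity) hlate
  have hB1 := h₄ n hnN₄ B N hγN
  -- the union
  have hsub : {σ : B.edgeSet ≃ Fin N | ∃ m : ℕ, (m : ℝ) ≤ (1 - η) * N ∧
        ¬ (Gd (stage B σ m) ∧ GdK K (stage B σ m))} ⊆
      {σ : B.edgeSet ≃ Fin N | ∃ m : ℕ, (m : ℝ) ≤ (n : ℝ) ^ (1 - β / 2) ∧
        ¬ ((stage B σ m).IsAcyclic ∧ ∀ v, dg (stage B σ m) v < K)} ∪
      {σ : B.edgeSet ≃ Fin N | ∃ m : ℕ, ((n : ℝ) ^ (1 - β / 2) < m ∧ (m : ℝ) ≤ (1 - η) * N) ∧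
        ¬ (Gd (stage B σ m) ∧ GdTot (stage B σ m))} := by
    rintro σ ⟨m, hm1, hm2⟩
    rcases le_or_gt (m : ℝ) ((n : ℝ) ^ (1 - β / 2)) with h | h
    · left
      refine ⟨m, h, fun hac => hm2 ⟨?_, ?_⟩⟩
      · intro D hD1 _ L hsym hL
        exact lc_acyclic D _ hac.1 hD1 L hsym hL
      · intro D hD1 hD2 H hH k
        refine ⟨fun hKD => ?_, fun hk => ext_acyclic _ hac.1 D hD1 H hH k hk⟩
        obtain ⟨w, hw⟩ := hD2
        have := hac.2 w
        omega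
    · right
      refine ⟨m, ⟨h, hm1⟩, fun hgd => hm2 ⟨hgd.1, GdK_of_tot K _ hgd.2⟩⟩
  have hcard : ({σ : B.edgeSet ≃ Fin N | ∃ m : ℕ, (m : ℝ) ≤ (1 - η) * N ∧
        ¬ (Gd (stage B σ m) ∧ GdK K (stage B σ m))}.ncard : ℝ) ≤
      ({σ : B.edgeSet ≃ Fin N | ∃ m : ℕ, (m : ℝ) ≤ (n : ℝ) ^ (1 - β / 2) ∧
        ¬ ((stage B σ m).IsAcyclic ∧ ∀ v, dg (stage B σ m) v < K)}.ncard : ℝ) +
      ({σ : B.edgeSet ≃ Fin N | ∃ m : ℕ, ((n : ℝ) ^ (1 - β / 2) < m ∧ (m : ℝ) ≤ (1 - η) * N) ∧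
        ¬ (Gd (stage B σ m) ∧ GdTot (stage B σ m))}.ncard : ℝ) := by
    have e1 := (Set.ncard_le_ncard hsub (Set.toFinite _)).trans (Set.ncard_union_le _ _)
    exact_mod_cast e1
  have hlast : ((N : ℝ) + 1) ^ 2 * (1 / (n : ℝ) ^ 6) ≤ (n : ℝ) ^ (-(β / 2)) := by
    calc ((N : ℝ) + 1) ^ 2 * (1 / (n : ℝ) ^ 6) ≤ ((n : ℝ) ^ 2) ^ 2 * (1 / (n : ℝ) ^ 6) := by gcongr
      _ = (n : ℝ) ^ (-(2 : ℝ)) := by
          rw [Real.rpow_neg hn0.le]
          have : (n : ℝ) ^ (2 : ℝ) = (n : ℝ) ^ 2 := by exact_mod_cast Real.rpow_natCast (n : ℝ) 2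
          rw [this]
          field_simp
      _ ≤ (n : ℝ) ^ (-(β / 2)) := by
          apply Real.rpow_le_rpow_of_exponent_le hn1
          linarith
  have hfin : 2 * (n : ℝ) ^ (-(β / 2)) ≤ (n : ℝ) ^ (-(β / 4)) := by
    have e1 : (n : ℝ) ^ (β / 4) * (n : ℝ) ^ (-(β / 2)) = (n : ℝ) ^ (-(β / 4)) :=
      rp_mul n hn0 _ _ _ (by ring)
    rw [← e1]
    gcongr
  calc ({σ : B.edgeSet ≃ Fin N | ∃ m : ℕ, (m : ℝ) ≤ (1 - η) * N ∧
        ¬ (Gd (stage B σ m) ∧ GdK K (stage B σ m))}.ncard : ℝ) ≤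
      N.factorial * (n : ℝ) ^ (-(β / 2)) + N.factorial * (((N : ℝ) + 1) ^ 2 * (1 / (n : ℝ) ^ 6)) :=
        hcard.trans (add_le_add hB1 hB2)
    _ ≤ N.factorial * (n : ℝ) ^ (-(β / 2)) + N.factorial * (n : ℝ) ^ (-(β / 2)) := by gcongr
    _ = N.factorial * (2 * (n : ℝ) ^ (-(β / 2))) := by ring
    _ ≤ N.factorial * (n : ℝ) ^ (-(β / 4)) := by gcongr

set_option maxHeartbeats 1000000 in
/-- the stages with at least `C n log n` edges of the random graph process in a graph with a vertex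
of linear degree -/
theorem process_mid (η γ : ℝ) (hη0 : 0 < η) (hη1 : η ≤ 1) (hγ0 : 0 < γ) (hγ1 : γ ≤ 1) :
    ∃ C : ℝ, 0 < C ∧ ∃ N₀ : ℕ, ∀ n : ℕ, N₀ ≤ n → ∀ (B : SimpleGraph (Fin n)),
      (∃ v, γ * n ≤ dg B v) → ∀ N : ℕ,
      ({σ : B.edgeSet ≃ Fin N | ∃ m : ℕ, (C * n * Real.log n ≤ m ∧ (m : ℝ) ≤ (1 - η) * N) ∧
        ¬ (Gd (stage B σ m) ∧ GdTot (stage B σ m))}.ncard : ℝ) ≤ N.factorial / (n : ℝ) ^ 2 := by
  classical
  obtain ⟨N₁, h₁⟩ := good_random η γ hη0 hη1 hγ0 hγ1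
  obtain ⟨C₂, hC₂, N₂, h₂⟩ := mid_strong γ hγ0 hγ1
  have hC₂0 : 0 < C₂ := by linarith
  obtain ⟨N₅, hN₅⟩ := Filter.eventually_atTop.1 ((ev_log 1).and (Filter.eventually_ge_atTop 2))
  refine ⟨C₂, hC₂0, max (max N₁ N₂) N₅, fun n hn B hB N => ?_⟩
  have hnN₁ : N₁ ≤ n := le_trans (le_max_left _ _) (le_trans (le_max_left _ _) hn)
  have hnN₂ : N₂ ≤ n := le_trans (le_max_right _ _) (le_trans (le_max_left _ _) hn)
  obtain ⟨v1, hn2⟩ := hN₅ n (le_trans (le_max_right _ _) hn)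
  have hnr : (2 : ℝ) ≤ n := by exact_mod_cast hn2
  have hn0 : (0 : ℝ) < n := by linarith
  have hn1 : (1 : ℝ) ≤ n := by linarith
  by_cases hN : Fintype.card B.edgeSet = N
  swap
  · have h1 : {σ : B.edgeSet ≃ Fin N | ∃ m : ℕ,
        (C₂ * n * Real.log n ≤ m ∧ (m : ℝ) ≤ (1 - η) * N) ∧
        ¬ (Gd (stage B σ m) ∧ GdTot (stage B σ m))} = ∅ := by
      ext σ
      simp only [Set.mem_empty_iff_false, iff_false]
      intro _
      apply hN
      rw [Fintype.card_congr σ, Fintype.card_fin]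
    rw [h1, Set.ncard_empty, Nat.cast_zero]
    positivity
  have hcN : cS univ B = N := cS_card B N hN
  -- a vertex of maximum degree
  obtain ⟨v₁, hv₁⟩ := hB
  obtain ⟨v₀, -, hmax⟩ := exists_max_image (univ : Finset (Fin n)) (fun v => dg B v)
    ⟨v₁, mem_univ _⟩
  have hmax' : ∀ v, dg B v ≤ dg B v₀ := fun v => hmax v (mem_univ v)
  have hγv₀ : γ * n ≤ dg B v₀ := hv₁.trans (by exact_mod_cast hmax' v₁)
  have hNΔ : N ≤ n * dg B v₀ := by
    rw [← hcN]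
    exact card_edges_le B (dg B v₀) hmax'
  have hNn : N + 1 ≤ n ^ 2 := by
    have h1 := dg_lt B v₀
    have h2 : n * dg B v₀ ≤ n * (n - 1) := Nat.mul_le_mul_left n h1
    have h3 : n * (n - 1) + 1 ≤ n ^ 2 := by
      obtain ⟨k, rfl⟩ : ∃ k, n = k + 1 := ⟨n - 1, by omega⟩
      rw [Nat.add_sub_cancel]
      nlinarith
    omega
  have hNr : (N : ℝ) + 1 ≤ (n : ℝ) ^ 2 := by exact_mod_cast hNn
  obtain ⟨l, hl⟩ : ∃ l : ℝ, l = Real.log n := ⟨_, rfl⟩
  have hl1 : 1 ≤ l := by rw [hl]; exact v1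
  have hlate : ∀ m : ℕ, (C₂ * n * Real.log n ≤ m ∧ (m : ℝ) ≤ (1 - η) * N) →
      0 < m ∧ m < N ∧ pb (qB B (m / N)) (fun G => ¬ (Gd G ∧ GdTot G)) ≤ 1 / (n : ℝ) ^ 6 := by
    rintro m ⟨hm1, hm2⟩
    rw [← hl] at hm1
    have hm0 : (0 : ℝ) < m := lt_of_lt_of_le (by positivity) hm1
    have hN0 : (0 : ℝ) < N := by
      by_contra hcon
      push Not at hcon
      have : (0 : ℝ) ≤ N := Nat.cast_nonneg _
      have h0 : (N : ℝ) = 0 := le_antisymm hcon this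
      rw [h0, mul_zero] at hm2
      linarith
    have hmN : (m : ℝ) < N := by nlinarith
    refine ⟨by exact_mod_cast hm0, by exact_mod_cast hmN, ?_⟩
    obtain ⟨p, hp⟩ : ∃ p : ℝ, p = m / N := ⟨_, rfl⟩
    rw [← hp]
    have hpη : p ≤ 1 - η := by
      rw [hp, div_le_iff₀ hN0]
      exact hm2
    have hC : C₂ * l ≤ p * dg B v₀ := by
      rw [hp, div_mul_eq_mul_div, le_div_iff₀ hN0]
      have hNΔr : (N : ℝ) ≤ n * dg B v₀ := by exact_mod_cast hNΔ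
      calc C₂ * l * N ≤ C₂ * l * (n * dg B v₀) := by gcongr
        _ = (C₂ * n * l) * dg B v₀ := by ring
        _ ≤ m * dg B v₀ := by gcongr
    rcases le_or_gt (l ^ 4) (p * dg B v₀) with hA | hA
    · exact h₁ n hnN₁ B p v₀ hmax' hγv₀ hpη (by rw [← hl]; exact hA)
    · exact h₂ n hnN₂ B p v₀ hmax' hγv₀ (by rw [← hl]; exact hC) (by rw [← hl]; exact hA.le)
  refine (union_stage B N hN (fun m => C₂ * n * Real.log n ≤ m ∧ (m : ℝ) ≤ (1 - η) * N)
    (fun G => Gd G ∧ GdTot G) (1 / (n : ℝ) ^ 6) (by positivity) hlate).trans ?_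
  have hlast : ((N : ℝ) + 1) ^ 2 * (1 / (n : ℝ) ^ 6) ≤ 1 / (n : ℝ) ^ 2 := by
    calc ((N : ℝ) + 1) ^ 2 * (1 / (n : ℝ) ^ 6) ≤ ((n : ℝ) ^ 2) ^ 2 * (1 / (n : ℝ) ^ 6) := by gcongr
      _ = 1 / (n : ℝ) ^ 2 := by field_simp
  calc (N.factorial : ℝ) * (((N : ℝ) + 1) ^ 2 * (1 / (n : ℝ) ^ 6)) ≤
      N.factorial * (1 / (n : ℝ) ^ 2) := by gcongr
    _ = N.factorial / (n : ℝ) ^ 2 := by ring

end Pool.Agent.W2helper87.RP
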